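import Pool.Agent.H35.UB.Defs

/-!
# H35-UB-GPU: the black box GP, uniformly in the places `L`, `Fr`

* `mrg φ f`: the mean of `f` over the image of `φ`.
* `GPU D Ω κ`: as `H57.GP.GPW`, for class functions on images of exponent dividing `p ^ κ`, with a set `E` of primes with arbitrary inertia, and `Y₀`
  independent of `L`, `Fr`.
-/

set_option autoImplicit false

open scoped NumberField
open IsDedekindDomain
open scoped Classical

noncomputable section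

namespace H35.UB

open H63.MA H38.BB H38.BG H57.PC H57.BRA H77.WD H77.WE H57.AN

/-- the mean over the image -/
def mrg {Γ G : Type} [Group Γ] [Group G] [Fintype G] (φ : Γ →* G) (f : G → ℂ) : ℂ :=
  ((Finset.univ.filter fun y : G => y ∈ φ.range).card : ℂ)⁻¹ *
    ∑ y ∈ Finset.univ.filter (fun y : G => y ∈ φ.range), f y

/-- the black box GP -/
def GPU {K : Type} [Field K] [NumberField K] {p : ℕ} {ζ : K} (D : RD0 K p ζ) (Ω : Type) [Field Ω]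
    [Algebra K Ω] (κ : ℕ) : Prop :=
  ∀ (b C₁ A : ℕ) (ε : ℝ), 0 < ε → ∃ Y₀ : ℝ, ∀ Y : ℝ, Y₀ ≤ Y → ∀ (L : LDs D Ω) (Fr : FR L),
    ∀ (E : Finset (Pl K)) (ι : Type) (I : Finset ι) (n : ι → Finset (Pl K)) (x : ι → ℝ),
    (∀ i ∈ I, E ⊆ n i ∧ nr (n i) ≤ Y ^ C₁ ∧ ((n i).card : ℝ) ≤ C₁ * Real.log (Real.log Y)) →
    (∀ i ∈ I, Real.exp (Real.log Y ^ ε) ≤ x i ∧ x i ≤ Y ^ C₁) →
    (∀ m, ((I.filter fun i => n i = m).card : ℝ) ≤ Real.log Y ^ C₁) →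
    ∀ (G : ι → Type) [∀ i, Group (G i)] [∀ i, Fintype (G i)] (φ : ∀ i, Gal(Ω/K) →* G i)
      (f : ∀ i, G i → ℂ),
    (∀ i ∈ I, (Finset.univ.filter fun y : G i => y ∈ (φ i).range).card ≤ b ∧
      (∀ y ∈ (φ i).range, y ^ (p ^ κ) = 1) ∧
      (∀ y ∈ (φ i).range, ∀ z ∈ (φ i).range, f i (z * y * z⁻¹) = f i y) ∧
      (∀ y ∈ (φ i).range, ‖f i y‖ ≤ b) ∧ HonE L E (n i) (φ i)) →
    ∑ i ∈ I, (nr (n i))⁻¹ * (x i)⁻¹ *
        ‖∑ w ∈ (PB K (x i)).filter (fun w => D.Gd w ∧ w ∉ n i),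
          (f i (φ i (Fr.F w)) - mrg (φ i) (f i))‖ ≤ Real.log Y ^ (-(A : ℝ))

end H35.UB
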