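import Pool.Agent.H35.UB.Defs

/-!
# [H35 UB NKL] the series `Nk` and the functions `Gd`

All statements are elementary group theory of a finite group.
* `nk_map`: image under a surjective homomorphism (`Subgroup.map_commutator`). `nk_bot`: in a finite `p`-group the series ends
  (`Nk N k ≤ lowerCentralSeries P k` by `Subgroup.commutator_mono`, `IsPGroup.isNilpotent`).
* `gd_avg`: `Gd N k g x` is the mean over `u ∈ Nk N k` of `Gd N (k+1) g (x u)` (`Nk N (k+1) ≤ Nk N k`, translation).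
* `gd_fix`: `g x u = x u g` gives `x⁻¹ g x g⁻¹ = u g u⁻¹ g⁻¹ ∈ ⁅N, N⁆`.
* `gd_mean`: `∑_x Gd N 0 g x = #{x : g x = x g}`, times the number of conjugates of `g` this is `card P`.
* `nk_exp`: for `n ≥ 1`: `Nk N n` is central in `N`, `b ↦ [a, b]` (`a ∈ Nk N (n-1)`) is a homomorphism from `N` to `Nk N n`, `[a, s] ^ p = [a, s ^ p] = 1` for the
  generators `s`; `Nk N n` is abelian, generated by the `[a, b]`. For `n = 0`: `N` is abelian.
-/

set_option autoImplicit false

open scoped Classical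

noncomputable section

namespace H35.UB

open H77.PC3
open scoped commutatorElement

variable {P : Type} [Group P]

instance nk_normal (N : Subgroup P) [h : N.Normal] (k : ℕ) : (Nk N k).Normal := by
  induction k with
  | zero => exact h
  | succ k ih =>
    change (⁅Nk N k, N⁆ : Subgroup P).Normal
    exact Subgroup.commutator_normal _ _

theorem nk_le (N : Subgroup P) [N.Normal] (k : ℕ) : Nk N (k + 1) ≤ Nk N k := by
  change ⁅Nk N k, N⁆ ≤ Nk N k
  exact Subgroup.commutator_le_left _ _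

theorem nk_anti (N : Subgroup P) [N.Normal] {k l : ℕ} (h : k ≤ l) : Nk N l ≤ Nk N k := by
  induction l, h using Nat.le_induction with
  | base => exact le_rfl
  | succ l _ ih => exact (nk_le N l).trans ih

theorem nk_map {P' : Type} [Group P'] (f : P →* P') (N : Subgroup P) (k : ℕ) :
    Nk (N.map f) k = (Nk N k).map f := by
  induction k with
  | zero => rfl
  | succ k ih =>
    change ⁅Nk (N.map f) k, N.map f⁆ = (⁅Nk N k, N⁆ : Subgroup P).map f
    rw [ih, Subgroup.map_commutator]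

theorem nk_bot {p : ℕ} (hp : p.Prime) [Finite P] (hP : IsPGroup p P) (N : Subgroup P) :
    ∃ k, Nk N k = ⊥ := by
  have : Fact p.Prime := ⟨hp⟩
  have hn : Group.IsNilpotent N := (hP.to_subgroup N).isNilpotent
  have hl : ∀ k, Nk N k = N.lowerCentralSeries k := by
    intro k
    induction k with
    | zero => rfl
    | succ k ih =>
      change (⁅Nk N k, N⁆ : Subgroup P) = _
      rw [ih, Subgroup.lowerCentralSeries_succ]
  obtain ⟨k, hk⟩ := (Subgroup.isNilpotent_iff_lowerCentralSeries N).1 hn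
  exact ⟨k, by rw [hl, hk]⟩

theorem gd_nonneg (N : Subgroup P) (k : ℕ) (g x : P) : 0 ≤ Gd N k g x := by
  unfold Gd
  positivity

theorem gd_le_one [Finite P] (N : Subgroup P) (k : ℕ) (g x : P) : Gd N k g x ≤ 1 := by
  unfold Gd
  apply div_le_one_of_le₀ _ (Nat.cast_nonneg _)
  exact_mod_cast Nat.card_le_card_of_injective _ Subtype.val_injective

theorem gd_inv [Finite P] (N : Subgroup P) (k : ℕ) (g x u : P) (hu : u ∈ Nk N k) :
    Gd N k g (x * u) = Gd N k g x := by
  unfold Gd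
  congr 2
  refine Nat.card_congr ⟨fun w => ⟨⟨u, hu⟩ * w.1, ?_⟩, fun w => ⟨⟨u, hu⟩⁻¹ * w.1, ?_⟩, ?_, ?_⟩
  · have h := w.2
    simpa [mul_assoc] using h
  · have h := w.2
    simpa [mul_assoc] using h
  · intro w
    ext
    simp
  · intro w
    ext
    simp

private theorem gd_sum [Fintype P] (N : Subgroup P) (k : ℕ) (g x : P) :
    Gd N k g x = (∑ u : Nk N k, if g * (x * (u : P)) = x * (u : P) * g then (1 : ℝ) else 0) /
      Nat.card (Nk N k) := by
  unfold Gd
  congr 1
  rw [Finset.sum_boole, Nat.card_eq_fintype_card, Fintype.card_subtype]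

theorem gd_avg [Fintype P] (N : Subgroup P) [N.Normal] (k : ℕ) (g x : P) :
    Gd N k g x = (∑ u : Nk N k, Gd N (k + 1) g (x * u)) / Nat.card (Nk N k) := by
  have hle := nk_le N k
  have hk0 : (Nat.card (Nk N (k + 1)) : ℝ) ≠ 0 := by
    have h : 0 < Nat.card (Nk N (k + 1)) := Nat.card_pos
    exact_mod_cast h.ne'
  rw [gd_sum]
  congr 1
  have h1 : ∀ u : Nk N k, Gd N (k + 1) g (x * u) =
      ∑ w : Nk N (k + 1), (if g * (x * (u * w : P)) = x * (u * w : P) * g then (1 : ℝ) else 0) /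
        Nat.card (Nk N (k + 1)) := by
    intro u
    rw [gd_sum, Finset.sum_div]
    refine Finset.sum_congr rfl fun w _ => ?_
    rw [mul_assoc x]
  rw [Finset.sum_congr rfl fun u _ => h1 u, Finset.sum_comm]
  have h2 : ∀ w : Nk N (k + 1),
      ∑ u : Nk N k, (if g * (x * (u * w : P)) = x * (u * w : P) * g then (1 : ℝ) else 0) /
        Nat.card (Nk N (k + 1)) =
      (∑ u : Nk N k, if g * (x * (u : P)) = x * (u : P) * g then (1 : ℝ) else 0) /
        Nat.card (Nk N (k + 1)) := by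
    intro w
    rw [Finset.sum_div]
    refine Fintype.sum_equiv (Equiv.mulRight (⟨w, hle w.2⟩ : Nk N k)) _ _ fun u => ?_
    congr 1
  rw [Finset.sum_congr rfl fun w _ => h2 w, Finset.sum_const, Finset.card_univ, nsmul_eq_mul,
    ← Nat.card_eq_fintype_card]
  field_simp

theorem gd_conj [Finite P] (N : Subgroup P) [N.Normal] (k : ℕ) (z g x : P) :
    Gd N k (z * g * z⁻¹) (z * x * z⁻¹) = Gd N k g x := by
  unfold Gd
  congr 2
  have hn : (Nk N k).Normal := inferInstance
  refine Nat.card_congr ⟨fun w => ⟨⟨z⁻¹ * w.1 * z, by simpa using hn.conj_mem _ w.1.2 z⁻¹⟩, ?_⟩,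
    fun w => ⟨⟨z * w.1 * z⁻¹, hn.conj_mem _ w.1.2 z⟩, ?_⟩, ?_, ?_⟩
  · have h := w.2
    have h1 : z⁻¹ * (z * g * z⁻¹ * (z * x * z⁻¹ * (w.1 : P))) * z =
        z⁻¹ * (z * x * z⁻¹ * (w.1 : P) * (z * g * z⁻¹)) * z := by rw [h]
    simpa [mul_assoc] using h1
  · have h := w.2
    have h1 : z * (g * (x * (w.1 : P))) * z⁻¹ = z * (x * (w.1 : P) * g) * z⁻¹ := by rw [h]
    simpa [mul_assoc] using h1
  · intro w
    ext
    simp [mul_assoc]
  · intro w
    ext
    simp [mul_assoc]

theorem gd_bot [Finite P] (N : Subgroup P) (k : ℕ) (h : Nk N k = ⊥) (g x : P) :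
    Gd N k g x = if g * x = x * g then 1 else 0 := by
  unfold Gd
  have h1 : Nat.card (Nk N k) = 1 := by
    rw [h]
    exact Subgroup.card_bot
  have hu : ∀ u : Nk N k, (u : P) = 1 := by
    intro u
    have h2 : (u : P) ∈ Nk N k := u.2
    have h3 : (u : P) ∈ (⊥ : Subgroup P) := h.le h2
    exact Subgroup.mem_bot.1 h3
  rw [h1, Nat.cast_one, div_one]
  by_cases hc : g * x = x * g
  · rw [if_pos hc]
    have h3 : Nat.card {u : Nk N k // g * (x * u) = x * u * g} = 1 := by
      rw [Nat.card_eq_one_iff_unique]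
      refine ⟨⟨fun a b => ?_⟩, ⟨⟨1, ?_⟩⟩⟩
      · ext
        rw [hu a.1, hu b.1]
      · simpa using hc
    rw [h3, Nat.cast_one]
  · rw [if_neg hc]
    have h3 : IsEmpty {u : Nk N k // g * (x * u) = x * u * g} := by
      refine ⟨fun a => hc ?_⟩
      have h4 := a.2
      rw [hu a.1, mul_one] at h4
      exact h4
    rw [Nat.card_of_isEmpty, Nat.cast_zero]

theorem gd_fix [Finite P] (N : Subgroup P) [N.Normal] (k : ℕ) (g x : P) (hg : g ∈ N)
    (h : Gd N k g x ≠ 0) : x * g * x⁻¹ * g⁻¹ ∈ Nk N 1 := by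
  have h1 : Nonempty {u : Nk N k // g * (x * u) = x * u * g} := by
    by_contra hne
    rw [not_nonempty_iff] at hne
    apply h
    unfold Gd
    rw [Nat.card_of_isEmpty, Nat.cast_zero, zero_div]
  obtain ⟨u, hu⟩ := h1
  have huN : (u : P) ∈ N := nk_anti N (Nat.zero_le k) u.2
  have hc : ⁅g, (u : P)⁆ ∈ ⁅N, N⁆ := Subgroup.commutator_mem_commutator hg huN
  have hn : (⁅N, N⁆ : Subgroup P).Normal := Subgroup.commutator_normal _ _
  have h2 := hn.conj_mem _ hc x
  change x * g * x⁻¹ * g⁻¹ ∈ ⁅N, N⁆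
  have h3 : g⁻¹ = x * u * g⁻¹ * (u : P)⁻¹ * x⁻¹ := by
    have h4 : g * (x * u) * ((u : P)⁻¹ * x⁻¹) = g := by group
    rw [hu] at h4
    calc g⁻¹ = (x * u * g * ((u : P)⁻¹ * x⁻¹))⁻¹ := by rw [h4]
      _ = x * u * g⁻¹ * (u : P)⁻¹ * x⁻¹ := by group
  have h8 : x * g * x⁻¹ * g⁻¹ = x * ⁅g, (u : P)⁆ * x⁻¹ := by
    rw [commutatorElement_def]
    calc x * g * x⁻¹ * g⁻¹ = x * g * x⁻¹ * (x * u * g⁻¹ * (u : P)⁻¹ * x⁻¹) := by rw [← h3]
      _ = x * (g * u * g⁻¹ * (u : P)⁻¹) * x⁻¹ := by group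
  rw [h8]
  exact h2

/-- the mean of the sum over a class is one -/
theorem gd_mean {p Nc : ℕ} [Fintype P] {c : CL p Nc P} (N : Subgroup P) [N.Normal]
    (i : Fin Nc) :
    ∑ x : P, ∑ g ∈ Finset.univ.filter (fun g : Px c => cid g = i), Gd N 0 g.1 x =
      (Nat.card P : ℝ) := by
  have hN0 : (Nat.card (Nk N 0) : ℝ) ≠ 0 := by
    have h : 0 < Nat.card (Nk N 0) := Nat.card_pos
    exact_mod_cast h.ne'
  -- the sum over `x` of `Gd N 0 g x`
  have h1 : ∀ g : P, ∑ x : P, Gd N 0 g x = ∑ x : P, if g * x = x * g then (1 : ℝ) else 0 := by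
    intro g
    have h2 : ∀ x : P, Gd N 0 g x = ∑ u : Nk N 0,
        (if g * (x * (u : P)) = x * (u : P) * g then (1 : ℝ) else 0) / Nat.card (Nk N 0) := by
      intro x
      rw [gd_sum, Finset.sum_div]
    rw [Finset.sum_congr rfl fun x _ => h2 x, Finset.sum_comm]
    have h3 : ∀ u : Nk N 0, ∑ x : P,
        (if g * (x * (u : P)) = x * (u : P) * g then (1 : ℝ) else 0) / Nat.card (Nk N 0) =
        (∑ x : P, if g * x = x * g then (1 : ℝ) else 0) / Nat.card (Nk N 0) := by
      intro u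
      rw [Finset.sum_div]
      refine Fintype.sum_equiv (Equiv.mulRight (u : P)) _ _ fun x => ?_
      congr 1
    rw [Finset.sum_congr rfl fun u _ => h3 u, Finset.sum_const, Finset.card_univ, nsmul_eq_mul,
      ← Nat.card_eq_fintype_card]
    field_simp
  rw [Finset.sum_comm, Finset.sum_congr rfl fun g _ => h1 g.1]
  -- the fibres of `z ↦ z g₀ z⁻¹`
  have h4 : ∀ g ∈ Finset.univ.filter (fun g : Px c => cid g = i),
      (∑ x : P, if g.1 * x = x * g.1 then (1 : ℝ) else 0) =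
        ((Finset.univ.filter fun z : P => z * c.g i * z⁻¹ = g.1).card : ℝ) := by
    intro g hg
    rw [Finset.mem_filter] at hg
    have h5 := (cid_iff g i).1 hg.2
    obtain ⟨z₀, hz₀⟩ := isConj_iff.1 h5.symm
    rw [Finset.sum_boole]
    congr 1
    refine Finset.card_bij' (fun x _ => x * z₀) (fun z _ => z * z₀⁻¹) ?_ ?_ ?_ ?_
    · intro x hx
      rw [Finset.mem_filter] at hx ⊢
      refine ⟨Finset.mem_univ _, ?_⟩
      have h6 : x * z₀ * c.g i * (x * z₀)⁻¹ = x * (z₀ * c.g i * z₀⁻¹) * x⁻¹ := by group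
      rw [h6, hz₀, ← hx.2]
      group
    · intro z hz
      rw [Finset.mem_filter] at hz ⊢
      refine ⟨Finset.mem_univ _, ?_⟩
      have h6 : c.g i = z₀⁻¹ * g.1 * z₀ := by
        rw [← hz₀]
        group
      have h7 : z * c.g i = g.1 * z := by
        rw [← hz.2]
        group
      calc g.1 * (z * z₀⁻¹) = z * c.g i * z₀⁻¹ := by rw [← mul_assoc, ← h7]
        _ = z * z₀⁻¹ * g.1 := by
          rw [h6]
          group
    · intro x _
      group
    · intro z _
      group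
  rw [Finset.sum_congr rfl h4, ← Nat.cast_sum]
  congr 1
  rw [Nat.card_eq_fintype_card, ← Finset.card_univ]
  let F : P → Px c := fun z => ⟨z * c.g i * z⁻¹, i, (isConj_iff.2 ⟨z, rfl⟩ : IsConj (c.g i) _).symm⟩
  have h8 := Finset.card_eq_sum_card_fiberwise (f := F) (s := (Finset.univ : Finset P))
    (t := Finset.univ.filter (fun g : Px c => cid g = i)) (fun z _ => by
      rw [Finset.mem_coe, Finset.mem_filter]
      exact ⟨Finset.mem_univ _, (cid_iff _ i).2 (isConj_iff.2 ⟨z, rfl⟩ : IsConj (c.g i) _).symm⟩)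
  rw [h8]
  refine Finset.sum_congr rfl fun g _ => ?_
  congr 1
  ext z
  simp only [Finset.mem_filter, Finset.mem_univ, true_and]
  constructor
  · intro h
    exact Subtype.ext h
  · intro h
    exact congrArg Subtype.val h

/-- the last term of the series has exponent `p` -/
theorem nk_exp {p : ℕ} (N : Subgroup P) [N.Normal] (n : ℕ) (hn : Nk N (n + 1) = ⊥)
    (hN : N = Subgroup.closure {x | x ∈ N ∧ x ^ p = 1}) : ∀ u ∈ Nk N n, u ^ p = 1 := by
  have hc : ∀ u ∈ Nk N n, ∀ b ∈ N, u * b = b * u := by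
    intro u hu b hb
    have h1 : ⁅u, b⁆ ∈ ⁅Nk N n, N⁆ := Subgroup.commutator_mem_commutator hu hb
    have h2 : (⁅Nk N n, N⁆ : Subgroup P) = ⊥ := hn
    rw [h2, Subgroup.mem_bot, commutatorElement_eq_one_iff_mul_comm] at h1
    exact h1
  have hle : Nk N n ≤ N := nk_anti N (Nat.zero_le n)
  cases n with
  | zero =>
    have hcl : ∀ u ∈ Subgroup.closure {x | x ∈ N ∧ x ^ p = 1}, u ∈ N ∧ u ^ p = 1 := by
      intro u hu
      induction hu using Subgroup.closure_induction with
      | mem x hx => exact hx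
      | one => exact ⟨N.one_mem, one_pow p⟩
      | mul x y _ _ hx hy =>
        refine ⟨N.mul_mem hx.1 hy.1, ?_⟩
        have h3 : Commute x y := hc x hx.1 y hy.1
        rw [h3.mul_pow, hx.2, hy.2, one_mul]
      | inv x _ hx => exact ⟨N.inv_mem hx.1, by rw [inv_pow, hx.2, inv_one]⟩
    intro u hu
    have hu' : u ∈ N := hu
    rw [hN] at hu'
    exact (hcl u hu').2
  | succ m =>
    have hab : ∀ a ∈ Nk N m, ∀ b ∈ N, ⁅a, b⁆ ∈ Nk N (m + 1) := by
      intro a ha b hb
      exact Subgroup.commutator_mem_commutator ha hb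
    have hmul : ∀ a ∈ Nk N m, ∀ b ∈ N, ∀ b' ∈ N, ⁅a, b * b'⁆ = ⁅a, b⁆ * ⁅a, b'⁆ := by
      intro a ha b hb b' hb'
      have h1 := hc _ (hab a ha b' hb') b⁻¹ (N.inv_mem hb)
      calc ⁅a, b * b'⁆ = a * b * a⁻¹ * (⁅a, b'⁆ * b⁻¹) := by
            simp only [commutatorElement_def]
            group
        _ = a * b * a⁻¹ * (b⁻¹ * ⁅a, b'⁆) := by rw [h1]
        _ = ⁅a, b⁆ * ⁅a, b'⁆ := by
            simp only [commutatorElement_def]
            group
    have hcl : ∀ a ∈ Nk N m, ∀ b ∈ Subgroup.closure {x | x ∈ N ∧ x ^ p = 1}, b ∈ N ∧ ⁅a, b⁆ ^ p = 1 := by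
      intro a ha b hb
      induction hb using Subgroup.closure_induction with
      | mem x hx =>
        refine ⟨hx.1, ?_⟩
        have h2 : ∀ j : ℕ, ⁅a, x⁆ ^ j = ⁅a, x ^ j⁆ := by
          intro j
          induction j with
          | zero => simp
          | succ j ih =>
            rw [pow_succ, pow_succ, ih, hmul a ha _ (N.pow_mem hx.1 j) x hx.1]
        rw [h2, hx.2, commutatorElement_one_right]
      | one =>
        refine ⟨N.one_mem, ?_⟩
        rw [commutatorElement_one_right, one_pow]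
      | mul x y _ _ hx hy =>
        refine ⟨N.mul_mem hx.1 hy.1, ?_⟩
        rw [hmul a ha x hx.1 y hy.1]
        have h3 : Commute ⁅a, x⁆ ⁅a, y⁆ := hc _ (hab a ha x hx.1) _ (hle (hab a ha y hy.1))
        rw [h3.mul_pow, hx.2, hy.2, one_mul]
      | inv x _ hx =>
        refine ⟨N.inv_mem hx.1, ?_⟩
        have h4 := hmul a ha x hx.1 x⁻¹ (N.inv_mem hx.1)
        rw [mul_inv_cancel, commutatorElement_one_right] at h4
        have h5 : ⁅a, x⁻¹⁆ = ⁅a, x⁆⁻¹ := (inv_eq_of_mul_eq_one_right h4.symm).symm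
        rw [h5, inv_pow, hx.2, inv_one]
    intro u hu
    have hu' : u ∈ (⁅Nk N m, N⁆ : Subgroup P) := hu
    rw [Subgroup.commutator_def] at hu'
    clear hu
    have hfin : u ∈ Nk N (m + 1) ∧ u ^ p = 1 := by
      induction hu' using Subgroup.closure_induction with
      | mem x hx =>
        obtain ⟨a, ha, b, hb, rfl⟩ := hx
        refine ⟨hab a ha b hb, ?_⟩
        rw [hN] at hb
        exact (hcl a ha b hb).2
      | one => exact ⟨Subgroup.one_mem _, one_pow p⟩
      | mul x y _ _ hx hy =>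
        refine ⟨Subgroup.mul_mem _ hx.1 hy.1, ?_⟩
        have h3 : Commute x y := hc x hx.1 y (hle hy.1)
        rw [h3.mul_pow, hx.2, hy.2, one_mul]
      | inv x _ hx => exact ⟨Subgroup.inv_mem _ hx.1, by rw [inv_pow, hx.2, inv_one]⟩
    exact hfin.2

theorem nr_cl {p Nc : ℕ} (c : CL p Nc P) (R : Finset (Fin Nc)) :
    NR c R = Subgroup.closure {x | x ∈ NR c R ∧ x ^ p = 1} := by
  apply le_antisymm
  · have h : ∀ x ∈ {x | ∃ i ∈ R, IsConj x (c.g i)}, x ∈ NR c R :=
      fun x hx => Subgroup.subset_normalClosure hx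
    unfold NR at h ⊢
    rw [Subgroup.normalClosure]
    apply Subgroup.closure_mono
    intro x hx
    rw [Group.mem_conjugatesOfSet_iff] at hx
    obtain ⟨y, ⟨i, hi, hy⟩, hyx⟩ := hx
    have hxi : IsConj x (c.g i) := hyx.symm.trans hy
    refine ⟨h x ⟨i, hi, hxi⟩, ?_⟩
    obtain ⟨z, hz⟩ := isConj_iff.1 hxi.symm
    rw [← hz, conj_pow, c.pow, mul_one, mul_inv_cancel]
  · rw [Subgroup.closure_le]
    intro x hx
    exact hx.1

end H35.UB
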