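import Pool.Agent.H35.UB.Bad
import Pool.Agent.H35.UB.Gpu
import Pool.Agent.H93.UB.Lzh

/-!
# [H35 UB LZ] level zero

`lz`: at level zero the weights `Gd N 0 g x` can be replaced by `1 / #(class of g)`, up to `Y (log Y)^(-A₂)`; after this the sum is a number of
configurations. Proof. `SA ≤` the same sum with the sharp cutoff `nc ≤ 2 Y` instead of `psi` (`sa_le`). `clz` (`H93/UB/Clz`): a label of a rich class (at a large
prime) is replaced by its class: the local sum is `h_i (φ₀ F_v)`, `h_i(f) = ∑_(g of class i) Gd N 0 g f` (a class function on `P ⧸ N`, mean `1` by `gd_mean`, `≤ card P`;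
`ev .. (wdE .. (Fr.F v)) mod N = φ₀ (Fr.F v)` by `wdE_spec`). `∏_(v ∈ r) h_v = ∑_(s ⊆ r) ∏_(v ∈ s) (h_v - 1)`; for `s ≠ ∅` insertion of `w ∈ s` (labels with the
additional mark `s`): the error is at most `∑_(f', α) (card P + 1)^(#sp f') |∑_(T < nm w ≤ 2 Y / nc f') (h_i (φ₀ F_w) - 1)|`, at most `Y (log Y)^(-A₂)` by `GPU`
(`lg` in `H93/UB/Lg`).
-/

set_option autoImplicit false

open scoped NumberField
open IsDedekindDomain
open scoped Classical

noncomputable section

namespace H35.UB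

open H63.MA H38.BB H38.BG H57.PC H57.BRA H77.WD H77.WE H77.PC3 H35.CF H93.UB

variable {K : Type} [Field K] [NumberField K] {Ω : Type} [Field Ω] [Algebra K Ω]
  [IsAlgClosure K Ω] {p : ℕ} [NeZero p] {ζ : K} {P : Type} [Group P] [Fintype P] {Nc : ℕ}

/-- the number of elements of the class `i` -/
def kn (c : CL p Nc P) (i : Fin Nc) : ℕ :=
  (Finset.univ.filter fun g : Px c => cid g = i).card

section aux

omit [NeZero p]

/-- the value of a label or of a class -/
private def val1 (c : CL p Nc P) : Px c ⊕ Fin Nc → P := Sum.elim (fun x => x.1) fun _ => 1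

/-- the class -/
private def cls1 (c : CL p Nc P) : Px c ⊕ Fin Nc → Fin Nc := Sum.elim cid id

/-- large primes -/
private def Wl (T : ℝ) (v : Pl K) : Prop := T < (nm v : ℝ)

variable {D : RD0 K p ζ}

/-- the weight of the configurations of classes -/
private def Ps (c : CL p Nc P) (R : Finset (Fin Nc)) (M : ℕ) (T : ℝ) (Zw E : Finset (Pl K))
    (L : LDs D Ω) (A : GS D Ω) (e : Pl K → P) (Y : ℝ) (α : Fin A.g → P)
    (f : Pl K → Option (Px c ⊕ Fin Nc)) : ℝ :=
  if Pat (cls1 c) R (Zg D Zw E) T M f ∧ HB L A (NR c R) E Zw (tb A (NR c R) E e (val1 c) f α) ∧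
    nc (Zg D Zw E) f ≤ 2 * Y then 1 else 0

/-- the Frobenius elements of the honest reduction -/
private def Fb (c : CL p Nc P) (R : Finset (Fin Nc)) (Zw E : Finset (Pl K)) {L : LDs D Ω}
    (A : GS D Ω) (Fr : FR L) (e : Pl K → P) (α : Fin A.g → P)
    (f : Pl K → Option (Px c ⊕ Fin Nc)) (v : Pl K) : P ⧸ NR c R :=
  phi L A (NR c R) E Zw (tb A (NR c R) E e (val1 c) f α) (Fr.F v)

omit [Fintype P] in
private theorem mem_nr {c : CL p Nc P} {R : Finset (Fin Nc)} {x : Px c} (hx : cid x ∈ R) :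
    x.1 ∈ NR c R := Subgroup.subset_normalClosure ⟨cid x, hx, cid_spec x⟩

omit [Fintype P] [IsAlgClosure K Ω] in
private theorem tb_mpv (c : CL p Nc P) (R : Finset (Fin Nc)) (T : ℝ) (E : Finset (Pl K))
    (A : GS D Ω) (e : Pl K → P) (α : Fin A.g → P) (f : Pl K → Option (Px c)) :
    tb A (NR c R) E e (val1 c) (mpv (p1 (Wl T) cid R) f) α =
      tb A (NR c R) E e (fun x : Px c => x.1) f α := by
  refine tb_congr A (NR c R) E e _ _ _ _ α fun v _ => ?_
  unfold mpv
  cases f v with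
  | none => rfl
  | some x =>
    show ((val1 c (p1 (Wl T) cid R v x) : P) : P ⧸ NR c R) = ((x.1 : P) : P ⧸ NR c R)
    unfold p1
    split_ifs with h
    · show ((1 : P) : P ⧸ NR c R) = ((x.1 : P) : P ⧸ NR c R)
      rw [(QuotientGroup.eq_one_iff (x.1 : P)).2 (mem_nr h.1)]
      rfl
    · rfl

omit [Fintype P] [IsAlgClosure K Ω] in
private theorem pat_mpv (c : CL p Nc P) (R : Finset (Fin Nc)) (M : ℕ) (T : ℝ)
    (Z : Finset (Pl K)) (f : Pl K → Option (Px c)) :
    Pat (cls1 c) R Z T M (mpv (p1 (Wl T) cid R) f) ↔ Pat (cid (c := c)) R Z T M f := by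
  have h1 : ∀ v, (mpv (p1 (Wl T) cid R) f v).map (cls1 c) = (f v).map cid := by
    intro v
    unfold mpv
    rw [Option.map_map]
    congr 1
    funext x
    show cls1 c (p1 (Wl T) cid R v x) = cid x
    unfold p1
    split_ifs
    · rfl
    · rfl
  unfold Pat cn
  simp only [h1]

omit [Fintype P] [IsAlgClosure K Ω] in
private theorem nc_mpv {Λ Λ' : Type} (π : Pl K → Λ → Λ') (Z : Finset (Pl K))
    (f : Pl K → Option Λ) : nc Z (mpv π f) = nc Z f := by
  unfold nc
  congr 1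
  ext v
  rw [mem_sp, mem_sp]
  unfold mpv
  rw [Ne, Option.map_eq_none_iff]

private theorem psi_le (t : ℝ) : psi t ≤ if t ≤ 2 then 1 else 0 := by
  unfold psi
  split_ifs with h
  · exact min_le_left _ _
  · rw [max_eq_left (by linarith)]
    exact min_le_right _ _

/-- step 1: sharp cutoff, the weights in terms of the honest reduction -/
private theorem sa_le (hp : p.Prime) (hζ : IsPrimitiveRoot ζ p) (hP : IsPGroup p P)
    (c : CL p Nc P) (R : Finset (Fin Nc)) (M Mw : ℕ) (hMw : Nat.card P ≤ Mw) (T : ℝ)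
    (Zw E : Finset (Pl K)) (L : LDs D Ω) (A : GS D Ω) (Fr : FR L) (e : Pl K → P) (Y : ℝ)
    (hY : 0 < Y) :
    SA (LSx c) L A Fr (NR c R) R M Mw T Zw E e (fun x => Gd (NR c R) 0 x.1) Y ≤
      ∑ α : Fin A.g → P, ∑ f ∈ Cf (Zg D Zw E) (Px c),
        Ps c R M T Zw E L A e Y α (mpv (p1 (Wl T) cid R) f) *
          om (Zg D Zw E) (fun v x => if cid x ∈ R ∧ Wl T v then
            hq (NR c R) x.1 (Fb c R Zw E A Fr e α (mpv (p1 (Wl T) cid R) f) v) else 1) f := by
  unfold SA
  rw [Finset.sum_comm]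
  refine Finset.sum_le_sum fun α _ => Finset.sum_le_sum fun f hf => ?_
  have hom : 0 ≤ om (Zg D Zw E) (fun v x => if cid x ∈ R ∧ Wl T v then
      hq (NR c R) x.1 (Fb c R Zw E A Fr e α (mpv (p1 (Wl T) cid R) f) v) else 1) f := by
    refine om_nonneg _ _ (fun v x => ?_) f
    split_ifs
    · exact gd_nonneg _ _ _ _
    · exact zero_le_one
  have hPs : 0 ≤ Ps c R M T Zw E L A e Y α (mpv (p1 (Wl T) cid R) f) := by
    unfold Ps
    split_ifs
    · exact zero_le_one
    · exact le_rfl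
  split_ifs with h
  · obtain ⟨h1, h2⟩ := h
    have hB : HB L A (NR c R) E Zw (tb A (NR c R) E e (fun x : Px c => x.1) f α) :=
      (hs_iff e (fun x : Px c => x.1) hf α).1 h2
    obtain ⟨θ, hθ⟩ : ∃ θ, θ = tb A (NR c R) E e (fun x : Px c => x.1) f α := ⟨_, rfl⟩
    have h3 := phi_spec hB
    rw [← hθ] at h3
    have hF : ∀ v, Fb c R Zw E A Fr e α (mpv (p1 (Wl T) cid R) f) v =
        phi L A (NR c R) E Zw θ (Fr.F v) := by
      intro v
      unfold Fb
      rw [tb_mpv, ← hθ]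
    have h4 : om (Zg D Zw E) (fun v x => if RL (LSx c).cls R T v x then
        Gd (NR c R) 0 x.1 (ev A (lab E e (LSx c).val f) α (wdE L A Mw E Zw (Fr.F v)))
        else (LSx c).mu x) f =
        om (Zg D Zw E) (fun v x => if cid x ∈ R ∧ Wl T v then
          hq (NR c R) x.1 (Fb c R Zw E A Fr e α (mpv (p1 (Wl T) cid R) f) v) else 1) f := by
      unfold om
      refine Finset.prod_congr rfl fun v _ => ?_
      cases f v with
      | none => rfl
      | some x =>
        show (if RL (LSx c).cls R T v x then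
          Gd (NR c R) 0 x.1 (ev A (lab E e (LSx c).val f) α (wdE L A Mw E Zw (Fr.F v)))
          else (LSx c).mu x) = if cid x ∈ R ∧ Wl T v then
          hq (NR c R) x.1 (Fb c R Zw E A Fr e α (mpv (p1 (Wl T) cid R) f) v) else 1
        have h5 : RL (LSx c).cls R T v x ↔ (cid x ∈ R ∧ Wl T v) := Iff.rfl
        by_cases h6 : cid x ∈ R ∧ Wl T v
        · rw [if_pos (h5.2 h6), if_pos h6, hF, ← hq_mk]
          congr 1
          have hPN : IsPGroup p (P ⧸ NR c R) := hP.to_quotient _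
          have h7 := wdE_spec hp hζ L A Mw E Zw (Fr.F v) (P ⧸ NR c R) hPN
            (le_trans (Nat.card_le_card_of_surjective _ (QuotientGroup.mk'_surjective (NR c R)))
              hMw) (phi L A (NR c R) E Zw θ) h3.1
          rw [← h7, h3.2.2, hθ]
          rfl
        · rw [if_neg (fun h => h6 (h5.1 h)), if_neg h6]
          rfl
    rw [h4]
    refine mul_le_mul_of_nonneg_right ?_ hom
    refine (psi_le _).trans ?_
    unfold Ps
    by_cases h5 : nc (Zg D Zw E) f ≤ 2 * Y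
    · rw [if_pos ((div_le_iff₀ hY).2 h5), if_pos]
      refine ⟨(pat_mpv c R M T _ f).2 h1, ?_, ?_⟩
      · rw [tb_mpv]
        exact hB
      · rw [nc_mpv]
        exact h5
    · rw [if_neg (fun h => h5 ((div_le_iff₀ hY).1 h))]
      split_ifs
      · exact zero_le_one
      · exact le_rfl
  · exact mul_nonneg hPs hom

omit [Fintype P] [IsAlgClosure K Ω] in
private theorem lz_sp_mp {Λ Λ' : Type} (π : Λ → Λ') (Z : Finset (Pl K)) (f : Pl K → Option Λ) :
    sp Z (mp π f) = sp Z f := by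
  ext v
  rw [mem_sp, mem_sp]
  unfold mp
  rw [Ne, Option.map_eq_none_iff]

omit [Fintype P] [IsAlgClosure K Ω] in
private theorem sp_upd {Λ : Type} (Z : Finset (Pl K)) (f : Pl K → Option Λ) (w : Pl K) (x : Λ)
    (hw : w ∈ Z) : sp Z (Function.update f w (some x)) = insert w (sp Z f) := by
  ext v
  rw [Finset.mem_insert, mem_sp, mem_sp]
  by_cases hv : v = w
  · subst hv
    rw [Function.update_self]
    simp [hw]
  · rw [Function.update_of_ne hv]
    simp [hv]

omit [Fintype P] [IsAlgClosure K Ω] in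
private theorem nc_upd {Λ : Type} (Z : Finset (Pl K)) (f : Pl K → Option Λ) (w : Pl K) (x : Λ)
    (hw : w ∈ Z) (hf : f w = none) :
    nc Z (Function.update f w (some x)) = nc Z f * (nm w : ℝ) := by
  unfold nc
  rw [sp_upd Z f w x hw]
  unfold nr
  rw [Finset.prod_insert, mul_comm]
  rw [mem_sp]
  exact fun h => h.2 hf

omit [Fintype P] [IsAlgClosure K Ω] in
/-- the numbers after an insertion -/
private theorem cn_upd (c : CL p Nc P) (Z : Finset (Pl K)) (T : ℝ)
    (f : Pl K → Option (Px c ⊕ (Fin Nc × Bool))) (w : Pl K) (hw : w ∈ Z) (hT : Wl T w)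
    (hf : f w = none) (i j : Fin Nc) :
    cn (cls1 c) Z T (mp p2 (Function.update f w (some (Sum.inr (i, true))))) j =
      cn (cls1 c) Z T (mp p2 f) j + if i = j then 1 else 0 := by
  unfold cn
  have hw1 : w ∉ Z.filter (fun v => T < (nm v : ℝ) ∧ (mp p2 f v).map (cls1 c) = some j) := by
    rw [Finset.mem_filter]
    rintro ⟨-, -, h⟩
    unfold mp at h
    rw [hf] at h
    simp at h
  by_cases hij : i = j
  · subst hij
    rw [if_pos rfl, ← Finset.card_insert_of_notMem hw1]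
    congr 1
    ext v
    rw [Finset.mem_insert, Finset.mem_filter, Finset.mem_filter]
    by_cases hv : v = w
    · subst hv
      unfold mp
      rw [Function.update_self]
      refine ⟨fun _ => Or.inl rfl, fun _ => ⟨hw, hT, rfl⟩⟩
    · unfold mp
      rw [Function.update_of_ne hv]
      simp [hv]
  · rw [if_neg hij, add_zero]
    congr 1
    ext v
    rw [Finset.mem_filter, Finset.mem_filter]
    by_cases hv : v = w
    · subst hv
      unfold mp
      rw [Function.update_self, hf]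
      constructor
      · rintro ⟨-, -, h⟩
        exact absurd (Option.some.inj h) hij
      · rintro ⟨-, -, h⟩
        simp at h
    · unfold mp
      rw [Function.update_of_ne hv]

omit [Fintype P] [IsAlgClosure K Ω] in
private theorem tb_upd (c : CL p Nc P) (R : Finset (Fin Nc)) (E : Finset (Pl K))
    (A : GS D Ω) (e : Pl K → P) (α : Fin A.g → P) (f : Pl K → Option (Px c ⊕ (Fin Nc × Bool)))
    (w : Pl K) (hf : f w = none) (i : Fin Nc) :
    tb A (NR c R) E e (val1 c) (mp p2 (Function.update f w (some (Sum.inr (i, true))))) α =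
      tb A (NR c R) E e (val1 c) (mp p2 f) α := by
  refine tb_congr A (NR c R) E e _ _ _ _ α fun v _ => ?_
  by_cases hv : v = w
  · subst hv
    unfold mp
    rw [Function.update_self, hf]
    rfl
  · unfold mp
    rw [Function.update_of_ne hv]

omit [IsAlgClosure K Ω] in
/-- the inner sums of the error -/
private theorem inner (c : CL p Nc P) (R : Finset (Fin Nc)) (M : ℕ) (T : ℝ)
    (Zw E : Finset (Pl K)) (L : LDs D Ω) (A : GS D Ω) (Fr : FR L) (e : Pl K → P) (Y : ℝ)
    (hY : 2 ≤ Y) (hZ : ZwOk D 2 Y Zw) (α : Fin A.g → P)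
    (f : Pl K → Option (Px c ⊕ (Fin Nc × Bool)))
    (i : Fin Nc) :
    |∑ w ∈ (Zg D Zw E).filter (fun v => Wl T v ∧ f v = none),
      Ps c R M T Zw E L A e Y α (mp p2 (Function.update f w (some (Sum.inr (i, true))))) *
        (hcl c (NR c R) i (Fb c R Zw E A Fr e α (mp p2 f) w) - 1)| ≤
    if HB L A (NR c R) E Zw (tb A (NR c R) E e (val1 c) (mp p2 f) α) ∧
        nr (sp (Zg D Zw E) f) * T ≤ 2 * Y then
      |ing D T (2 * Y / nr (sp (Zg D Zw E) f)) (sp (Zg D Zw E) f ∪ E)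
        (cvg Fr (phi L A (NR c R) E Zw (tb A (NR c R) E e (val1 c) (mp p2 f) α))
          (hcl c (NR c R) i))| else 0 := by
  obtain ⟨Z, hZd⟩ : ∃ Z, Z = Zg D Zw E := ⟨_, rfl⟩
  obtain ⟨θ, hθ⟩ : ∃ θ, θ = tb A (NR c R) E e (val1 c) (mp p2 f) α := ⟨_, rfl⟩
  have hnr : 0 < nr (sp Z f) := lt_of_lt_of_le one_pos (one_le_nr _)
  have hPs : ∀ w ∈ Z.filter (fun v => Wl T v ∧ f v = none),
      Ps c R M T Zw E L A e Y α (mp p2 (Function.update f w (some (Sum.inr (i, true))))) =
      if (∀ j, j ∈ R ↔ M ≤ cn (cls1 c) Z T (mp p2 f) j + if i = j then 1 else 0) ∧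
        HB L A (NR c R) E Zw θ ∧ nr (sp Z f) * (nm w : ℝ) ≤ 2 * Y then 1 else 0 := by
    intro w hw
    obtain ⟨hwZ, hwT, hfw⟩ := Finset.mem_filter.1 hw
    unfold Ps
    rw [← hZd, tb_upd c R E A e α f w hfw i, ← hθ]
    have h1 : Pat (cls1 c) R Z T M (mp p2 (Function.update f w (some (Sum.inr (i, true))))) ↔
        (∀ j, j ∈ R ↔ M ≤ cn (cls1 c) Z T (mp p2 f) j + if i = j then 1 else 0) := by
      unfold Pat
      simp only [cn_upd c Z T f w hwZ hwT hfw]
    have h2 : nc Z (mp p2 (Function.update f w (some (Sum.inr (i, true))))) =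
        nr (sp Z f) * (nm w : ℝ) := by
      have h3 := nc_upd Z f w (Sum.inr (i, true)) hwZ hfw
      unfold nc at h3 ⊢
      rw [lz_sp_mp, h3]
    rw [h1, h2]
    split_ifs <;> rfl
  rw [← hZd, ← hθ]
  have hsum : ∑ w ∈ Z.filter (fun v => Wl T v ∧ f v = none),
      Ps c R M T Zw E L A e Y α (mp p2 (Function.update f w (some (Sum.inr (i, true))))) *
        (hcl c (NR c R) i (Fb c R Zw E A Fr e α (mp p2 f) w) - 1) =
      if (∀ j, j ∈ R ↔ M ≤ cn (cls1 c) Z T (mp p2 f) j + if i = j then 1 else 0) ∧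
        HB L A (NR c R) E Zw θ then
        ∑ w ∈ (Z.filter (fun v => Wl T v ∧ f v = none)).filter
          (fun w => nr (sp Z f) * (nm w : ℝ) ≤ 2 * Y),
          (hcl c (NR c R) i (Fb c R Zw E A Fr e α (mp p2 f) w) - 1) else 0 := by
    rw [Finset.sum_congr rfl fun w hw => by rw [hPs w hw]]
    split_ifs with h
    · rw [Finset.sum_filter (fun w => nr (sp Z f) * (nm w : ℝ) ≤ 2 * Y)]
      refine Finset.sum_congr rfl fun w _ => ?_
      by_cases h3 : nr (sp Z f) * (nm w : ℝ) ≤ 2 * Y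
      · rw [if_pos ⟨h.1, h.2, h3⟩, if_pos h3, one_mul]
      · rw [if_neg (fun h' => h3 h'.2.2), if_neg h3, zero_mul]
    · refine Finset.sum_eq_zero fun w _ => ?_
      rw [if_neg (fun h' => h ⟨h'.1, h'.2.1⟩), zero_mul]
  rw [hsum]
  by_cases hcond : (∀ j, j ∈ R ↔ M ≤ cn (cls1 c) Z T (mp p2 f) j + if i = j then 1 else 0) ∧
      HB L A (NR c R) E Zw θ
  · rw [if_pos hcond]
    by_cases hT : nr (sp Z f) * T ≤ 2 * Y
    · rw [if_pos ⟨hcond.2, hT⟩]
      refine le_of_eq (congrArg abs ?_)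
      unfold ing
      refine Finset.sum_congr ?_ fun w _ => ?_
      · ext w
        rw [Finset.mem_filter, Finset.mem_filter, Finset.mem_filter, chr_mem, le_div_iff₀ hnr,
          mul_comm (nm w : ℝ), hZd]
        constructor
        · rintro ⟨⟨h1, h2, h3⟩, h4⟩
          have h1' : w ∈ (Zw \ E).filter D.Gd := h1
          rw [Finset.mem_filter, Finset.mem_sdiff] at h1'
          refine ⟨⟨h4, h1'.2⟩, h2, ?_⟩
          rw [Finset.mem_union, not_or]
          exact ⟨fun h => (mem_sp.1 h).2 h3, h1'.1.2⟩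
        · rintro ⟨⟨h4, hG⟩, h2, h5⟩
          rw [Finset.mem_union, not_or] at h5
          have hnm : (nm w : ℝ) ≤ Y ^ (2 : ℝ) := by
            have h6 : (nm w : ℝ) ≤ nr (sp (Zg D Zw E) f) * (nm w : ℝ) :=
              le_mul_of_one_le_left (Nat.cast_nonneg _) (one_le_nr _)
            have h7 : (2 : ℝ) * Y ≤ Y ^ (2 : ℝ) := by
              rw [show (2 : ℝ) = ((2 : ℕ) : ℝ) by norm_num, Real.rpow_natCast]
              push_cast
              nlinarith
            linarith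
          have h1 : w ∈ Zg D Zw E := by
            show w ∈ (Zw \ E).filter D.Gd
            rw [Finset.mem_filter, Finset.mem_sdiff]
            exact ⟨⟨hZ.2 w hG hnm, h5.2⟩, hG⟩
          refine ⟨⟨h1, h2, ?_⟩, h4⟩
          by_contra h6
          exact h5.1 (mem_sp.2 ⟨h1, h6⟩)
      · unfold cvg Fb
        rw [hcl_mean, ← hθ]
    · rw [if_neg (fun h => hT h.2)]
      have h1 : (Z.filter (fun v => Wl T v ∧ f v = none)).filter
          (fun w => nr (sp Z f) * (nm w : ℝ) ≤ 2 * Y) = ∅ := by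
        rw [Finset.filter_eq_empty_iff]
        intro w hw h2
        have h3 := (Finset.mem_filter.1 hw).2.1
        have h4 : nr (sp Z f) * T ≤ nr (sp Z f) * (nm w : ℝ) :=
          mul_le_mul_of_nonneg_left (le_of_lt h3) hnr.le
        exact hT (h4.trans h2)
      rw [h1, Finset.sum_empty, abs_zero]
  · rw [if_neg hcond, abs_zero]
    split_ifs
    · exact abs_nonneg _
    · exact le_rfl

omit [Fintype P] [IsAlgClosure K Ω] in
/-- the number of configurations with given support -/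
private theorem cf_card {Λ : Type} [Fintype Λ] (Z m : Finset (Pl K)) :
    (((Cf Z Λ).filter fun f => sp Z f = m).card : ℝ) ≤ (Fintype.card Λ : ℝ) ^ m.card := by
  have h1 := cf_prod Z (fun s => if s = m then (1 : ℝ) else 0) (fun (_ : Pl K) (_ : Λ) => (1 : ℝ))
  have h2 : ∑ f ∈ Cf Z Λ, (if sp Z f = m then (1 : ℝ) else 0) * om Z (fun _ _ => (1 : ℝ)) f =
      (((Cf Z Λ).filter fun f => sp Z f = m).card : ℝ) := by
    rw [Finset.card_filter]
    push_cast
    refine Finset.sum_congr rfl fun f _ => ?_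
    rw [om_one, mul_one]
  rw [← h2, h1]
  by_cases hm : m ∈ Z.powerset
  · rw [Finset.sum_eq_single_of_mem m hm fun s _ hs => by rw [if_neg hs, zero_mul]]
    rw [if_pos rfl, one_mul, Finset.prod_const, Finset.sum_const, Finset.card_univ, nsmul_eq_mul,
      mul_one]
  · have h3 : ∀ s ∈ Z.powerset, (if s = m then (1 : ℝ) else 0) * ∏ v ∈ s, ∑ _x : Λ, (1 : ℝ) =
        0 := by
      intro s hs
      have h4 : s ≠ m := by
        rintro rfl
        exact hm hs
      rw [if_neg h4, zero_mul]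
    rw [Finset.sum_eq_zero h3]
    positivity

omit [Fintype P] [IsAlgClosure K Ω] in
/-- bounded weights -/
private theorem om_abs {Λ : Type} (Z : Finset (Pl K)) (a : Pl K → Λ → ℝ) (B : ℝ)
    (ha : ∀ v x, |a v x| ≤ B) (f : Pl K → Option Λ) : |om Z a f| ≤ B ^ (sp Z f).card := by
  rw [om_sp, Finset.abs_prod, ← Finset.prod_const]
  refine Finset.prod_le_prod (fun _ _ => abs_nonneg _) fun v hv => ?_
  rw [mem_sp] at hv
  cases h : f v with
  | none => exact absurd h hv.2
  | some x => exact ha v x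

omit [IsAlgClosure K Ω] in
/-- the error -/
private theorem err (κ : ℕ) (hκ : ∀ x : P, x ^ (p ^ κ) = 1) (hG : GPU D Ω κ) (c : CL p Nc P)
    (R : Finset (Fin Nc)) (A : GS D Ω) (A₁ A₂ : ℕ) (ε : ℝ) (hε : 0 < ε) (hε1 : ε < 1) :
    ∃ Y₀ : ℝ, ∀ Y : ℝ, Y₀ ≤ Y → ∀ (L : LDs D Ω) (Fr : FR L) (M : ℕ)
      (Zw E : Finset (Pl K)) (e : Pl K → P), ZwOk D 2 Y Zw → nr E ≤ Real.log Y ^ A₁ →
      ∑ α : Fin A.g → P, ∑ i ∈ R, ∑ f ∈ Cf (Zg D Zw E) (Px c ⊕ (Fin Nc × Bool)),
        |om (Zg D Zw E) (e2 (Wl (T0 ε Y)) cid R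
          (fun i v => hcl c (NR c R) i (Fb c R Zw E A Fr e α (mp p2 f) v))) f| *
        |∑ w ∈ (Zg D Zw E).filter (fun v => Wl (T0 ε Y) v ∧ f v = none),
          Ps c R M (T0 ε Y) Zw E L A e Y α
            (mp p2 (Function.update f w (some (Sum.inr (i, true))))) *
          (hcl c (NR c R) i (Fb c R Zw E A Fr e α (mp p2 f) w) - 1)| ≤
        Y * Real.log Y ^ (-(A₂ : ℝ)) := by
  obtain ⟨b, hb⟩ : ∃ b : ℕ, b = Fintype.card P := ⟨_, rfl⟩
  obtain ⟨K₀, hK₀⟩ : ∃ K₀ : ℕ, K₀ = Fintype.card (Fin A.g → P) * Nc +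
    Fintype.card (Px c ⊕ (Fin Nc × Bool)) + b + 1 := ⟨_, rfl⟩
  obtain ⟨Y₀, hY₀⟩ := lg D κ hG b K₀ A₁ A₂ (by omega) ε hε hε1.le
  refine ⟨max Y₀ 3, fun Y hY L Fr M Zw E e hZ hE => ?_⟩
  have hY1 : Y₀ ≤ Y := (le_max_left _ _).trans hY
  have hY3 : 3 ≤ Y := (le_max_right _ _).trans hY
  obtain ⟨Z, hZd⟩ : ∃ Z, Z = Zg D Zw E := ⟨_, rfl⟩
  obtain ⟨T, hT⟩ : ∃ T : ℝ, T = T0 ε Y := ⟨_, rfl⟩
  rw [← hT, ← hZd]
  let ι : Type := (Fin A.g → P) × Fin Nc × (Pl K → Option (Px c ⊕ (Fin Nc × Bool)))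
  let th : ι → FW A →* P ⧸ NR c R := fun t => tb A (NR c R) E e (val1 c) (mp p2 t.2.2) t.1
  let W : ι → ℝ := fun t => |om Z (e2 (Wl T) cid R
    (fun i v => hcl c (NR c R) i (Fb c R Zw E A Fr e t.1 (mp p2 t.2.2) v))) t.2.2|
  let I : Finset ι := (Finset.univ ×ˢ (R ×ˢ Cf Z (Px c ⊕ (Fin Nc × Bool)))).filter fun t =>
    HB L A (NR c R) E Zw (th t) ∧ nr (sp Z t.2.2) * T ≤ 2 * Y
  have hmain := hY₀ Y hY1 L Fr E hE ι I (fun t => sp Z t.2.2) W ?_ ?_ ?_
    (fun _ => P ⧸ NR c R) (fun t => phi L A (NR c R) E Zw (th t)) (fun t => hcl c (NR c R) t.2.1) ?_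
  · refine le_trans ?_ hmain
    have h1 : ∑ t ∈ I, W t * |ing D (Real.exp (Real.log Y ^ ε)) (2 * Y / nr (sp Z t.2.2))
        (sp Z t.2.2 ∪ E) (cvg Fr (phi L A (NR c R) E Zw (th t)) (hcl c (NR c R) t.2.1))| =
        ∑ α : Fin A.g → P, ∑ i ∈ R, ∑ f ∈ Cf Z (Px c ⊕ (Fin Nc × Bool)),
          W (α, i, f) * (if HB L A (NR c R) E Zw (th (α, i, f)) ∧
              nr (sp Z f) * T ≤ 2 * Y then
            |ing D T (2 * Y / nr (sp Z f)) (sp Z f ∪ E)
              (cvg Fr (phi L A (NR c R) E Zw (th (α, i, f))) (hcl c (NR c R) i))| else 0) := by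
      show ∑ t ∈ (Finset.univ ×ˢ (R ×ˢ Cf Z (Px c ⊕ (Fin Nc × Bool)))).filter _, _ = _
      rw [Finset.sum_filter, Finset.sum_product]
      refine Finset.sum_congr rfl fun α _ => ?_
      rw [Finset.sum_product]
      refine Finset.sum_congr rfl fun i _ => Finset.sum_congr rfl fun f _ => ?_
      rw [mul_ite, mul_zero, hT]
      rfl
    rw [h1]
    refine Finset.sum_le_sum fun α _ => Finset.sum_le_sum fun i _ => Finset.sum_le_sum
      fun f _ => ?_
    refine mul_le_mul_of_nonneg_left ?_ (abs_nonneg _)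
    have h2 := inner c R M T Zw E L A Fr e Y (by linarith) hZ α f i
    rw [← hZd] at h2
    exact h2
  · intro t ht
    have ht' := Finset.mem_filter.1 ht
    refine ⟨fun v hv => ?_, ?_, ?_⟩
    · have h1 := (mem_sp.1 hv).1
      rw [hZd] at h1
      exact (Finset.mem_filter.1 h1).2
    · rw [Finset.disjoint_left]
      intro v hv
      have h1 := (mem_sp.1 hv).1
      rw [hZd] at h1
      exact (Finset.mem_sdiff.1 (Finset.mem_filter.1 h1).1).2
    · have h1 := ht'.2.2
      rw [hT] at h1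
      exact h1
  · intro t _
    refine ⟨abs_nonneg _, ?_⟩
    have hb1 : (1 : ℝ) ≤ (b : ℝ) + 1 := by
      have : (0 : ℝ) ≤ b := Nat.cast_nonneg _
      linarith
    have h1 : W t ≤ ((b : ℝ) + 1) ^ (sp Z t.2.2).card := by
      refine om_abs Z _ _ (fun v x => ?_) _
      have h2 : ∀ i q, |hcl c (NR c R) i q - 1| ≤ (b : ℝ) + 1 := by
        intro i q
        have h3 := hcl_nonneg c (NR c R) i q
        have h4 := hcl_le c (NR c R) i q
        rw [← hb] at h4
        rw [abs_le]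
        constructor <;> linarith
      unfold e2
      rcases x with x | ⟨i, β⟩
      · rw [Sum.elim_inl]
        split_ifs
        · rw [abs_zero]
          linarith
        · rw [abs_one]
          exact hb1
      · rw [Sum.elim_inr]
        split_ifs
        · exact h2 _ _
        · rw [abs_one]
          exact hb1
        · rw [abs_zero]
          linarith
    refine h1.trans ?_
    have h2 : (b : ℝ) + 1 ≤ K₀ := by
      rw [hK₀]
      push_cast
      have : (0 : ℝ) ≤ (Fintype.card (Fin A.g → P) : ℝ) * Nc +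
        (Fintype.card (Px c ⊕ (Fin Nc × Bool)) : ℝ) := by positivity
      linarith
    calc ((b : ℝ) + 1) ^ (sp Z t.2.2).card ≤ (K₀ : ℝ) ^ (sp Z t.2.2).card :=
          pow_le_pow_left₀ (by linarith) h2 _
      _ ≤ (K₀ : ℝ) ^ ((sp Z t.2.2).card + 1) :=
          pow_le_pow_right₀ (by linarith) (Nat.le_succ _)
  · intro m
    have h1 : (I.filter fun t => sp Z t.2.2 = m) ⊆ Finset.univ ×ˢ (Finset.univ ×ˢ
        ((Cf Z (Px c ⊕ (Fin Nc × Bool))).filter fun f => sp Z f = m)) := by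
      intro t ht
      have ht' := Finset.mem_filter.1 ht
      have ht'' := Finset.mem_product.1 (Finset.mem_filter.1 ht'.1).1
      rw [Finset.mem_product, Finset.mem_product]
      exact ⟨Finset.mem_univ _, Finset.mem_univ _,
        Finset.mem_filter.2 ⟨(Finset.mem_product.1 ht''.2).2, ht'.2⟩⟩
    have h2 : ((I.filter fun t => sp Z t.2.2 = m).card : ℝ) ≤
        (Fintype.card (Fin A.g → P) : ℝ) * (Nc *
          (Fintype.card (Px c ⊕ (Fin Nc × Bool)) : ℝ) ^ m.card) := by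
      refine (Nat.cast_le.2 (Finset.card_le_card h1)).trans ?_
      rw [Finset.card_product, Finset.card_product, Finset.card_univ, Finset.card_univ,
        Fintype.card_fin]
      push_cast
      have h3 := cf_card (Λ := Px c ⊕ (Fin Nc × Bool)) Z m
      gcongr
    refine h2.trans ?_
    have h3 : (Fintype.card (Fin A.g → P) : ℝ) * Nc ≤ K₀ := by
      have h4 : Fintype.card (Fin A.g → P) * Nc ≤ K₀ := by omega
      exact_mod_cast h4
    have h4 : (Fintype.card (Px c ⊕ (Fin Nc × Bool)) : ℝ) ≤ K₀ := by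
      have h5 : Fintype.card (Px c ⊕ (Fin Nc × Bool)) ≤ K₀ := by omega
      exact_mod_cast h5
    calc (Fintype.card (Fin A.g → P) : ℝ) * (Nc *
          (Fintype.card (Px c ⊕ (Fin Nc × Bool)) : ℝ) ^ m.card)
        = (Fintype.card (Fin A.g → P) : ℝ) * Nc *
          (Fintype.card (Px c ⊕ (Fin Nc × Bool)) : ℝ) ^ m.card := by ring
      _ ≤ (K₀ : ℝ) * (K₀ : ℝ) ^ m.card :=
          mul_le_mul h3 (pow_le_pow_left₀ (Nat.cast_nonneg _) h4 _)
            (pow_nonneg (Nat.cast_nonneg _) _) (Nat.cast_nonneg _)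
      _ = (K₀ : ℝ) ^ (m.card + 1) := by rw [pow_succ, mul_comm]
  · intro t ht
    have ht' := Finset.mem_filter.1 ht
    have ht'' := Finset.mem_product.1 ht'.1
    have h1 := phi_spec ht'.2.1
    refine ⟨h1.2.1, fun g => ?_, ?_, fun g => ?_, fun y z => hcl_cl c (NR c R) t.2.1 y z, ?_⟩
    · obtain ⟨x, rfl⟩ := QuotientGroup.mk_surjective g
      rw [← QuotientGroup.mk_pow, hκ]
      rfl
    · rw [hb]
      exact Fintype.card_le_of_surjective _ (QuotientGroup.mk'_surjective (NR c R))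
    · rw [abs_of_nonneg (hcl_nonneg _ _ _ _), hb]
      exact hcl_le _ _ _ _
    · have hf : mp p2 t.2.2 ∈ Cf (Zg D Zw E) (Px c ⊕ Fin Nc) := by
        have h2 := (Finset.mem_product.1 ht''.2).2
        rw [hZd] at h2
        rw [mem_cf] at h2 ⊢
        intro v hv
        unfold mp
        rw [h2 v hv]
        rfl
      have h2 := hon_sp e (val1 c) hf t.1 h1.1 h1.2.2
      refine h2.mono (Finset.Subset.refl _) ?_
      rw [lz_sp_mp, ← hZd]
      exact Finset.subset_union_left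

end aux

theorem lz (hp : p.Prime) (hζ : IsPrimitiveRoot ζ p) (D : RD0 K p ζ) (A : GS D Ω) (κ : ℕ)
    (hκ : ∀ x : P, x ^ (p ^ κ) = 1) (hG : GPU D Ω κ) (c : CL p Nc P)
    (R : Finset (Fin Nc)) (M Mw : ℕ) (hMw : Nat.card P ≤ Mw) (A₁ A₂ ε : ℝ) (hε : 0 < ε) (hε1 : ε < 1) :
    ∃ Y₀ : ℝ, 3 ≤ Y₀ ∧ ∀ Y : ℝ, Y₀ ≤ Y → ∀ (L : LDs D Ω) (Fr : FR L)
      (Zw E : Finset (Pl K)) (e : Pl K → P), ZwOk D 2 Y Zw → EOk A₁ Y Zw E →
      SA (LSx c) L A Fr (NR c R) R M Mw (T0 ε Y) Zw E e (fun x => Gd (NR c R) 0 x.1) Y ≤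
        (Nat.card P : ℝ) ^ A.g *
          (∑ f ∈ Cf (Zg D Zw E) (Px c),
            if Pat (cid (c := c)) R (Zg D Zw E) (T0 ε Y) M f ∧ nc (Zg D Zw E) f ≤ 2 * Y then
              om (Zg D Zw E) (fun v x => if RL (cid (c := c)) R (T0 ε Y) v x then
                (1 : ℝ) / (kn c (cid x) : ℝ) else 1) f
            else 0) + Y * Real.log Y ^ (-A₂) := by
  obtain ⟨B₁, hB₁⟩ : ∃ B₁ : ℕ, A₁ ≤ B₁ := exists_nat_ge A₁
  obtain ⟨B₂, hB₂⟩ : ∃ B₂ : ℕ, A₂ ≤ B₂ := exists_nat_ge A₂
  obtain ⟨Y₀, hY₀⟩ := err κ hκ hG c R A B₁ B₂ ε hε hε1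
  refine ⟨max Y₀ 3, le_max_right _ _, fun Y hY L Fr Zw E e hZ hE => ?_⟩
  have hY3 : 3 ≤ Y := (le_max_right _ _).trans hY
  have hY0 : 0 < Y := by linarith
  have hL1 : 1 ≤ Real.log Y := by
    rw [Real.le_log_iff_exp_le hY0]
    linarith [Real.exp_one_lt_d9]
  have hE' : nr E ≤ Real.log Y ^ B₁ := by
    refine hE.2.trans ?_
    rw [← Real.rpow_natCast]
    exact Real.rpow_le_rpow_of_exponent_le hL1 hB₁
  have herr := hY₀ Y ((le_max_left _ _).trans hY) L Fr M Zw E e hZ hE'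
  obtain ⟨T, hT⟩ : ∃ T : ℝ, T = T0 ε Y := ⟨_, rfl⟩
  rw [← hT] at herr ⊢
  have hP : IsPGroup p P := fun g => ⟨κ, hκ g⟩
  refine (sa_le hp hζ hP c R M Mw hMw T Zw E L A Fr e Y hY0).trans ?_
  have hclz : ∀ α : Fin A.g → P, _ := fun α => clz (Zg D Zw E) (Wl T) (cid (c := c)) R
    (Ps c R M T Zw E L A e Y α)
    (fun f i v => hcl c (NR c R) i (Fb c R Zw E A Fr e α f v))
    (fun f _ w _ hfw _ i _ => by
      funext j v
      unfold Fb
      rw [tb_upd c R E A e α f w hfw i])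
    (fun f v x => hq (NR c R) x.1 (Fb c R Zw E A Fr e α f v))
    (fun f v i _ _ => rfl)
    (fun i _ => by
      rw [Finset.card_ne_zero]
      refine ⟨⟨c.g i, i, IsConj.refl _⟩, ?_⟩
      rw [Finset.mem_filter]
      exact ⟨Finset.mem_univ _, (cid_iff _ i).2 (IsConj.refl _)⟩)
  refine (Finset.sum_le_sum fun α _ => hclz α).trans ?_
  rw [Finset.sum_add_distrib]
  refine add_le_add ?_ (herr.trans ?_)
  · have h1 : ∀ α : Fin A.g → P, ∑ f ∈ Cf (Zg D Zw E) (Px c),
        Ps c R M T Zw E L A e Y α (mpv (p1 (Wl T) cid R) f) *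
          om (Zg D Zw E) (fun v x => if cid x ∈ R ∧ Wl T v then
            1 / ((Finset.univ.filter (fun y : Px c => cid y = cid x)).card : ℝ) else 1) f ≤
        ∑ f ∈ Cf (Zg D Zw E) (Px c),
          if Pat (cid (c := c)) R (Zg D Zw E) T M f ∧ nc (Zg D Zw E) f ≤ 2 * Y then
            om (Zg D Zw E) (fun v x => if RL (cid (c := c)) R T v x then
              (1 : ℝ) / (kn c (cid x) : ℝ) else 1) f
          else 0 := by
      intro α
      refine Finset.sum_le_sum fun f _ => ?_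
      have hom : 0 ≤ om (Zg D Zw E) (fun v x => if cid x ∈ R ∧ Wl T v then
            1 / ((Finset.univ.filter (fun y : Px c => cid y = cid x)).card : ℝ) else 1) f := by
        refine om_nonneg _ _ (fun v x => ?_) f
        split_ifs
        · positivity
        · exact zero_le_one
      have heq : (fun (v : Pl K) (x : Px c) => if RL (cid (c := c)) R T v x then
          (1 : ℝ) / (kn c (cid x) : ℝ) else 1) = fun v x => if cid x ∈ R ∧ Wl T v then
            1 / ((Finset.univ.filter (fun y : Px c => cid y = cid x)).card : ℝ) else 1 := by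
        funext v x
        by_cases h5 : cid x ∈ R ∧ Wl T v
        · rw [if_pos h5, if_pos (show RL (cid (c := c)) R T v x from h5)]
          rfl
        · rw [if_neg h5, if_neg (show ¬ RL (cid (c := c)) R T v x from h5)]
      rw [heq]
      unfold Ps
      by_cases h2 : Pat (cls1 c) R (Zg D Zw E) T M (mpv (p1 (Wl T) cid R) f) ∧
          HB L A (NR c R) E Zw (tb A (NR c R) E e (val1 c) (mpv (p1 (Wl T) cid R) f) α) ∧
          nc (Zg D Zw E) (mpv (p1 (Wl T) cid R) f) ≤ 2 * Y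
      · rw [if_pos h2, one_mul, if_pos]
        refine ⟨(pat_mpv c R M T _ f).1 h2.1, ?_⟩
        rw [nc_mpv] at h2
        exact h2.2.2
      · rw [if_neg h2, zero_mul]
        split_ifs
        · exact hom
        · exact le_rfl
    refine (Finset.sum_le_sum fun α _ => h1 α).trans (le_of_eq ?_)
    rw [Finset.sum_const, Finset.card_univ, nsmul_eq_mul, Fintype.card_fun, Fintype.card_fin,
      Nat.card_eq_fintype_card]
    push_cast
    rfl
  · exact mul_le_mul_of_nonneg_left (Real.rpow_le_rpow_of_exponent_le hL1 (by linarith)) hY0.le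

end H35.UB
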