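import Pool.Agent.H35.UB.Stp
import Pool.Agent.H35.UB.Lz
import Pool.Agent.H35.UB.Top
import Pool.Agent.H77.PLF.Defs
import Pool.Agent.H35.CF.Cnt

/-!
# [H35 UB FIN] THE UPPER BOUND WITH POOR CLASSES

* `SimL L₀ L`: `L` is obtained from `L₀` by a change of the places above the primes: the same types and the same unramified primes.
* `BLst κ m`: THE BOX LEMMA (H62/BL), `m` a bound for the orders: for all `C₁`, `A₀`, `ε` there are `Mw`, `Y₀` such that for every `Y ≥ Y₀` there are places `L`, `Fr` for which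
  `BLat` holds for all groups of exponent dividing `p ^ κ` and order `≤ m`.
* `Cnt`: THE PATTERN COUNT (CF/Cnt, (3)).
* `ubf`: the number of the `φ ∈ PU L₀ c E Y` with less than `M` large primes of some class is at most `C (card P)^(#E) Y (log Y)^(Nc - 2 + B ε)`.
Proof. Let `L`, `Fr` be as in `BLst` (`PU L = PU L₀`, `tyn L = tyn L₀` by `SimL`). The set is the union over `e : E → P` and `R ≠ univ` of `PE L c E e R M T Y`. For each:
`top` (`k` with `Nk (NR c R) k = 1`, `nk_bot`), `k` times `stp`, `lz`, `Cnt`; `(C log log Y)^(k C) ≤ C' (log Y)^ε`.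
-/

set_option autoImplicit false

open scoped NumberField
open IsDedekindDomain
open scoped Classical

noncomputable section

namespace H35.UB

open H38.ML H63.MA H38.BB H38.BG H57.PC H57.BRA H77.WD H77.WE H77.PC3 H35.CF H77.PLF

section gen

variable {K : Type} [Field K] [NumberField K] {Ω : Type} [Field Ω] [Algebra K Ω]
  {p : ℕ} {ζ : K} {D : RD0 K p ζ}

/-- a change of the places -/
def SimL (L₀ L : LDs D Ω) : Prop :=
  ∀ v, v ∉ D.S0 → ∃ s : Gal(Ω/K), L.t v = s * L₀.t v * s⁻¹ ∧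
    ∀ τ, τ ∈ inr L v ↔ s⁻¹ * τ * s ∈ inr L₀ v

/-- THE BOX LEMMA -/
def BLst (D : RD0 K p ζ) (Ω : Type) [Field Ω] [Algebra K Ω] (A : GS D Ω) (κ m : ℕ) : Prop :=
  ∀ (C₁ A₀ ε : ℝ), 0 < ε → ∃ (Mw : ℕ) (Y₀ : ℝ), m ≤ Mw ∧ 3 ≤ Y₀ ∧ ∀ Y : ℝ, Y₀ ≤ Y →
    ∀ L₀ : LDs D Ω, ∃ (L : LDs D Ω) (Fr : FR L), SimL L₀ L ∧
      ∀ (P : Type) [Group P] [Finite P], Nat.card P ≤ m → (∀ x : P, x ^ (p ^ κ) = 1) →
        ∀ (N : Subgroup P) [N.Normal] (n : ℕ), Nk N (n + 1) = ⊥ →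
          N = Subgroup.closure {x | x ∈ N ∧ x ^ p = 1} → BLat Fr A Mw N n C₁ A₀ ε Y

/-- THE PATTERN COUNT -/
def Cnt (D : RD0 K p ζ) {P : Type} [Group P] [Fintype P] {Nc : ℕ} (c : CL p Nc P) : Prop :=
  ∃ B : ℝ, 0 ≤ B ∧ ∀ (M : ℕ) (ε : ℝ), 0 < ε → ε < 1 → ∃ C : ℝ, 1 ≤ C ∧ ∀ Y : ℝ, 3 ≤ Y →
    ∀ (R : Finset (Fin Nc)), R ≠ Finset.univ → ∀ Z : Finset (Pl K), (∀ v ∈ Z, D.Gd v) →
      ∑ f ∈ Cf Z (Px c), (if Pat (cid (c := c)) R Z (T0 ε Y) M f ∧ nc Z f ≤ 2 * Y then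
        om Z (fun v x => if RL (cid (c := c)) R (T0 ε Y) v x then
          (1 : ℝ) / (kn c (cid x) : ℝ) else 1) f else 0) ≤
        C * Y * Real.log Y ^ ((Nc : ℝ) - 2 + B * ε)

theorem cnt (D : RD0 K p ζ) {P : Type} [Group P] [Fintype P] {Nc : ℕ} (c : CL p Nc P) :
    Cnt D c := by
  obtain ⟨l, hl⟩ : ∃ l : ℝ, l = Fintype.card (Px c) := ⟨_, rfl⟩
  have hl0 : 0 ≤ l := by
    rw [hl]
    positivity
  refine ⟨2 * l, by positivity, fun M ε hε hε1 => ?_⟩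
  choose C hC h using fun R : Finset (Fin Nc) =>
    cnt_pat K (Px c) (cid (c := c)) R 1 zero_le_one M ε hε hε1.le
  obtain ⟨q, hq⟩ : ∃ q : ℝ, q = (2 : ℝ) ^ ((Nc : ℝ) + l) * (2 : ℝ) ^ l := ⟨_, rfl⟩
  have hq0 : 0 < q := by
    rw [hq]
    positivity
  refine ⟨1 + ∑ R : Finset (Fin Nc), C R * 2 * q, ?_, ?_⟩
  · have : 0 ≤ ∑ R : Finset (Fin Nc), C R * 2 * q := Finset.sum_nonneg fun R _ =>
      mul_nonneg (mul_nonneg (hC R).le (by norm_num)) hq0.le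
    linarith
  intro Y hY R hR Z hZ
  have hY0 : (0 : ℝ) < Y := by linarith
  have hlY : 1 ≤ Real.log Y := by
    rw [Real.le_log_iff_exp_le hY0]
    exact (Real.exp_one_lt_d9.le.trans (by norm_num)).trans hY
  have hlY0 : 0 < Real.log Y := by linarith
  have hYe : 1 ≤ Real.log Y ^ ε := Real.one_le_rpow hlY hε.le
  obtain ⟨T, hT⟩ : ∃ T : ℝ, T = max 3 (T0 ε Y) := ⟨_, rfl⟩
  have hT3 : 3 ≤ T := by
    rw [hT]
    exact le_max_left _ _
  have hT0 : T0 ε Y ≤ T := by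
    rw [hT]
    exact le_max_right _ _
  obtain ⟨g, hg⟩ : ∃ g : Pl K → Px c → ℝ, g = fun v x =>
      if RL (cid (c := c)) R (T0 ε Y) v x then (1 : ℝ) / (kn c (cid x) : ℝ) else 1 := ⟨_, rfl⟩
  rw [← hg]
  have hgb : ∀ v x, 0 ≤ g v x ∧ g v x ≤ 1 := by
    intro v x
    rw [hg]
    beta_reduce
    split_ifs
    · refine ⟨by positivity, ?_⟩
      have h1 : 1 ≤ kn c (cid x) := by
        unfold kn
        exact Finset.card_pos.2 ⟨x, Finset.mem_filter.2 ⟨Finset.mem_univ _, rfl⟩⟩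
      rw [div_le_one (by exact_mod_cast h1)]
      exact_mod_cast h1
    · exact ⟨zero_le_one, le_refl 1⟩
  have hgs : ∀ v : Pl K, T < (nm v : ℝ) → ∀ i ∈ R,
      ∑ x ∈ Finset.univ.filter (fun x : Px c => cid x = i), g v x ≤ 1 := by
    intro v hv i hi
    have e1 : ∀ x ∈ Finset.univ.filter (fun x : Px c => cid x = i), g v x = 1 / (kn c i : ℝ) := by
      intro x hx
      have hx' := (Finset.mem_filter.1 hx).2
      rw [hg]
      beta_reduce
      rw [if_pos, hx']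
      refine ⟨?_, lt_of_le_of_lt hT0 hv⟩
      rw [hx']
      exact hi
    rw [Finset.sum_congr rfl e1, Finset.sum_const, nsmul_eq_mul]
    change (kn c i : ℝ) * (1 / (kn c i : ℝ)) ≤ 1
    rcases Nat.eq_zero_or_pos (kn c i) with h0 | h0
    · rw [h0, Nat.cast_zero, zero_mul]
      exact zero_le_one
    · have h1 : (kn c i : ℝ) ≠ 0 := by exact_mod_cast h0.ne'
      rw [mul_one_div, div_self h1]
  have hom : ∀ f : Pl K → Option (Px c), 0 ≤ om Z g f := by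
    intro f
    unfold om
    refine Finset.prod_nonneg fun v _ => ?_
    rcases f v with _ | x
    · exact zero_le_one
    · exact (hgb v x).1
  have key := h R Z (2 * Y) T (by linarith) hT3 g (fun v x => hgb v x) hgs
  rw [one_mul, ← hl] at key
  have s1 : ∑ f ∈ Cf Z (Px c), (if Pat (cid (c := c)) R Z (T0 ε Y) M f ∧ nc Z f ≤ 2 * Y then
      om Z g f else 0) ≤ C R * (2 * Y) * Real.log (2 * Y) ^ ((R.card : ℝ) - 1 + ε * l) *
        Real.log T ^ l := by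
    refine le_trans ?_ key
    rw [← Finset.sum_filter]
    refine Finset.sum_le_sum_of_subset_of_nonneg ?_ fun f _ _ => hom f
    intro f hf
    obtain ⟨hf1, hf2, hf3⟩ := Finset.mem_filter.1 hf
    refine Finset.mem_filter.2 ⟨hf1, hf3, fun i hi => ?_⟩
    have h1 : cn (cid (c := c)) Z (T0 ε Y) f i < M := by
      by_contra hcon
      exact hi ((hf2 i).2 (not_lt.1 hcon))
    refine le_trans (Finset.card_le_card ?_) h1.le
    intro v hv
    obtain ⟨hv1, hv2, x, hx1, hx2⟩ := Finset.mem_filter.1 hv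
    refine Finset.mem_filter.2 ⟨hv1, lt_of_le_of_lt hT0 hv2, ?_⟩
    rw [hx1, Option.map_some, hx2]
  have hlog2 : Real.log Y ≤ Real.log (2 * Y) := Real.log_le_log hY0 (by linarith)
  have hlog2' : Real.log (2 * Y) ≤ 2 * Real.log Y := by
    rw [Real.log_mul (by norm_num) hY0.ne']
    have : Real.log 2 ≤ Real.log Y := Real.log_le_log (by norm_num) (by linarith)
    linarith
  have hlT0 : 0 ≤ Real.log T := Real.log_nonneg (by linarith)
  have hlT : Real.log T ≤ 2 * Real.log Y ^ ε := by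
    rw [hT]
    rcases max_cases (3 : ℝ) (T0 ε Y) with ⟨h1, _⟩ | ⟨h1, _⟩
    · rw [h1]
      have h2 : Real.log 3 ≤ 2 := by
        have h3 : (3 : ℝ) ≤ Real.exp 2 := by
          have := Real.add_one_le_exp (2 : ℝ)
          linarith
        calc Real.log 3 ≤ Real.log (Real.exp 2) := Real.log_le_log (by norm_num) h3
          _ = 2 := Real.log_exp 2
      linarith
    · rw [h1]
      unfold T0
      rw [Real.log_exp]
      linarith
  have s2 : Real.log T ^ l ≤ 2 ^ l * Real.log Y ^ (ε * l) := by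
    calc Real.log T ^ l ≤ (2 * Real.log Y ^ ε) ^ l := Real.rpow_le_rpow hlT0 hlT hl0
      _ = 2 ^ l * (Real.log Y ^ ε) ^ l := Real.mul_rpow (by norm_num) (by positivity)
      _ = 2 ^ l * Real.log Y ^ (ε * l) := by rw [← Real.rpow_mul hlY0.le]
  have hRc : (R.card : ℝ) ≤ (Nc : ℝ) - 1 := by
    have h1 : R.card < Nc := by
      have := Finset.card_lt_card (Finset.ssubset_univ_iff.2 hR)
      rwa [Finset.card_univ, Fintype.card_fin] at this
    have h2 : (R.card : ℝ) + 1 ≤ Nc := by exact_mod_cast h1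
    linarith
  have s3 : Real.log (2 * Y) ^ ((R.card : ℝ) - 1 + ε * l) ≤
      2 ^ ((Nc : ℝ) + l) * Real.log Y ^ ((R.card : ℝ) - 1 + ε * l) := by
    rcases le_or_gt 0 ((R.card : ℝ) - 1 + ε * l) with h0 | h0
    · calc Real.log (2 * Y) ^ ((R.card : ℝ) - 1 + ε * l) ≤
            (2 * Real.log Y) ^ ((R.card : ℝ) - 1 + ε * l) :=
            Real.rpow_le_rpow (hlY0.le.trans hlog2) hlog2' h0
        _ = 2 ^ ((R.card : ℝ) - 1 + ε * l) * Real.log Y ^ ((R.card : ℝ) - 1 + ε * l) :=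
            Real.mul_rpow (by norm_num) hlY0.le
        _ ≤ _ := by
            refine mul_le_mul_of_nonneg_right ?_ (by positivity)
            refine Real.rpow_le_rpow_of_exponent_le (by norm_num) ?_
            have : ε * l ≤ 1 * l := mul_le_mul_of_nonneg_right hε1.le hl0
            linarith
    · calc Real.log (2 * Y) ^ ((R.card : ℝ) - 1 + ε * l) ≤
            Real.log Y ^ ((R.card : ℝ) - 1 + ε * l) :=
            Real.rpow_le_rpow_of_nonpos hlY0 hlog2 h0.le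
        _ ≤ _ := by
            refine le_mul_of_one_le_left (by positivity) ?_
            exact Real.one_le_rpow (by norm_num) (by positivity)
  have s4 : Real.log Y ^ ((R.card : ℝ) - 1 + ε * l) * Real.log Y ^ (ε * l) ≤
      Real.log Y ^ ((Nc : ℝ) - 2 + 2 * l * ε) := by
    rw [← Real.rpow_add hlY0]
    refine Real.rpow_le_rpow_of_exponent_le hlY ?_
    linarith
  have hCR := hC R
  calc ∑ f ∈ Cf Z (Px c), (if Pat (cid (c := c)) R Z (T0 ε Y) M f ∧ nc Z f ≤ 2 * Y then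
        om Z g f else 0) ≤ C R * (2 * Y) * Real.log (2 * Y) ^ ((R.card : ℝ) - 1 + ε * l) *
          Real.log T ^ l := s1
    _ ≤ C R * (2 * Y) * (2 ^ ((Nc : ℝ) + l) * Real.log Y ^ ((R.card : ℝ) - 1 + ε * l)) *
          (2 ^ l * Real.log Y ^ (ε * l)) := by
        refine mul_le_mul (mul_le_mul_of_nonneg_left s3 (by positivity)) s2
          (Real.rpow_nonneg hlT0 _) (by positivity)
    _ = C R * 2 * q * Y * (Real.log Y ^ ((R.card : ℝ) - 1 + ε * l) * Real.log Y ^ (ε * l)) := by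
        rw [hq]
        ring
    _ ≤ C R * 2 * q * Y * Real.log Y ^ ((Nc : ℝ) - 2 + 2 * l * ε) :=
        mul_le_mul_of_nonneg_left s4 (by positivity)
    _ ≤ (1 + ∑ R : Finset (Fin Nc), C R * 2 * q) * Y *
          Real.log Y ^ ((Nc : ℝ) - 2 + 2 * l * ε) := by
        refine mul_le_mul_of_nonneg_right (mul_le_mul_of_nonneg_right ?_ hY0.le) (by positivity)
        have h1 : C R * 2 * q ≤ ∑ R : Finset (Fin Nc), C R * 2 * q :=
          Finset.single_le_sum (f := fun R => C R * 2 * q) (fun R _ =>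
            mul_nonneg (mul_nonneg (hC R).le (by norm_num)) hq0.le) (Finset.mem_univ R)
        linarith

end gen

/-- numbers -/
private theorem fin_pow {C C' x : ℝ} (hC : 1 ≤ C) (hC' : 1 ≤ C') (hx : 1 ≤ x) :
    (C * x) ^ C * (C' * x) ^ C' + 1 ≤ ((C + C' + 1) * x) ^ (C + C' + 1) := by
  obtain ⟨b, hb⟩ : ∃ b : ℝ, b = (C + C' + 1) * x := ⟨_, rfl⟩
  have hx0 : 0 ≤ x := by linarith
  have hC0 : 0 ≤ C := by linarith
  have hC0' : 0 ≤ C' := by linarith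
  have e1 : C * x ≤ b := by
    rw [hb]
    exact mul_le_mul_of_nonneg_right (by linarith) hx0
  have e2 : C' * x ≤ b := by
    rw [hb]
    exact mul_le_mul_of_nonneg_right (by linarith) hx0
  have e3 : 2 ≤ b := by
    rw [hb]
    calc (2 : ℝ) ≤ (C + C' + 1) * 1 := by linarith
      _ ≤ (C + C' + 1) * x := mul_le_mul_of_nonneg_left hx (by linarith)
  rw [← hb]
  have hb0 : 0 < b := by linarith
  have h1 : (C * x) ^ C ≤ b ^ C := Real.rpow_le_rpow (by positivity) e1 hC0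
  have h2 : (C' * x) ^ C' ≤ b ^ C' := Real.rpow_le_rpow (by positivity) e2 hC0'
  have h3 : b ^ C * b ^ C' = b ^ (C + C') := (Real.rpow_add hb0 _ _).symm
  have h4 : 1 ≤ b ^ (C + C') := Real.one_le_rpow (by linarith) (by linarith)
  calc (C * x) ^ C * (C' * x) ^ C' + 1 ≤ b ^ C * b ^ C' + b ^ (C + C') :=
        add_le_add (mul_le_mul h1 h2 (by positivity) (by positivity)) h4
    _ = 2 * b ^ (C + C') := by
        rw [h3]
        ring
    _ ≤ b * b ^ (C + C') := mul_le_mul_of_nonneg_right e3 (by positivity)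
    _ = b ^ (C + C' + 1) := by
        rw [Real.rpow_add_one hb0.ne', mul_comm]

/-- powers of `log log` -/
private theorem fin_ll {C ε : ℝ} (hC : 1 ≤ C) (hε : 0 < ε) : ∃ q : ℝ, 1 ≤ q ∧ ∀ x : ℝ, 1 ≤ x →
    (C * Real.log x) ^ C ≤ q * x ^ ε := by
  have hC0 : 0 < C := by linarith
  obtain ⟨δ, hδ⟩ : ∃ δ : ℝ, δ = ε / C := ⟨_, rfl⟩
  have hδ0 : 0 < δ := by
    rw [hδ]
    positivity
  refine ⟨(1 + C / δ) ^ C, Real.one_le_rpow ?_ hC0.le, fun x hx => ?_⟩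
  · have : 0 < C / δ := by positivity
    linarith
  have hx0 : 0 < x := by linarith
  have hl : 0 ≤ Real.log x := Real.log_nonneg hx
  have h1 : C * Real.log x ≤ (1 + C / δ) * x ^ δ := by
    have h2 := Real.log_le_rpow_div hx0.le hδ0
    have h3 : 0 < x ^ δ := by positivity
    calc C * Real.log x ≤ C * (x ^ δ / δ) := mul_le_mul_of_nonneg_left h2 hC0.le
      _ = C / δ * x ^ δ := by ring
      _ ≤ (1 + C / δ) * x ^ δ := mul_le_mul_of_nonneg_right (by linarith) h3.le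
  calc (C * Real.log x) ^ C ≤ ((1 + C / δ) * x ^ δ) ^ C :=
        Real.rpow_le_rpow (by positivity) h1 hC0.le
    _ = (1 + C / δ) ^ C * (x ^ δ) ^ C := Real.mul_rpow (by positivity) (by positivity)
    _ = (1 + C / δ) ^ C * x ^ ε := by
        rw [← Real.rpow_mul hx0.le, hδ, div_mul_cancel₀ _ hC0.ne']

/-- the last combination of the inequalities -/
private theorem fin_num {n Sk S0 Sg pg C' q l e ε Y X : ℝ} (hY : 0 ≤ Y) (hl : 1 ≤ l) (hpg : 0 ≤ pg)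
    (hX : 0 ≤ X) (hC' : 0 ≤ C') (he : -2 ≤ e) (h1 : n ≤ Sk)
    (h2 : Sk ≤ X * (S0 + Y * l ^ (-(2 : ℝ)))) (h3 : S0 ≤ pg * Sg + Y * l ^ (-(2 : ℝ)))
    (h4 : Sg ≤ C' * Y * l ^ e) (h5 : X ≤ q * l ^ ε) :
    n ≤ q * (pg * C' + 2) * Y * l ^ (e + ε) := by
  have hl0 : 0 < l := by linarith
  have h6 : l ^ (-(2 : ℝ)) ≤ l ^ e := Real.rpow_le_rpow_of_exponent_le hl he
  have h7 : Y * l ^ (-(2 : ℝ)) ≤ Y * l ^ e := mul_le_mul_of_nonneg_left h6 hY
  have h8 : pg * Sg ≤ pg * (C' * Y * l ^ e) := mul_le_mul_of_nonneg_left h4 hpg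
  have h9 : S0 + Y * l ^ (-(2 : ℝ)) ≤ (pg * C' + 2) * (Y * l ^ e) := by
    calc S0 + Y * l ^ (-(2 : ℝ)) ≤ (pg * (C' * Y * l ^ e) + Y * l ^ e) + Y * l ^ e := by linarith
      _ = _ := by ring
  have h10 : 0 ≤ (pg * C' + 2) * (Y * l ^ e) := by positivity
  calc n ≤ X * (S0 + Y * l ^ (-(2 : ℝ))) := h1.trans h2
    _ ≤ X * ((pg * C' + 2) * (Y * l ^ e)) := mul_le_mul_of_nonneg_left h9 hX
    _ ≤ q * l ^ ε * ((pg * C' + 2) * (Y * l ^ e)) := mul_le_mul_of_nonneg_right h5 h10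
    _ = q * (pg * C' + 2) * Y * l ^ (e + ε) := by
        rw [Real.rpow_add hl0]
        ring

section sim

variable {K : Type} [Field K] [NumberField K] {Ω : Type} [Field Ω] [Algebra K Ω]
  {p : ℕ} {ζ : K} {D : RD0 K p ζ} {P : Type} [Group P] {Nc : ℕ}

omit [NumberField K] in
private theorem sim_cj (φ : Gal(Ω/K) →* P) (s τ : Gal(Ω/K)) :
    φ τ = φ s * φ (s⁻¹ * τ * s) * (φ s)⁻¹ := by
  rw [map_mul, map_mul, map_inv]
  group

private theorem sim_ur {L₀ L : LDs D Ω} (h : SimL L₀ L) {v : Pl K} (hv : v ∉ D.S0)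
    (φ : Gal(Ω/K) →* P) : (∀ τ ∈ inr L v, φ τ = 1) ↔ ∀ τ ∈ inr L₀ v, φ τ = 1 := by
  obtain ⟨s, -, h2⟩ := h v hv
  constructor
  · intro h1 τ hτ
    have h3 : s * τ * s⁻¹ ∈ inr L v := by
      rw [h2]
      have : s⁻¹ * (s * τ * s⁻¹) * s = τ := by group
      rw [this]
      exact hτ
    have h4 := h1 _ h3
    rw [map_mul, map_mul, map_inv] at h4
    have h5 : φ τ = (φ s)⁻¹ * (φ s * φ τ * (φ s)⁻¹) * φ s := by group
    rw [h5, h4]
    group
  · intro h1 τ hτ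
    rw [sim_cj φ s τ, h1 _ ((h2 τ).1 hτ)]
    group

private theorem sim_pw {L₀ L : LDs D Ω} (h : SimL L₀ L) {v : Pl K} (hv : v ∉ D.S0)
    (φ : Gal(Ω/K) →* P) : (∀ τ ∈ inr L v, φ τ ^ p = 1) ↔ ∀ τ ∈ inr L₀ v, φ τ ^ p = 1 := by
  obtain ⟨s, -, h2⟩ := h v hv
  constructor
  · intro h1 τ hτ
    have h3 : s * τ * s⁻¹ ∈ inr L v := by
      rw [h2]
      have : s⁻¹ * (s * τ * s⁻¹) * s = τ := by group
      rw [this]
      exact hτ
    have h4 := h1 _ h3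
    rw [map_mul, map_mul, map_inv, conj_pow] at h4
    have h5 : φ τ ^ p = (φ s)⁻¹ * (φ s * φ τ ^ p * (φ s)⁻¹) * φ s := by group
    rw [h5, h4]
    group
  · intro h1 τ hτ
    rw [sim_cj φ s τ, conj_pow, h1 _ ((h2 τ).1 hτ)]
    group

private theorem sim_ty {L₀ L : LDs D Ω} (h : SimL L₀ L) (c : CL p Nc P) (φ : Gal(Ω/K) →* P)
    (i : Fin Nc) (v : Pl K) : TyC c L φ i v ↔ TyC c L₀ φ i v := by
  unfold TyC
  refine and_congr_right fun hG => ?_
  refine and_congr ?_ (sim_pw h hG.1 φ)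
  obtain ⟨s, h1, -⟩ := h v hG.1
  have h3 : IsConj (φ (L₀.t v)) (φ (L.t v)) := by
    rw [isConj_iff]
    refine ⟨φ s, ?_⟩
    rw [h1, map_mul, map_mul, map_inv]
  exact ⟨fun h4 => h3.trans h4, fun h4 => h3.symm.trans h4⟩

private theorem sim_tyn {L₀ L : LDs D Ω} (h : SimL L₀ L) (c : CL p Nc P) (E : Finset (Pl K))
    (T : ℝ) (φ : Gal(Ω/K) →* P) (i : Fin Nc) : tyn L c E T φ i = tyn L₀ c E T φ i := by
  unfold tyn
  simp only [sim_ty h c φ i]

private theorem sim_pu {L₀ L : LDs D Ω} (h : SimL L₀ L) (c : CL p Nc P) (E : Finset (Pl K))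
    (Y : ℝ) (φ : Gal(Ω/K) →* P) (hφ : φ ∈ PU L₀ c E Y) : φ ∈ PU L c E Y := by
  obtain ⟨h1, h2, h3, h4⟩ := hφ
  refine ⟨h1, h2, fun v hv hE => ?_, fun T hT => h4 T fun v hv => ?_⟩
  · rcases h3 v hv hE with h5 | ⟨i, hi⟩
    · exact Or.inl ((sim_ur h hv φ).2 h5)
    · exact Or.inr ⟨i, (sim_ty h c φ i v).2 hi⟩
  · obtain ⟨h5, h6, h7⟩ := hT v hv
    exact ⟨h5, h6, fun h8 => h7 ((sim_ur h h5 φ).2 h8)⟩

end sim

/-- the sum is nonnegative -/
private theorem sa_nonneg {K : Type} [Field K] [NumberField K] {Ω : Type} [Field Ω] [Algebra K Ω]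
    {p : ℕ} {ζ : K} {D : RD0 K p ζ} {P : Type} [Group P] [Fintype P] {Nc : ℕ} (L : LDs D Ω)
    (A : GS D Ω) (Fr : FR L) (c : CL p Nc P) (R : Finset (Fin Nc)) (k M Mw : ℕ) (T : ℝ)
    (Zw E : Finset (Pl K)) (e : Pl K → P) (Y : ℝ) :
    0 ≤ SA (LSx c) L A Fr (NR c R) R M Mw T Zw E e (fun x => Gd (NR c R) k x.1) Y := by
  unfold SA
  refine Finset.sum_nonneg fun f _ => Finset.sum_nonneg fun α _ => ?_
  split_ifs
  · refine mul_nonneg ?_ ?_
    · unfold psi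
      exact le_min zero_le_one (le_max_left _ _)
    · unfold om
      refine Finset.prod_nonneg fun v _ => ?_
      rcases f v with _ | x
      · exact zero_le_one
      · change (0 : ℝ) ≤ if _ then _ else _
        split_ifs
        · exact gd_nonneg _ _ _ _
        · exact zero_le_one
  · exact le_refl 0

/-- all level steps -/
private theorem chn {K : Type} [Field K] [NumberField K] {Ω : Type} [Field Ω] [Algebra K Ω]
    {p : ℕ} [NeZero p] {ζ : K} {P : Type} [Group P] [Fintype P] {Nc : ℕ}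
    (hp : p.Prime) (D : RD0 K p ζ) (A : GS D Ω) (c : CL p Nc P)
    (R : Finset (Fin Nc)) (M : ℕ) (A₁ A₂ ε : ℝ) (hε : 0 < ε) (hε1 : ε < 1) (j : ℕ)
    (hM : ∀ k < j, (k + 2) * (Nc * Nat.card P ^ 3) ≤ M) :
    ∃ C C₁ A₀ Y₀ : ℝ, 1 ≤ C ∧ 2 ≤ C₁ ∧ 0 ≤ A₀ ∧ Real.exp (Real.exp 1) ≤ Y₀ ∧
      ∀ C₁' A₀' : ℝ, C₁ ≤ C₁' → A₀ ≤ A₀' → ∀ Y : ℝ, Y₀ ≤ Y → ∀ (L : LDs D Ω) (Fr : FR L) (Mw : ℕ),
      (∀ k < j, BLat Fr A Mw ((NR c R).map (QuotientGroup.mk' (Nk (NR c R) (k + 1)))) k C₁' A₀'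
        ε Y) →
      ∀ (Zw E : Finset (Pl K)) (e : Pl K → P), ZwOk D C₁' Y Zw → EOk A₁ Y Zw E →
      SA (LSx c) L A Fr (NR c R) R M Mw (T0 ε Y) Zw E e
          (fun x => Gd (NR c R) j x.1) Y ≤ (C * Real.log (Real.log Y)) ^ C *
        (SA (LSx c) L A Fr (NR c R) R M Mw (T0 ε Y) Zw E e (fun x => Gd (NR c R) 0 x.1) Y +
          Y * Real.log Y ^ (-A₂)) := by
  have hll : ∀ Y : ℝ, Real.exp (Real.exp 1) ≤ Y → 0 < Y ∧ 0 < Real.log Y ∧
      1 ≤ Real.log (Real.log Y) := by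
    intro Y hY
    have h0 : 0 < Y := lt_of_lt_of_le (Real.exp_pos _) hY
    have h1 : Real.exp 1 ≤ Real.log Y := by
      rwa [Real.le_log_iff_exp_le h0]
    have h2 : 0 < Real.log Y := lt_of_lt_of_le (Real.exp_pos _) h1
    refine ⟨h0, h2, ?_⟩
    rwa [Real.le_log_iff_exp_le h2]
  induction j with
  | zero =>
    refine ⟨1, 2, 0, Real.exp (Real.exp 1), le_refl _, le_refl _, le_refl _, le_refl _, ?_⟩
    intro C₁' A₀' _ _ Y hY L Fr Mw _ Zw E e _ _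
    obtain ⟨h0, h1, h2⟩ := hll Y hY
    have h3 := sa_nonneg L A Fr c R 0 M Mw (T0 ε Y) Zw E e Y
    have h4 : 0 ≤ Y * Real.log Y ^ (-A₂) := by positivity
    rw [Real.rpow_one, one_mul]
    calc _ ≤ SA (LSx c) L A Fr (NR c R) R M Mw (T0 ε Y) Zw E e (fun x => Gd (NR c R) 0 x.1) Y +
          Y * Real.log Y ^ (-A₂) := le_add_of_nonneg_right h4
      _ ≤ _ := le_mul_of_one_le_left (by positivity) h2
  | succ j ih =>
    obtain ⟨C, C₁, A₀, Y₀, hC, hC₁, hA₀, hY₀, h⟩ := ih fun k hk => hM k (by omega)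
    obtain ⟨C', C₂, A₂', Y₀', hC', hC₂, hA₂', hY₀', h'⟩ :=
      stp hp D A c R j M (hM j (by omega)) A₁ A₂ ε hε hε1
    refine ⟨C' + C + 1, max C₁ C₂, max A₀ A₂', max Y₀ Y₀', by linarith,
      hC₁.trans (le_max_left _ _), hA₀.trans (le_max_left _ _), hY₀.trans (le_max_left _ _), ?_⟩
    intro C₁' A₀' hC₁' hA₀' Y hY L Fr Mw hB Zw E e hZ hE
    obtain ⟨h0, h1, h2⟩ := hll Y (hY₀.trans ((le_max_left _ _).trans hY))
    have k1 := h C₁' A₀' ((le_max_left _ _).trans hC₁') ((le_max_left _ _).trans hA₀') Y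
      ((le_max_left _ _).trans hY) L Fr Mw (fun k hk => hB k (by omega)) Zw E e hZ hE
    have k2 := h' C₁' A₀' ((le_max_right _ _).trans hC₁') ((le_max_right _ _).trans hA₀') Y
      ((le_max_right _ _).trans hY) L Fr Mw (hB j (by omega)) Zw E e hZ hE
    have h3 := sa_nonneg L A Fr c R 0 M Mw (T0 ε Y) Zw E e Y
    have h4 : 0 ≤ Y * Real.log Y ^ (-A₂) := by positivity
    obtain ⟨S0, hS0⟩ : ∃ S0 : ℝ, S0 = SA (LSx c) L A Fr (NR c R) R M Mw (T0 ε Y) Zw E e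
      (fun x => Gd (NR c R) 0 x.1) Y := ⟨_, rfl⟩
    rw [← hS0] at h3 k1 ⊢
    have h5 : 0 ≤ (C' * Real.log (Real.log Y)) ^ C' := by positivity
    refine k2.trans ?_
    calc (C' * Real.log (Real.log Y)) ^ C' * SA (LSx c) L A Fr (NR c R) R M Mw (T0 ε Y) Zw E e
          (fun x => Gd (NR c R) j x.1) Y + Y * Real.log Y ^ (-A₂) ≤
          (C' * Real.log (Real.log Y)) ^ C' * ((C * Real.log (Real.log Y)) ^ C *
            (S0 + Y * Real.log Y ^ (-A₂))) + (S0 + Y * Real.log Y ^ (-A₂)) :=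
          add_le_add (mul_le_mul_of_nonneg_left k1 h5) (by linarith)
      _ = ((C' * Real.log (Real.log Y)) ^ C' * (C * Real.log (Real.log Y)) ^ C + 1) *
            (S0 + Y * Real.log Y ^ (-A₂)) := by ring
      _ ≤ _ := mul_le_mul_of_nonneg_right (fin_pow hC' hC h2) (by positivity)

/-- the union bound -/
private theorem fin_un {α β : Type} (I : Finset α) (F : α → Set β) (h : ∀ x ∈ I, (F x).Finite) :
    (⋃ x ∈ I, F x).ncard ≤ ∑ x ∈ I, (F x).ncard := by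
  classical
  induction I using Finset.induction_on with
  | empty => simp
  | insert a I ha ih =>
    rw [Finset.set_biUnion_insert, Finset.sum_insert ha]
    exact (Set.ncard_union_le _ _).trans (Nat.add_le_add_left (ih fun x hx =>
      h x (Finset.mem_insert_of_mem hx)) _)

variable {K : Type} [Field K] [NumberField K] {Ω : Type} [Field Ω] [Algebra K Ω]
  [IsAlgClosure K Ω] {p : ℕ} [NeZero p] {ζ : K} {P : Type} [Group P] [Fintype P] {Nc : ℕ}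

theorem ubf (hp : p.Prime) (hζ : IsPrimitiveRoot ζ p) (D : RD0 K p ζ) (κ : ℕ)
    (hκ : ∀ x : P, x ^ (p ^ κ) = 1) (hG : GPU D Ω κ) (hBL : ∀ A : GS D Ω, BLst D Ω A κ (Nat.card P))
    (c : CL p Nc P) :
    ∃ M₀ : ℕ, ∃ B : ℝ, 0 ≤ B ∧ ∀ (M : ℕ) (A₁ ε : ℝ), M₀ ≤ M → 0 < ε → ε < 1 →
      ∃ C Y₀ : ℝ, 1 ≤ C ∧ 3 ≤ Y₀ ∧
      ∀ (L₀ : LDs D Ω) (E : Finset (Pl K)) (Y : ℝ), Y₀ ≤ Y → nr E ≤ Real.log Y ^ A₁ →
        (∀ v ∈ E, v ∉ D.S0) →
        {φ | φ ∈ PU L₀ c E Y ∧ ∃ i, tyn L₀ c E (T0 ε Y) φ i < M}.Finite ∧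
        ({φ | φ ∈ PU L₀ c E Y ∧ ∃ i, tyn L₀ c E (T0 ε Y) φ i < M}.ncard : ℝ) ≤
          C * (Nat.card P : ℝ) ^ E.card * Y * Real.log Y ^ ((Nc : ℝ) - 2 + B * ε) := by
  classical
  obtain ⟨A⟩ := gs_exists hp hζ D Ω
  have hP : IsPGroup p P := fun x => ⟨κ, hκ x⟩
  choose k hk using fun R : Finset (Fin Nc) => nk_bot hp hP (NR c R)
  obtain ⟨B₀, hB₀, hcnt⟩ := cnt D c
  refine ⟨(∑ R : Finset (Fin Nc), k R + 2) * (Nc * Nat.card P ^ 3), B₀ + 1, by linarith,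
    fun M A₁ ε hM hε hε1 => ?_⟩
  have hM' : ∀ R : Finset (Fin Nc), ∀ j < k R, (j + 2) * (Nc * Nat.card P ^ 3) ≤ M := by
    intro R j hj
    refine le_trans (Nat.mul_le_mul_right _ ?_) hM
    have : k R ≤ ∑ R : Finset (Fin Nc), k R :=
      Finset.single_le_sum (f := k) (fun _ _ => Nat.zero_le _) (Finset.mem_univ R)
    omega
  obtain ⟨C₀, hC₀, hcnt⟩ := hcnt M ε hε hε1
  choose C C₁ A₀ Y₁ hC hC₁ hA₀ hY₁ h₁ using fun R : Finset (Fin Nc) =>
    chn hp D A c R M A₁ 2 ε hε hε1 (k R) (hM' R)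
  obtain ⟨C₁', hC₁'⟩ : ∃ C₁' : ℝ, C₁' = 2 + ∑ R : Finset (Fin Nc), C₁ R := ⟨_, rfl⟩
  obtain ⟨A₀', hA₀'⟩ : ∃ A₀' : ℝ, A₀' = ∑ R : Finset (Fin Nc), A₀ R := ⟨_, rfl⟩
  have hC₁0 : ∀ R : Finset (Fin Nc), 0 ≤ C₁ R := fun R => by linarith [hC₁ R]
  have hC1 : ∀ R : Finset (Fin Nc), C₁ R ≤ C₁' := by
    intro R
    have : C₁ R ≤ ∑ R : Finset (Fin Nc), C₁ R :=
      Finset.single_le_sum (f := C₁) (fun R _ => hC₁0 R) (Finset.mem_univ R)
    linarith
  have hC2 : 2 ≤ C₁' := by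
    have : 0 ≤ ∑ R : Finset (Fin Nc), C₁ R := Finset.sum_nonneg fun R _ => hC₁0 R
    linarith
  have hA1 : ∀ R : Finset (Fin Nc), A₀ R ≤ A₀' := by
    intro R
    rw [hA₀']
    exact Finset.single_le_sum (f := A₀) (fun R _ => hA₀ R) (Finset.mem_univ R)
  obtain ⟨Mw, Y₂, hMw, hY₂, hBL⟩ := hBL A C₁' A₀' ε hε
  choose Y₃ hY₃ h₃ using fun R : Finset (Fin Nc) =>
    lz hp hζ D A κ hκ hG c R M Mw hMw A₁ 2 ε hε hε1
  choose q hq hq' using fun R : Finset (Fin Nc) => fin_ll (hC R) hε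
  obtain ⟨W, hW⟩ : ∃ W : ℝ, W = (Nat.card P : ℝ) ^ A.g * C₀ + 2 := ⟨_, rfl⟩
  have hW0 : 0 ≤ W := by
    rw [hW]
    positivity
  have hqW : ∀ R : Finset (Fin Nc), 0 ≤ q R * W := fun R =>
    mul_nonneg (by linarith [hq R]) hW0
  have hY₁0 : ∀ R : Finset (Fin Nc), 0 ≤ Y₁ R + Y₃ R := by
    intro R
    have h1 := (Real.exp_pos (Real.exp 1)).trans_le (hY₁ R)
    have h2 := hY₃ R
    linarith
  refine ⟨1 + ∑ R : Finset (Fin Nc), q R * W, Y₂ + ∑ R : Finset (Fin Nc), (Y₁ R + Y₃ R), ?_, ?_, ?_⟩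
  · have : 0 ≤ ∑ R : Finset (Fin Nc), q R * W := Finset.sum_nonneg fun R _ => hqW R
    linarith
  · have : 0 ≤ ∑ R : Finset (Fin Nc), (Y₁ R + Y₃ R) := Finset.sum_nonneg fun R _ => hY₁0 R
    linarith
  intro L₀ E Y hY hE hES
  have hYs : 0 ≤ ∑ R : Finset (Fin Nc), (Y₁ R + Y₃ R) := Finset.sum_nonneg fun R _ => hY₁0 R
  have hYR : ∀ R : Finset (Fin Nc), Y₁ R ≤ Y ∧ Y₃ R ≤ Y := by
    intro R
    have h0 : Y₁ R + Y₃ R ≤ ∑ R : Finset (Fin Nc), (Y₁ R + Y₃ R) :=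
      Finset.single_le_sum (f := fun R => Y₁ R + Y₃ R) (fun R _ => hY₁0 R) (Finset.mem_univ R)
    have h1 := (Real.exp_pos (Real.exp 1)).trans_le (hY₁ R)
    have h2 := hY₃ R
    constructor <;> linarith
  have hYY : Y₂ ≤ Y := by linarith
  have hY3 : 3 ≤ Y := hY₂.trans hYY
  have hY0 : (0 : ℝ) < Y := by linarith
  have hl : 1 ≤ Real.log Y := by
    rw [Real.le_log_iff_exp_le hY0]
    exact (Real.exp_one_lt_d9.le.trans (by norm_num)).trans hY3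
  have hl0 : 0 < Real.log Y := by linarith
  obtain ⟨L, Fr, hs, hB⟩ := hBL Y hYY L₀
  -- the set of primes
  obtain ⟨Zw, hZw⟩ : ∃ Zw : Finset (Pl K), Zw =
    E ∪ (H57.AN.PB K (Y ^ C₁')).filter (fun v => D.Gd v) := ⟨_, rfl⟩
  have hZ : ZwOk D C₁' Y Zw := by
    refine ⟨fun v hv => ?_, fun v hv hn => ?_⟩
    · rw [hZw, Finset.mem_union, Finset.mem_filter] at hv
      rcases hv with hv | ⟨-, hv⟩
      · exact hES v hv
      · exact hv.1
    · rw [hZw, Finset.mem_union, Finset.mem_filter]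
      exact Or.inr ⟨H57.AN.mem_PB.2 hn, hv⟩
  have hZ2 : ZwOk D 2 Y Zw := by
    refine ⟨hZ.1, fun v hv hn => hZ.2 v hv (hn.trans ?_)⟩
    exact Real.rpow_le_rpow_of_exponent_le (by linarith) hC2
  have hEZ : E ⊆ Zw := by
    rw [hZw]
    exact Finset.subset_union_left
  have hEO : EOk A₁ Y Zw E := ⟨hEZ, hE⟩
  -- the box lemma
  have hBB : ∀ R : Finset (Fin Nc), ∀ j < k R,
      BLat Fr A Mw ((NR c R).map (QuotientGroup.mk' (Nk (NR c R) (j + 1)))) j C₁' A₀' ε Y := by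
    intro R j _
    refine hB (P ⧸ Nk (NR c R) (j + 1)) ?_ ?_ _ j ?_ ?_
    · exact Nat.card_le_card_of_surjective _ (QuotientGroup.mk'_surjective (Nk (NR c R) (j + 1)))
    · intro x
      obtain ⟨y, rfl⟩ := QuotientGroup.mk'_surjective (Nk (NR c R) (j + 1)) x
      rw [← map_pow, hκ, map_one]
    · rw [nk_map, QuotientGroup.map_mk'_self]
    · refine le_antisymm ?_ ((Subgroup.closure_le _).2 fun x hx => hx.1)
      calc (NR c R).map (QuotientGroup.mk' (Nk (NR c R) (j + 1))) =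
            (Subgroup.closure {x | x ∈ NR c R ∧ x ^ p = 1}).map
              (QuotientGroup.mk' (Nk (NR c R) (j + 1))) :=
            congrArg (fun N : Subgroup P => N.map (QuotientGroup.mk' (Nk (NR c R) (j + 1))))
              (nr_cl c R)
        _ = Subgroup.closure ((QuotientGroup.mk' (Nk (NR c R) (j + 1))) ''
              {x | x ∈ NR c R ∧ x ^ p = 1}) := MonoidHom.map_closure _ _
        _ ≤ _ := by
            refine Subgroup.closure_mono ?_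
            rintro _ ⟨y, ⟨hy1, hy2⟩, rfl⟩
            exact ⟨Subgroup.mem_map_of_mem _ hy1, by rw [← map_pow, hy2, map_one]⟩
  -- one set of labels
  have hPE : ∀ (e : Pl K → P) (R : Finset (Fin Nc)), R ≠ Finset.univ →
      (PE L c E e R M (T0 ε Y) Y).Finite ∧ ((PE L c E e R M (T0 ε Y) Y).ncard : ℝ) ≤
        q R * W * Y * Real.log Y ^ ((Nc : ℝ) - 2 + (B₀ + 1) * ε) := by
    intro e R hR
    obtain ⟨t1, t2⟩ := top hp hζ hP L A Fr c R (k R) M Mw hMw (hk R) (T0 ε Y) C₁' Y hY3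
      (by linarith) Zw E e hZ hEZ
    refine ⟨t1, ?_⟩
    have e1 : (Nc : ℝ) - 2 + (B₀ + 1) * ε = ((Nc : ℝ) - 2 + B₀ * ε) + ε := by ring
    rw [e1, hW]
    have hX : 0 ≤ (C R * Real.log (Real.log Y)) ^ C R := by
      have h1 : 0 ≤ Real.log (Real.log Y) := Real.log_nonneg hl
      have h2 : 0 ≤ C R := by linarith [hC R]
      positivity
    have he : -2 ≤ (Nc : ℝ) - 2 + B₀ * ε := by
      have : 0 ≤ (Nc : ℝ) := Nat.cast_nonneg _
      have : 0 ≤ B₀ * ε := by positivity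
      linarith
    exact fin_num hY0.le hl (by positivity) hX (by linarith) he t2
      (h₁ R C₁' A₀' (hC1 R) (hA1 R) Y (hYR R).1 L Fr Mw (hBB R) Zw E e hZ hEO)
      (h₃ R Y (hYR R).2 L Fr Zw E e hZ2 hEO)
      (hcnt Y hY3 R hR (Zg D Zw E) fun v hv => (Finset.mem_filter.1 hv).2)
      (hq' R (Real.log Y) hl)
  -- the union
  obtain ⟨I, hI⟩ : ∃ I : Finset ((E → P) × Finset (Fin Nc)), I =
    Finset.univ ×ˢ (Finset.univ.erase Finset.univ) := ⟨_, rfl⟩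
  obtain ⟨F, hF⟩ : ∃ F : ((E → P) × Finset (Fin Nc)) → Set (Gal(Ω/K) →* P), F = fun x =>
    PE L c E (fun v => if h : v ∈ E then x.1 ⟨v, h⟩ else 1) x.2 M (T0 ε Y) Y := ⟨_, rfl⟩
  have hFb : ∀ x ∈ I, (F x).Finite ∧ ((F x).ncard : ℝ) ≤
      q x.2 * W * Y * Real.log Y ^ ((Nc : ℝ) - 2 + (B₀ + 1) * ε) := by
    intro x hx
    rw [hI, Finset.mem_product, Finset.mem_erase] at hx
    rw [hF]
    exact hPE _ _ hx.2.1
  have hsub : {φ | φ ∈ PU L₀ c E Y ∧ ∃ i, tyn L₀ c E (T0 ε Y) φ i < M} ⊆ ⋃ x ∈ I, F x := by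
    rintro φ ⟨h1, i, hi⟩
    rw [Set.mem_iUnion₂]
    obtain ⟨R, hR⟩ : ∃ R : Finset (Fin Nc), R =
      Finset.univ.filter (fun i => M ≤ tyn L c E (T0 ε Y) φ i) := ⟨_, rfl⟩
    refine ⟨(fun v => φ (L.t v.1), R), ?_, ?_⟩
    · rw [hI, Finset.mem_product, Finset.mem_erase]
      refine ⟨Finset.mem_univ _, fun h2 => ?_, Finset.mem_univ _⟩
      have h3 : i ∈ R := by
        have h4 : R = Finset.univ := h2
        rw [h4]
        exact Finset.mem_univ _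
      rw [hR, Finset.mem_filter, sim_tyn hs] at h3
      omega
    · obtain ⟨p1, p2, p3, p4⟩ := sim_pu hs c E Y φ h1
      rw [hF]
      refine ⟨p1, p2, fun v hv => ?_, p3, p4, fun j => ?_⟩
      · beta_reduce
        rw [dif_pos hv]
      · change j ∈ R ↔ _
        rw [hR, Finset.mem_filter]
        exact ⟨fun h2 => h2.2, fun h2 => ⟨Finset.mem_univ _, h2⟩⟩
  have hfin : (⋃ x ∈ I, F x).Finite := Set.Finite.biUnion I.finite_toSet fun x hx =>
    (hFb x hx).1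
  refine ⟨hfin.subset hsub, ?_⟩
  have n1 : ({φ | φ ∈ PU L₀ c E Y ∧ ∃ i, tyn L₀ c E (T0 ε Y) φ i < M}.ncard : ℝ) ≤
      ∑ x ∈ I, ((F x).ncard : ℝ) := by
    have h1 : {φ | φ ∈ PU L₀ c E Y ∧ ∃ i, tyn L₀ c E (T0 ε Y) φ i < M}.ncard ≤
        (⋃ x ∈ I, F x).ncard := Set.ncard_le_ncard hsub hfin
    have h2 : (⋃ x ∈ I, F x).ncard ≤ ∑ x ∈ I, (F x).ncard :=
      fin_un I F fun x hx => (hFb x hx).1
    exact_mod_cast h1.trans h2
  have hlp : 0 ≤ Y * Real.log Y ^ ((Nc : ℝ) - 2 + (B₀ + 1) * ε) := by positivity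
  calc ({φ | φ ∈ PU L₀ c E Y ∧ ∃ i, tyn L₀ c E (T0 ε Y) φ i < M}.ncard : ℝ) ≤
        ∑ x ∈ I, ((F x).ncard : ℝ) := n1
    _ ≤ ∑ x ∈ I, q x.2 * W * Y * Real.log Y ^ ((Nc : ℝ) - 2 + (B₀ + 1) * ε) :=
        Finset.sum_le_sum fun x hx => (hFb x hx).2
    _ = (Nat.card P : ℝ) ^ E.card * (∑ R ∈ Finset.univ.erase Finset.univ, q R * W) *
          (Y * Real.log Y ^ ((Nc : ℝ) - 2 + (B₀ + 1) * ε)) := by
        have h5 : ∀ x : (E → P) × Finset (Fin Nc), q x.2 * W * Y *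
            Real.log Y ^ ((Nc : ℝ) - 2 + (B₀ + 1) * ε) =
            q x.2 * W * (Y * Real.log Y ^ ((Nc : ℝ) - 2 + (B₀ + 1) * ε)) := fun x => by ring
        rw [Finset.sum_congr rfl fun x _ => h5 x, ← Finset.sum_mul, hI, Finset.sum_product]
        simp only [Finset.sum_const, Finset.card_univ, Fintype.card_fun, Fintype.card_coe,
          nsmul_eq_mul, Nat.cast_pow, Nat.card_eq_fintype_card]
    _ ≤ (Nat.card P : ℝ) ^ E.card * (1 + ∑ R : Finset (Fin Nc), q R * W) *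
          (Y * Real.log Y ^ ((Nc : ℝ) - 2 + (B₀ + 1) * ε)) := by
        refine mul_le_mul_of_nonneg_right (mul_le_mul_of_nonneg_left ?_ (by positivity)) hlp
        have h1 : ∑ R ∈ Finset.univ.erase Finset.univ, q R * W ≤
            ∑ R : Finset (Fin Nc), q R * W :=
          Finset.sum_le_sum_of_subset_of_nonneg (Finset.erase_subset _ _) fun R _ _ => hqW R
        linarith
    _ = _ := by ring

end H35.UB
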