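import Pool.Agent.H35.UB.Ext
import Pool.Agent.H35.CF.Ins
import Pool.Agent.H1.BD.Ub

/-!
# [H35 UB BAD] the bad part of the level step, for one linked tuple

`ZwOk`, `EOk`: the conditions on the set of primes for the words and on the exceptional primes.
`bad`: if `Φ` vanishes unless all labels of the tuple `l` occur at least `n + 2` times, then `SE Φ` is negligible, by the box inequality `BLb` for the tuple.
Proof. (1) Rankin (CF/Cnt, (2)): the configurations with more than `B log log Y` primes are negligible.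
(2) `cf_sym`: `SE Φ = ∑_f Φ'(ct f) ∑_q F(up f q l)`, `q` different large primes outside the support of `f` (for the `f` with few primes; the cut in (1) is a function of
the support: do (2) for `F` multiplied by the indicator of `#sp ≤ B log log Y`).
(3) `up f q l` has the honest reduction modulo `N` if and only if `f` has (the values `S.val (l k).1` are in `N`: `Lt.ok`), with the same `φ`;
`nc (up f q l) = nc f * ∏ nm (q k)`; the weight is the product over the support of `f` (and over the `q k`: `we` with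
`Gk k y = if y ≡ q_k then Wh ..`, `/ b`).
(4) Boxes: `lo = T (1 + δ)^j`, `hi = T (1 + δ)^(j+1)`, `δ = (log Y)^(-A')`. On a box `psi` is constant up to `C δ` (Lipschitz), the error in total is
`≤ C δ Y (log Y)^C`. For every `f`, `α`, box: one index of the family for `BLb` (`s = sp f ∪ E`, `G v` = the weight `/ b`). Only boxes with
`nc f * ∏ lo ≤ 2 Y`: so `∑ |..| ≤ 2 Y ∑ (nc f)⁻¹ (∏ lo)⁻¹ |..| ≤ 2 Y nr E b^(..) (log Y)^(-A₀)`.
-/

set_option autoImplicit false

open scoped NumberField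
open IsDedekindDomain
open scoped Classical

noncomputable section

namespace H35.UB

open H63.MA H38.BB H38.BG H57.PC H57.BRA H77.WD H77.WE H77.PC3 H35.CF

variable {K : Type} [Field K] [NumberField K] {Ω : Type} [Field Ω] [Algebra K Ω]
  {p : ℕ} {ζ : K}

/-- the set of the primes used for the words -/
def ZwOk (D : RD0 K p ζ) (C₁ Y : ℝ) (Zw : Finset (Pl K)) : Prop :=
  (∀ v ∈ Zw, v ∉ D.S0) ∧ ∀ v, D.Gd v → (nm v : ℝ) ≤ Y ^ C₁ → v ∈ Zw

/-- the exceptional primes -/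
def EOk (A₁ Y : ℝ) (Zw E : Finset (Pl K)) : Prop := E ⊆ Zw ∧ nr E ≤ Real.log Y ^ A₁

theorem psi_lip (s t : ℝ) : |psi s - psi t| ≤ |s - t| := by
  unfold psi
  refine (abs_min_sub_min_le_max _ _ _ _).trans (max_le (by rw [sub_self, abs_zero]; exact abs_nonneg _) ?_)
  refine (abs_max_sub_max_le_max _ _ _ _).trans (max_le (by rw [sub_self, abs_zero]; exact abs_nonneg _) ?_)
  rw [show 2 - s - (2 - t) = t - s by ring, abs_sub_comm]

variable [NeZero p] {P : Type} [Group P] [Fintype P] {Nc n : ℕ} {Λ : Type} [Fintype Λ]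

theorem bad (hp : p.Prime) (D : RD0 K p ζ) (A : GS D Ω) (S : LS Nc P Λ)
    (N : Subgroup P) [N.Normal] (hn : Nk N (n + 1) = ⊥) (R : Finset (Fin Nc))
    (W : Λ → P → ℝ) (b : ℝ) (hW : WOk p S N n R W b) (A₁ A₂ ε : ℝ) (hε : 0 < ε) (hε1 : ε < 1) :
    ∃ C₁ A₀ Y₀ : ℝ, 2 ≤ C₁ ∧ 0 ≤ A₀ ∧ 3 ≤ Y₀ ∧ ∀ C₁' A₀' : ℝ, C₁ ≤ C₁' → A₀ ≤ A₀' →
      ∀ Y : ℝ, Y₀ ≤ Y → ∀ (L : LDs D Ω) (Fr : FR L) (Mw : ℕ) (l : Fin (n + 2) → Le p Λ N n),
      (∀ k, S.cls (l k).1 ∈ R) → (∀ k, (tl S (l k)).ok n) →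
      BLb Fr A Mw N n C₁' A₀' ε Y (fun k => tl S (l k)) →
      ∀ Φ : (Le p Λ N n → ℕ) → ℂ, (∀ ν, ‖Φ ν‖ ≤ 1) → (∀ ν, Φ ν ≠ 0 → ∀ k, n + 2 ≤ ν (l k)) →
      ∀ (Zw E : Finset (Pl K)) (e : Pl K → P), ZwOk D C₁' Y Zw → EOk A₁ Y Zw E →
      ‖SE S L A Fr N n R Mw (T0 ε Y) Zw E e W Φ Y‖ ≤ Y * Real.log Y ^ (-A₂) := by
  obtain ⟨C, A', Cb, hC, hA', hCb, hbad⟩ := H1.BD.bad K (Le p Λ N n) (n + 2) b (|A₂| + 1) ε
    (by linarith [hW.b1]) (by positivity) hε
  obtain ⟨Y₁, hY₁⟩ := H1.BD.log_rpow_le |A₁|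
  have hb1 : 1 ≤ b := hW.b1
  have hb0 : 0 < b := by linarith
  have hlb : 0 ≤ Real.log b := Real.log_nonneg hb1
  obtain ⟨Ng, hNg⟩ : ∃ Ng : ℕ, Ng = Fintype.card (Fin A.g → P) := ⟨_, rfl⟩
  obtain ⟨Lc, hLc⟩ : ∃ Lc : ℕ, Lc = Fintype.card (Le p Λ N n) := ⟨_, rfl⟩
  have hNg1 : (1 : ℝ) ≤ Ng := by
    rw [hNg]
    exact_mod_cast Fintype.card_pos
  have hLc1 : (1 : ℝ) ≤ (Lc : ℝ) + 1 := by
    have : (0 : ℝ) ≤ Lc := Nat.cast_nonneg _
    linarith
  have hlL : 0 ≤ Real.log ((Lc : ℝ) + 1) := Real.log_nonneg hLc1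
  obtain ⟨H, hH⟩ : ∃ H : ℝ, H = Ng * Cb + b ^ (n + 2) * Real.exp (C * Real.log b) +
      Ng * Real.exp (C * Real.log ((Lc : ℝ) + 1)) + 3 := ⟨_, rfl⟩
  have hA₁ : 0 ≤ |A₁| := abs_nonneg _
  refine ⟨2 * C + 2 * |A₁| + C * Real.log ((Lc : ℝ) + 1) + 2, A' + |A₁| + C * Real.log b + 1,
    max (Real.exp H) Y₁, ?_, by positivity, ?_, ?_⟩
  · have : 0 ≤ C * Real.log ((Lc : ℝ) + 1) := by positivity
    linarith
  · refine le_trans ?_ (le_max_left _ _)
    have h1 := Real.add_one_le_exp H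
    have h2 : 3 ≤ H := by
      rw [hH]
      have : 0 ≤ Ng * Cb + b ^ (n + 2) * Real.exp (C * Real.log b) +
        Ng * Real.exp (C * Real.log ((Lc : ℝ) + 1)) := by positivity
      linarith
    linarith
  intro C₁' A₀' hC₁' hA₀' Y hY L Fb Mw l hl hok hbl Φ hΦ1 hΦ Zw E e hZ hE
  have hYe : Real.exp H ≤ Y := (le_max_left _ _).trans hY
  have hY1 : Real.log Y ^ |A₁| ≤ Y := hY₁ Y ((le_max_right _ _).trans hY)
  have hY0 : 0 < Y := (Real.exp_pos H).trans_le hYe
  have hHl : H ≤ Real.log Y := by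
    rw [Real.le_log_iff_exp_le hY0]
    exact hYe
  obtain ⟨ℓ, hℓ⟩ : ∃ ℓ, ℓ = Real.log Y := ⟨_, rfl⟩
  rw [← hℓ] at hHl hY1
  have hp1 : 0 ≤ Ng * Cb := by positivity
  have hp2 : 0 ≤ b ^ (n + 2) * Real.exp (C * Real.log b) := by positivity
  have hp3 : 0 ≤ Ng * Real.exp (C * Real.log ((Lc : ℝ) + 1)) := by positivity
  have hl3 : 3 ≤ ℓ := by linarith
  have hq1 : Ng * Cb ≤ ℓ := by linarith
  have hq2 : b ^ (n + 2) * Real.exp (C * Real.log b) ≤ ℓ := by linarith
  have hq3 : Ng * Real.exp (C * Real.log ((Lc : ℝ) + 1)) ≤ ℓ := by linarith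
  have hl0 : 0 < ℓ := by linarith
  have hl1 : 1 ≤ ℓ := by linarith
  have hY3 : 3 ≤ Y := by
    have h1 := Real.add_one_le_exp ℓ
    rw [hℓ, Real.exp_log hY0, ← hℓ] at h1
    linarith
  have hll : 1 ≤ Real.log ℓ := by
    rw [Real.le_log_iff_exp_le hl0]
    exact (Real.exp_one_lt_d9.le.trans (by norm_num)).trans hl3
  have hCL : 0 ≤ C * Real.log ((Lc : ℝ) + 1) := by positivity
  have hnrE : nr E ≤ ℓ ^ |A₁| := by
    refine hE.2.trans ?_
    rw [← hℓ]
    exact Real.rpow_le_rpow_of_exponent_le hl1 (le_abs_self _)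
  have hnrE0 : 0 < nr E := lt_of_lt_of_le one_pos (one_le_nr E)
  obtain ⟨Z, hZ'⟩ : ∃ Z, Z = Zg D Zw E := ⟨_, rfl⟩
  -- the function
  obtain ⟨F, hF⟩ : ∃ F : (Pl K → Option (Le p Λ N n)) → ℂ, F = fun c =>
      (∑ α : Fin A.g → P, if Hs L A E N (sp (Zg D Zw E) c)
          (ev A (lab E e (fun x => S.val x.1) c) α) then
        om (Zg D Zw E) (fun v x => we S N n R (T0 ε Y) W v x
          (ev A (lab E e (fun x => S.val x.1) c) α (wdE L A Mw E Zw (Fb.F v)))) c
        else 0) / (Ng : ℂ) := ⟨_, rfl⟩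
  have hNg0 : (Ng : ℂ) ≠ 0 := by
    have h1 : (0 : ℝ) < Ng := by linarith
    exact_mod_cast h1.ne'
  have hSE : SE S L A Fb N n R Mw (T0 ε Y) Zw E e W Φ Y = (Ng : ℂ) *
      ∑ c ∈ Cf (Zg D Zw E) (Le p Λ N n), Φ (ct (Zg D Zw E) (fun v => T0 ε Y < (nm v : ℝ)) c) *
        ((psi (nr (sp (Zg D Zw E) c) / Y) : ℝ) : ℂ) * F c := by
    unfold SE
    rw [Finset.mul_sum]
    refine Finset.sum_congr rfl fun c _ => ?_
    rw [hF]
    dsimp only
    rw [mul_comm (Ng : ℂ), mul_assoc, div_mul_cancel₀ _ hNg0, Finset.mul_sum]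
    refine Finset.sum_congr rfl fun α _ => ?_
    rw [mul_ite, mul_zero]
    rfl
  have h := hbad Y hY3 (Zg D Zw E) (fun v => T0 ε Y < (nm v : ℝ)) (fun v hv => hv) l Φ hΦ1 hΦ psi
    (fun t => by rw [abs_of_nonneg (psi_nonneg t)]; exact psi_le_one t) (fun t ht => psi_zero ht)
    psi_lip F ?_ ?_
  · rw [hSE, norm_mul, Complex.norm_natCast]
    refine (mul_le_mul_of_nonneg_left h (by linarith)).trans ?_
    rw [← hℓ]
    have h1 : ℓ ^ (-(|A₂| + 1)) * ℓ ≤ ℓ ^ (-A₂) := by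
      have h2 : ℓ ^ (-(|A₂| + 1)) * ℓ = ℓ ^ (-|A₂|) := by
        rw [← Real.rpow_add_one hl0.ne']
        congr 1
        ring
      rw [h2]
      exact Real.rpow_le_rpow_of_exponent_le hl1 (neg_le_neg (le_abs_self _))
    calc (Ng : ℝ) * (Cb * Y * ℓ ^ (-(|A₂| + 1))) = (Ng * Cb) * (Y * ℓ ^ (-(|A₂| + 1))) := by ring
      _ ≤ ℓ * (Y * ℓ ^ (-(|A₂| + 1))) := mul_le_mul_of_nonneg_right hq1 (by positivity)
      _ = Y * (ℓ ^ (-(|A₂| + 1)) * ℓ) := by ring
      _ ≤ Y * ℓ ^ (-A₂) := mul_le_mul_of_nonneg_left h1 hY0.le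
  · intro c _
    rw [hF]
    dsimp only
    rw [norm_div, Complex.norm_natCast, div_le_iff₀ (by linarith)]
    refine (norm_sum_le _ _).trans ?_
    have h1 : ∀ α ∈ (Finset.univ : Finset (Fin A.g → P)), ‖(if Hs L A E N (sp (Zg D Zw E) c)
          (ev A (lab E e (fun x => S.val x.1) c) α) then
        om (Zg D Zw E) (fun v x => we S N n R (T0 ε Y) W v x
          (ev A (lab E e (fun x => S.val x.1) c) α (wdE L A Mw E Zw (Fb.F v)))) c
        else 0)‖ ≤ b ^ (sp (Zg D Zw E) c).card := by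
      intro α _
      split_ifs
      · rw [om_norm]
        exact om_le_pow _ _ b (fun v x => ⟨norm_nonneg _, H1.BD.we_b hW v x _⟩) c
      · rw [norm_zero]
        positivity
    refine (Finset.sum_le_sum h1).trans (le_of_eq ?_)
    rw [Finset.sum_const, Finset.card_univ, nsmul_eq_mul, hNg, mul_comm]
  · intro lo hi hlh
    rw [← hℓ] at hlh ⊢
    have hCC : C ≤ C₁' := by linarith
    have hpos : ∀ k, 0 < lo k := fun k => lt_of_lt_of_le (Real.exp_pos _) (hlh k).1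
    have hlh' : ∀ k, T0 ε Y ≤ lo k ∧ lo k ≤ hi k ∧ hi k ≤ 2 * lo k ∧ hi k ≤ Y ^ C₁' := by
      intro k
      refine ⟨?_, (hlh k).2.1, (hlh k).2.2.1, (hlh k).2.2.2.trans ?_⟩
      · unfold T0
        rw [← hℓ]
        exact (hlh k).1
      · exact Real.rpow_le_rpow_of_exponent_le (by linarith) hCC
    have hfam := H1.BD.bxd_fam S L A Fb N hn R Mw ε Y C C₁' A₀' Zw E e W b hW l hbl hZ.1 hZ.2 hE.1
      (C * (1 + Real.log ℓ)) ?_ ?_ ?_ lo hi hlh' (by rw [← hℓ]; exact hl0.le)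
    · rw [← hℓ] at hfam
      have hK : ∀ c ∈ (Cf (Zg D Zw E) (Le p Λ N n)).filter
          (fun c => nr (sp (Zg D Zw E) c) ≤ Y ^ C ∧
            ((sp (Zg D Zw E) c).card : ℝ) ≤ C * (1 + Real.log ℓ)),
          (nr (sp (Zg D Zw E) c))⁻¹ * (∏ k, lo k)⁻¹ *
          ‖∑ q ∈ (Fr (Zg D Zw E) (fun v => T0 ε Y < (nm v : ℝ)) c (n + 2)).filter
            (fun q => ∀ k, lo k < nm (q k) ∧ (nm (q k) : ℝ) ≤ hi k), F (up c q l)‖ ≤
          (ℓ ^ |A₁| * (b ^ (n + 2) * (Real.exp (C * Real.log b) * ℓ ^ (C * Real.log b)))) *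
          ∑ α : Fin A.g → P, (if Hs L A E N (sp (Zg D Zw E) c)
          (ev A (lab E e (fun x => S.val x.1) c) α) then
          (nr (sp (Zg D Zw E) c ∪ E))⁻¹ * (∏ k, lo k)⁻¹ *
          ‖(H1.BD.bxd S L A N n R (T0 ε Y) Zw E e W b lo hi c α).sm Fb Mw E Zw
            (fun k => tl S (l k)) (H1.BD.bxk N W b l)‖ else 0) := by
        intro c hc
        rw [Finset.mem_filter] at hc
        have h1 := H1.BD.bxd_norm S L A Fb N R Mw (T0 ε Y) Zw E e W b hb0 l hl
          (fun k => (hok k).1) lo hi (fun k => (hlh' k).1) c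
        have h2 : ‖∑ q ∈ (Fr (Zg D Zw E) (fun v => T0 ε Y < (nm v : ℝ)) c (n + 2)).filter
            (fun q => ∀ k, lo k < nm (q k) ∧ (nm (q k) : ℝ) ≤ hi k), F (up c q l)‖ ≤
            b ^ ((sp (Zg D Zw E) c).card + (n + 2)) *
            ∑ α : Fin A.g → P, (if Hs L A E N (sp (Zg D Zw E) c)
              (ev A (lab E e (fun x => S.val x.1) c) α) then
            ‖(H1.BD.bxd S L A N n R (T0 ε Y) Zw E e W b lo hi c α).sm Fb Mw E Zw
              (fun k => tl S (l k)) (H1.BD.bxk N W b l)‖ else 0) := by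
          rw [hF]
          dsimp only
          rw [← Finset.sum_div, norm_div, Complex.norm_natCast]
          exact (div_le_self (norm_nonneg _) hNg1).trans h1
        have h3 : b ^ ((sp (Zg D Zw E) c).card + (n + 2)) ≤
            b ^ (n + 2) * (Real.exp (C * Real.log b) * ℓ ^ (C * Real.log b)) := by
          rw [pow_add, mul_comm]
          exact mul_le_mul_of_nonneg_left (H1.BD.pow_le_ll b C ℓ hb1 hl0 _ hc.2.2) (by positivity)
        have hdis : Disjoint (sp (Zg D Zw E) c) E := by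
          rw [Finset.disjoint_left]
          intro v h1 h2
          rw [mem_sp] at h1
          unfold Zg at h1
          rw [Finset.mem_filter, Finset.mem_sdiff] at h1
          exact h1.1.1.2 h2
        have h4 : (nr (sp (Zg D Zw E) c))⁻¹ ≤ ℓ ^ |A₁| * (nr (sp (Zg D Zw E) c ∪ E))⁻¹ := by
          rw [nr_union hdis, mul_inv]
          have h5 : 0 < nr (sp (Zg D Zw E) c) := lt_of_lt_of_le one_pos (one_le_nr _)
          calc (nr (sp (Zg D Zw E) c))⁻¹
              = nr E * ((nr (sp (Zg D Zw E) c))⁻¹ * (nr E)⁻¹) := by field_simp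
            _ ≤ ℓ ^ |A₁| * ((nr (sp (Zg D Zw E) c))⁻¹ * (nr E)⁻¹) :=
              mul_le_mul_of_nonneg_right hnrE (by positivity)
        have hpl : 0 ≤ (∏ k, lo k)⁻¹ := inv_nonneg.2 (Finset.prod_nonneg fun k _ => (hpos k).le)
        have hn0 : 0 ≤ (nr (sp (Zg D Zw E) c ∪ E))⁻¹ :=
          inv_nonneg.2 (zero_le_one.trans (one_le_nr _))
        have hs0 : 0 ≤ ∑ α : Fin A.g → P, (if Hs L A E N (sp (Zg D Zw E) c)
              (ev A (lab E e (fun x => S.val x.1) c) α) then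
            ‖(H1.BD.bxd S L A N n R (T0 ε Y) Zw E e W b lo hi c α).sm Fb Mw E Zw
              (fun k => tl S (l k)) (H1.BD.bxk N W b l)‖ else 0) := by
          refine Finset.sum_nonneg fun α _ => ?_
          split_ifs
          · exact norm_nonneg _
          · exact le_rfl
        calc (nr (sp (Zg D Zw E) c))⁻¹ * (∏ k, lo k)⁻¹ *
              ‖∑ q ∈ (Fr (Zg D Zw E) (fun v => T0 ε Y < (nm v : ℝ)) c (n + 2)).filter
              (fun q => ∀ k, lo k < nm (q k) ∧ (nm (q k) : ℝ) ≤ hi k), F (up c q l)‖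
            ≤ (ℓ ^ |A₁| * (nr (sp (Zg D Zw E) c ∪ E))⁻¹) * (∏ k, lo k)⁻¹ *
              ((b ^ (n + 2) * (Real.exp (C * Real.log b) * ℓ ^ (C * Real.log b))) *
              ∑ α : Fin A.g → P, (if Hs L A E N (sp (Zg D Zw E) c)
                (ev A (lab E e (fun x => S.val x.1) c) α) then
              ‖(H1.BD.bxd S L A N n R (T0 ε Y) Zw E e W b lo hi c α).sm Fb Mw E Zw
                (fun k => tl S (l k)) (H1.BD.bxk N W b l)‖ else 0)) := by
              refine mul_le_mul (mul_le_mul_of_nonneg_right h4 hpl)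
                (h2.trans (mul_le_mul_of_nonneg_right h3 hs0)) (norm_nonneg _) ?_
              exact mul_nonneg (mul_nonneg (by positivity) hn0) hpl
          _ = (ℓ ^ |A₁| * (b ^ (n + 2) * (Real.exp (C * Real.log b) * ℓ ^ (C * Real.log b)))) *
              ∑ α : Fin A.g → P, (nr (sp (Zg D Zw E) c ∪ E))⁻¹ * (∏ k, lo k)⁻¹ *
              (if Hs L A E N (sp (Zg D Zw E) c)
                (ev A (lab E e (fun x => S.val x.1) c) α) then
              ‖(H1.BD.bxd S L A N n R (T0 ε Y) Zw E e W b lo hi c α).sm Fb Mw E Zw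
                (fun k => tl S (l k)) (H1.BD.bxk N W b l)‖ else 0) := by
              rw [← Finset.mul_sum]
              ring
          _ = _ := by
              congr 1
              refine Finset.sum_congr rfl fun α _ => ?_
              rw [mul_ite, mul_zero]
      refine (Finset.sum_le_sum hK).trans ?_
      rw [← Finset.mul_sum]
      have h5 : ℓ ^ (-A₀') ≤ ℓ ^ (-(A' + |A₁| + C * Real.log b + 1)) :=
        Real.rpow_le_rpow_of_exponent_le hl1 (neg_le_neg hA₀')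
      refine (mul_le_mul_of_nonneg_left (hfam.trans h5) (by positivity)).trans ?_
      calc (ℓ ^ |A₁| * (b ^ (n + 2) * (Real.exp (C * Real.log b) * ℓ ^ (C * Real.log b)))) *
            ℓ ^ (-(A' + |A₁| + C * Real.log b + 1))
          = (b ^ (n + 2) * Real.exp (C * Real.log b)) *
            (ℓ ^ |A₁| * ℓ ^ (C * Real.log b) * ℓ ^ (-(A' + |A₁| + C * Real.log b + 1))) := by ring
        _ ≤ ℓ * (ℓ ^ |A₁| * ℓ ^ (C * Real.log b) * ℓ ^ (-(A' + |A₁| + C * Real.log b + 1))) :=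
            mul_le_mul_of_nonneg_right hq2 (by positivity)
        _ = ℓ ^ (-A') := by
            rw [← Real.rpow_add hl0, ← Real.rpow_add hl0, mul_comm, ← Real.rpow_add_one hl0.ne']
            congr 1
            ring
    · intro t ht
      have h1 : nr (t ∪ E) ≤ nr t * nr E := H63.MA.akb_nr_union t E
      refine h1.trans ?_
      have h2 : nr t * nr E ≤ Y ^ C * Y := by
        refine mul_le_mul ht (hnrE.trans hY1) hnrE0.le (by positivity)
      refine h2.trans ?_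
      rw [← Real.rpow_add_one hY0.ne']
      exact Real.rpow_le_rpow_of_exponent_le (by linarith) (by linarith)
    · intro t ht
      rw [← hℓ]
      have h1 : ((t ∪ E).card : ℝ) ≤ t.card + E.card := by exact_mod_cast Finset.card_union_le t E
      have h2 : (E.card : ℝ) ≤ 2 * |A₁| * Real.log ℓ := by
        have h3 := H1.BD.card_le_nr E
        have h4 : Real.log (nr E) ≤ |A₁| * Real.log ℓ := by
          rw [← Real.log_rpow hl0]
          exact Real.log_le_log hnrE0 hnrE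
        have h5 := Real.log_two_gt_d9
        have h6 : (0 : ℝ) ≤ E.card := Nat.cast_nonneg _
        nlinarith
      have h7 : 0 ≤ C * Real.log ((Lc : ℝ) + 1) * Real.log ℓ := by positivity
      have h8 : (2 * C + 2 * |A₁| + C * Real.log ((Lc : ℝ) + 1) + 2) * Real.log ℓ ≤
          C₁' * Real.log ℓ := mul_le_mul_of_nonneg_right hC₁' (by linarith)
      nlinarith
    · intro k hk
      rw [← hℓ, ← hNg, ← hLc]
      have h1 : (Lc : ℝ) ^ k ≤ ((Lc : ℝ) + 1) ^ k :=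
        pow_le_pow_left₀ (Nat.cast_nonneg _) (by linarith) k
      have h2 := H1.BD.pow_le_ll ((Lc : ℝ) + 1) C ℓ hLc1 hl0 k hk
      calc (Ng : ℝ) * (Lc : ℝ) ^ k
          ≤ Ng * (Real.exp (C * Real.log ((Lc : ℝ) + 1)) * ℓ ^ (C * Real.log ((Lc : ℝ) + 1))) :=
            mul_le_mul_of_nonneg_left (h1.trans h2) (by linarith)
        _ = (Ng * Real.exp (C * Real.log ((Lc : ℝ) + 1))) *
              ℓ ^ (C * Real.log ((Lc : ℝ) + 1)) := by ring
        _ ≤ ℓ * ℓ ^ (C * Real.log ((Lc : ℝ) + 1)) :=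
            mul_le_mul_of_nonneg_right hq3 (by positivity)
        _ = ℓ ^ (C * Real.log ((Lc : ℝ) + 1) + 1) := by
            rw [Real.rpow_add_one hl0.ne', mul_comm]
        _ ≤ ℓ ^ C₁' := Real.rpow_le_rpow_of_exponent_le hl1 (by linarith)

end H35.UB
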