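import Pool.Agent.H35.UB.Als

/-!
# [H35 UB STP] the level step for the exact labels

`stp`: `SA(Gd (k+1)) ≤ (C log log Y)^C SA(Gd k) + Y (log Y)^(-A₂)` for the exact labels (`LSx`, `N = NR c R`), given `BLat` for the group
`P' = P ⧸ Nk N (k+1)` and `N' = N / Nk N (k+1)`.
Proof. Labels `Λ = Fin Nc × P'`: `val = snd`, `cls = fst`, `mu (i, g') = #{g of class i over g'}`, `W (i, g') x' = ∑_(g of class i over g') Gd N (k+1) g x` (`x` over
`x'`, `gd_inv`), `b = card P`. By `cf_fib` for the map `Px P → Λ`, and since the words modulo `Nk N (k+1)` depend on the labels modulo `Nk N (k+1)` only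
(`ev` commutes with the projection; `∑_α` over `P` is `card (Nk N (k+1)) ^ g` times the sum over `P'`; `Hs` for `N` is `Hs` for `N'`: `P ⧸ N ≃* P' ⧸ N'`):
`SA(LSx, Gd (k+1)) = card (Nk N (k+1)) ^ g * SA(Λ, W)` and in the same way `SA(LSx, Gd k) = card (Nk N (k+1)) ^ g * SA(Λ, wav W)` because
`wav W (i, g') x' = ∑_g Gd N k g x` (`gd_avg`; the sum over `u ∈ Nk N k` is a multiple of the sum over `Nk N' k`, `nk_map`).
`als` for `(P', N', n = k)` (`hV`: `nk_exp`, `nr_cl`). The conditions `WOk`: `w0`: `gd_le_one`, at most `card P` terms; `wN`: `g ∈ N` for a class in `R`; `winv`: `gd_conj` (conjugation by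
`z ∈ Nk N k` maps the elements of class `i` over `g'` to themselves: `[z, g] ∈ Nk N (k+1)` for `g ∈ N`); `wfix`: `gd_fix`; `span`: the classes in `R` generate `N` as a normal subgroup, and a
normal subgroup contains a class if it contains one of its elements.
-/

set_option autoImplicit false

open scoped NumberField
open IsDedekindDomain
open scoped Classical

noncomputable section

namespace H35.UB

open H63.MA H38.BB H38.BG H57.PC H57.BRA H77.WD H77.WE H77.PC3 H35.CF

instance map_mk_normal {P : Type} [Group P] (N M : Subgroup P) [N.Normal] [M.Normal] :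
    (N.map (QuotientGroup.mk' M)).Normal :=
  Subgroup.Normal.map inferInstance _ (QuotientGroup.mk'_surjective _)

/-- the sum of a function of the image -/
private theorem sum_hom {G H : Type} [Group G] [Group H] [Fintype G] [Fintype H] (f : G →* H)
    (hf : Function.Surjective f) (Φ : H → ℝ) :
    ∑ g, Φ (f g) = ((Nat.card G : ℝ) / Nat.card H) * ∑ h, Φ h := by
  have h1 : ∀ Ψ : H → ℝ, ∑ g, Ψ (f g) =
      ((Finset.univ.filter fun g => f g = 1).card : ℝ) * ∑ h, Ψ h := by
    intro Ψ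
    rw [← Finset.sum_fiberwise Finset.univ f (fun g => Ψ (f g)), Finset.mul_sum]
    refine Finset.sum_congr rfl fun h _ => ?_
    have h2 : ∑ g ∈ Finset.univ.filter (fun g => f g = h), Ψ (f g) =
        ∑ g ∈ Finset.univ.filter (fun g => f g = h), Ψ h :=
      Finset.sum_congr rfl fun g hg => by rw [(Finset.mem_filter.1 hg).2]
    rw [h2, Finset.sum_const, nsmul_eq_mul,
      MonoidHom.card_fiber_eq_of_mem_range f (x := h) (y := 1) (hf h) (hf 1)]
  have h3 := h1 fun _ => 1
  rw [Finset.sum_const, Finset.sum_const, Finset.card_univ, Finset.card_univ, nsmul_eq_mul,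
    nsmul_eq_mul, mul_one, mul_one, ← Nat.card_eq_fintype_card, ← Nat.card_eq_fintype_card] at h3
  have h4 : (Nat.card H : ℝ) ≠ 0 := Nat.cast_ne_zero.2 Nat.card_pos.ne'
  rw [h1 Φ, h3, mul_div_assoc, div_self h4, mul_one]

section grp

variable {P Q : Type} [Group P] [Group Q] {p Nc : ℕ}

/-- the isomorphism of the quotients -/
private theorem quo (π : P →* Q) (hπ : Function.Surjective π) (N : Subgroup P) [N.Normal]
    [(N.map π).Normal] (hN : π.ker ≤ N) :
    ∃ j : P ⧸ N ≃* Q ⧸ N.map π, ∀ x : P, j (x : P ⧸ N) = (π x : Q ⧸ N.map π) := by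
  refine ⟨MulEquiv.ofBijective (QuotientGroup.map N (N.map π) π (Subgroup.le_comap_map π N))
    ⟨?_, ?_⟩, fun x => ?_⟩
  · rw [injective_iff_map_eq_one]
    intro x
    induction x using QuotientGroup.induction_on with
    | H x =>
      intro h
      rw [QuotientGroup.map_mk, QuotientGroup.eq_one_iff] at h
      obtain ⟨y, hy, hxy⟩ := h
      rw [QuotientGroup.eq_one_iff]
      have h1 : y⁻¹ * x ∈ π.ker := by
        rw [MonoidHom.mem_ker, map_mul, map_inv, hxy, inv_mul_cancel]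
      have h2 := N.mul_mem hy (hN h1)
      rwa [mul_inv_cancel_left] at h2
  · intro y
    induction y using QuotientGroup.induction_on with
    | H y =>
      obtain ⟨x, rfl⟩ := hπ y
      exact ⟨(x : P ⧸ N), rfl⟩
  · rfl

/-- the map of the labels -/
private def vp (c : CL p Nc P) (π : P →* Q) (x : Px c) : Fin Nc × Q := (cid x, π x.1)

/-- the labels modulo the kernel -/
private def LSq [Fintype P] (c : CL p Nc P) (π : P →* Q) : LS Nc Q (Fin Nc × Q) :=
  ⟨Prod.snd, Prod.fst, fun y => ((Finset.univ.filter fun x : Px c => vp c π x = y).card : ℝ)⟩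

/-- the sums of the weights -/
private def Wq [Fintype P] (c : CL p Nc P) (π : P →* Q) (hπ : Function.Surjective π)
    (G : Px c → P → ℝ) (y : Fin Nc × Q) (z : Q) : ℝ :=
  ∑ x ∈ Finset.univ.filter (fun x : Px c => vp c π x = y), G x (Function.surjInv hπ z)

end grp

section loc

variable {K : Type} [Field K] [NumberField K] {Ω : Type} [Field Ω] [Algebra K Ω]
  {p : ℕ} {ζ : K} {D : RD0 K p ζ} {P Q : Type} [Group P] [Group Q] {Nc : ℕ}

private theorem ev_map (A : GS D Ω) (π : P →* Q) (g : Pl K → P) (α : Fin A.g → P) :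
    π.comp (ev A g α) = ev A (fun v => π (g v)) (fun i => π (α i)) := by
  refine FreeGroup.ext_hom _ _ fun x => ?_
  unfold ev
  rw [MonoidHom.comp_apply, FreeGroup.lift_apply_of, FreeGroup.lift_apply_of]
  rcases x with v | i <;> rfl

private theorem lab_map (c : CL p Nc P) (π : P →* Q) (E : Finset (Pl K)) (e : Pl K → P)
    (f : Pl K → Option (Px c)) (v : Pl K) :
    π (lab E e (LSx c).val f v) =
      lab E (fun v => π (e v)) (Prod.snd : Fin Nc × Q → Q) (mp (vp c π) f) v := by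
  unfold lab mp
  by_cases h : v ∈ E
  · rw [if_pos h, if_pos h]
  · rw [if_neg h, if_neg h]
    cases hf : f v with
    | none => exact map_one π
    | some x => rfl

private theorem ev_lab (A : GS D Ω) (c : CL p Nc P) (π : P →* Q) (E : Finset (Pl K))
    (e : Pl K → P) (f : Pl K → Option (Px c)) (α : Fin A.g → P) :
    π.comp (ev A (lab E e (LSx c).val f) α) =
      ev A (lab E (fun v => π (e v)) (Prod.snd : Fin Nc × Q → Q) (mp (vp c π) f))
        (fun i => π (α i)) := by
  rw [ev_map]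
  congr 1
  exact funext fun v => lab_map c π E e f v

private theorem hs_map (π : P →* Q) (hπ : Function.Surjective π) (N : Subgroup P) [N.Normal]
    [(N.map π).Normal] (hN : π.ker ≤ N) (L : LDs D Ω) (A : GS D Ω) (E n : Finset (Pl K))
    (θ : FW A →* P) : Hs L A E N n θ ↔ Hs L A E (N.map π) n (π.comp θ) := by
  obtain ⟨j, hj⟩ := quo π hπ N hN
  have hj1 : j.toMonoidHom.comp (QuotientGroup.mk' N) = (QuotientGroup.mk' (N.map π)).comp π :=
    MonoidHom.ext fun x => hj x
  have hj2 : j.symm.toMonoidHom.comp ((QuotientGroup.mk' (N.map π)).comp π) =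
      QuotientGroup.mk' N := by
    rw [← hj1]
    refine MonoidHom.ext fun x => ?_
    exact j.symm_apply_apply _
  constructor
  · rintro ⟨φ, h1, h2, h3⟩
    refine ⟨j.toMonoidHom.comp φ, h1.comp _, j.surjective.comp h2, ?_⟩
    rw [hat_comp, h3, ← MonoidHom.comp_assoc, hj1, MonoidHom.comp_assoc]
  · rintro ⟨φ, h1, h2, h3⟩
    refine ⟨j.symm.toMonoidHom.comp φ, h1.comp _, j.symm.surjective.comp h2, ?_⟩
    rw [hat_comp, h3, ← MonoidHom.comp_assoc θ π (QuotientGroup.mk' (N.map π)),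
      ← MonoidHom.comp_assoc, hj2]

private theorem cn_map (c : CL p Nc P) (π : P →* Q) (Z : Finset (Pl K)) (T : ℝ)
    (f : Pl K → Option (Px c)) (i : Fin Nc) :
    cn (LSx c).cls Z T f i = cn (Prod.fst : Fin Nc × Q → Fin Nc) Z T (mp (vp c π) f) i := by
  unfold cn
  congr 1
  refine Finset.filter_congr fun v _ => ?_
  have h : (mp (vp c π) f v).map (Prod.fst : Fin Nc × Q → Fin Nc) = (f v).map (LSx c).cls := by
    unfold mp
    rw [Option.map_map]
    rfl
  rw [h]

private theorem sp_map {V Λ Λ' : Type} (Z : Finset V) (π : Λ → Λ') (f : V → Option Λ) :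
    sp Z (mp π f) = sp Z f := by
  unfold sp mp
  refine Finset.filter_congr fun v _ => ?_
  rw [Ne, Ne, Option.map_eq_none_iff]

/-- the reduction of the labels modulo the kernel -/
private theorem sa_red [Fintype P] [Fintype Q] (π : P →* Q) (hπ : Function.Surjective π)
    (N : Subgroup P) [N.Normal] [(N.map π).Normal] (hN : π.ker ≤ N) (c : CL p Nc P)
    (L : LDs D Ω) (A : GS D Ω) (Fr : FR L) (R : Finset (Fin Nc)) (M Mw : ℕ) (T : ℝ)
    (Zw E : Finset (Pl K)) (e : Pl K → P) (G : Px c → P → ℝ)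
    (hG : ∀ g x y, π x = π y → G g x = G g y) (Y : ℝ) :
    SA (LSx c) L A Fr N R M Mw T Zw E e G Y =
      ((Nat.card (Fin A.g → P) : ℝ) / Nat.card (Fin A.g → Q)) *
        SA (LSq c π) L A Fr (N.map π) R M Mw T Zw E (fun v => π (e v)) (Wq c π hπ G) Y := by
  set Z := Zg D Zw E with hZ
  -- the local weights
  set a : (Fin A.g → Q) → (Pl K → Option (Fin Nc × Q)) → Pl K → Px c → ℝ := fun β f v x =>
    if RL (LSx c).cls R T v x then G x (Function.surjInv hπ
      (ev A (lab E (fun v => π (e v)) (LSq c π).val f) β (wdE L A Mw E Zw (Fr.F v))))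
    else (LSx c).mu x with ha
  set F : (Fin A.g → Q) → (Pl K → Option (Fin Nc × Q)) → ℝ := fun β f =>
    if Pat (LSq c π).cls R Z T M f ∧
      Hs L A E (N.map π) (sp Z f) (ev A (lab E (fun v => π (e v)) (LSq c π).val f) β) then
      psi (nc Z f / Y) else 0 with hF
  have h1 : ∀ f ∈ Cf Z (Px c), ∀ α : Fin A.g → P,
      (if Pat (LSx c).cls R Z T M f ∧
        Hs L A E N (sp Z f) (ev A (lab E e (LSx c).val f) α) then
        psi (nc Z f / Y) * om Z (fun v x =>
          if RL (LSx c).cls R T v x then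
            G x (ev A (lab E e (LSx c).val f) α (wdE L A Mw E Zw (Fr.F v)))
          else (LSx c).mu x) f
      else 0) = F (fun i => π (α i)) (mp (vp c π) f) *
        om Z (a (fun i => π (α i)) (mp (vp c π) f)) f := by
    intro f _ α
    have hev : π.comp (ev A (lab E e (LSx c).val f) α) =
        ev A (lab E (fun v => π (e v)) (LSq c π).val (mp (vp c π) f)) (fun i => π (α i)) :=
      ev_lab A c π E e f α
    have e1 : (Pat (LSx c).cls R Z T M f ∧
        Hs L A E N (sp Z f) (ev A (lab E e (LSx c).val f) α)) ↔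
        (Pat (LSq c π).cls R Z T M (mp (vp c π) f) ∧ Hs L A E (N.map π) (sp Z (mp (vp c π) f))
          (ev A (lab E (fun v => π (e v)) (LSq c π).val (mp (vp c π) f)) (fun i => π (α i)))) := by
      rw [sp_map, ← hev, ← hs_map π hπ N hN]
      refine and_congr_left fun _ => ?_
      unfold Pat
      refine forall_congr' fun i => ?_
      rw [cn_map c π]
      rfl
    have e2 : nc Z (mp (vp c π) f) = nc Z f := by
      unfold nc
      rw [sp_map]
    have e3 : om Z (fun v x =>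
          if RL (LSx c).cls R T v x then
            G x (ev A (lab E e (LSx c).val f) α (wdE L A Mw E Zw (Fr.F v)))
          else (LSx c).mu x) f = om Z (a (fun i => π (α i)) (mp (vp c π) f)) f := by
      congr 1
      funext v x
      rw [ha]
      beta_reduce
      split_ifs with hRL
      · refine hG _ _ _ ?_
        rw [Function.surjInv_eq hπ, ← hev]
        rfl
      · rfl
    rw [hF]
    beta_reduce
    rw [e3, e2]
    by_cases h : Pat (LSx c).cls R Z T M f ∧
        Hs L A E N (sp Z f) (ev A (lab E e (LSx c).val f) α)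
    · rw [if_pos h, if_pos (e1.1 h)]
    · rw [if_neg h, if_neg (fun h' => h (e1.2 h')), zero_mul]
  have h2 : SA (LSx c) L A Fr N R M Mw T Zw E e G Y = ∑ α : Fin A.g → P,
      ∑ f ∈ Cf Z (Fin Nc × Q), F (fun i => π (α i)) f *
        om Z (fun v y => ∑ x ∈ Finset.univ.filter (fun x => vp c π x = y),
          a (fun i => π (α i)) f v x) f := by
    unfold SA
    rw [Finset.sum_comm]
    refine Finset.sum_congr rfl fun α _ => ?_
    refine (Finset.sum_congr rfl fun f hf => h1 f hf α).trans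
      ((cf_fib Z (vp c π) (F fun i => π (α i)) (a fun i => π (α i))).trans ?_)
    refine Finset.sum_congr rfl fun f _ => ?_
    congr!
  have h3 : SA (LSq c π) L A Fr (N.map π) R M Mw T Zw E (fun v => π (e v)) (Wq c π hπ G) Y =
      ∑ β : Fin A.g → Q, ∑ f ∈ Cf Z (Fin Nc × Q), F β f *
        om Z (fun v y => ∑ x ∈ Finset.univ.filter (fun x => vp c π x = y), a β f v x) f := by
    unfold SA
    rw [Finset.sum_comm]
    refine Finset.sum_congr rfl fun β _ => Finset.sum_congr rfl fun f _ => ?_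
    have e3 : om Z (fun v x =>
          if RL (LSq c π).cls R T v x then
            Wq c π hπ G x (ev A (lab E (fun v => π (e v)) (LSq c π).val f) β
              (wdE L A Mw E Zw (Fr.F v)))
          else (LSq c π).mu x) f =
        om Z (fun v y => ∑ x ∈ Finset.univ.filter (fun x => vp c π x = y), a β f v x) f := by
      congr 1
      funext v y
      have h4 : ∀ x ∈ Finset.univ.filter (fun x : Px c => vp c π x = y),
          (RL (LSx c).cls R T v x ↔ RL (LSq c π).cls R T v y) := by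
        intro x hx
        rw [← (Finset.mem_filter.1 hx).2]
        rfl
      split_ifs with hRL
      · unfold Wq
        refine Finset.sum_congr rfl fun x hx => ?_
        rw [ha]
        beta_reduce
        rw [if_pos ((h4 x hx).2 hRL)]
      · have h5 : ∀ x ∈ Finset.univ.filter (fun x : Px c => vp c π x = y), a β f v x = 1 := by
          intro x hx
          rw [ha]
          beta_reduce
          rw [if_neg fun h => hRL ((h4 x hx).1 h)]
          rfl
        rw [Finset.sum_congr rfl h5, Finset.sum_const, nsmul_eq_mul, mul_one]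
        rfl
    rw [e3, hF]
    beta_reduce
    by_cases h : Pat (LSq c π).cls R Z T M f ∧
      Hs L A E (N.map π) (sp Z f) (ev A (lab E (fun v => π (e v)) (LSq c π).val f) β)
    · rw [if_pos h, if_pos h]
    · rw [if_neg h, if_neg h, zero_mul]
  rw [h2, h3]
  exact sum_hom (MonoidHom.pi fun i => π.comp (Pi.evalMonoidHom (fun _ : Fin A.g => P) i))
    (fun β => ⟨fun i => Function.surjInv hπ (β i), funext fun i => Function.surjInv_eq hπ (β i)⟩)
    (fun β => ∑ f ∈ Cf Z (Fin Nc × Q), F β f *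
        om Z (fun v y => ∑ x ∈ Finset.univ.filter (fun x => vp c π x = y), a β f v x) f)

end loc

section wok

variable {P Q : Type} [Group P] [Group Q] {p Nc : ℕ}

private theorem gd_ker [Fintype P] (π : P →* Q) (N : Subgroup P) (k : ℕ) (hk : π.ker ≤ Nk N k)
    (g x y : P) (h : π x = π y) : Gd N k g x = Gd N k g y := by
  have h1 : x⁻¹ * y ∈ Nk N k := by
    refine hk ?_
    rw [MonoidHom.mem_ker, map_mul, map_inv, h, inv_mul_cancel]
  have h2 := gd_inv N k g x _ h1
  rwa [mul_inv_cancel_left, eq_comm] at h2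

private theorem nr_mem (c : CL p Nc P) (R : Finset (Fin Nc)) (x : Px c) (h : cid x ∈ R) :
    x.1 ∈ NR c R := Subgroup.subset_normalClosure ⟨cid x, h, cid_spec x⟩

private theorem px_pow (c : CL p Nc P) (x : Px c) : x.1 ^ p = 1 := by
  obtain ⟨i, hi⟩ := x.2
  obtain ⟨a, ha⟩ := isConj_iff.1 hi.symm
  rw [← ha, conj_pow, c.pow, mul_one, mul_inv_cancel]

private theorem wq_ne [Fintype P] (c : CL p Nc P) (π : P →* Q) (hπ : Function.Surjective π)
    (G : Px c → P → ℝ) (y : Fin Nc × Q) (z : Q) (h : Wq c π hπ G y z ≠ 0) :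
    ∃ x : Px c, cid x = y.1 ∧ π x.1 = y.2 ∧ G x (Function.surjInv hπ z) ≠ 0 := by
  obtain ⟨x, hx, hx2⟩ := Finset.exists_ne_zero_of_sum_ne_zero h
  have h1 := (Finset.mem_filter.1 hx).2
  exact ⟨x, congrArg Prod.fst h1, congrArg Prod.snd h1, hx2⟩

private theorem px_card [Fintype P] (c : CL p Nc P) (s : Finset (Px c)) :
    (s.card : ℝ) ≤ Nat.card P := by
  rw [Nat.cast_le]
  refine (Finset.card_le_univ s).trans ?_
  rw [← Nat.card_eq_fintype_card]
  exact Nat.card_le_card_of_injective _ Subtype.val_injective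

open scoped commutatorElement in
private theorem wok [Fintype P] (c : CL p Nc P) (R : Finset (Fin Nc)) (π : P →* Q)
    (hπ : Function.Surjective π) [((NR c R).map π).Normal] (k : ℕ)
    (hk : π.ker = Nk (NR c R) (k + 1)) :
    WOk p (LSq c π) ((NR c R).map π) k R (Wq c π hπ fun x => Gd (NR c R) (k + 1) x.1)
      (Nat.card P) := by
  have hker : ∀ g x y : P, π x = π y → Gd (NR c R) (k + 1) g x = Gd (NR c R) (k + 1) g y :=
    fun g x y h => gd_ker π (NR c R) (k + 1) hk.le g x y h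
  refine ⟨?_, fun y => ⟨Nat.cast_nonneg _, px_card c _⟩, fun y z => ⟨?_, ?_⟩, ?_, ?_, ?_, ?_⟩
  · exact Nat.one_le_cast.2 Nat.card_pos
  · exact Finset.sum_nonneg fun x _ => gd_nonneg _ _ _ _
  · refine le_trans (Finset.sum_le_sum fun x _ => gd_le_one (NR c R) (k + 1) x.1 _) ?_
    rw [Finset.sum_const, nsmul_eq_mul, mul_one]
    exact px_card c _
  · rintro y hy ⟨z, hz⟩
    obtain ⟨x, hx1, hx2, -⟩ := wq_ne c π hπ _ y z hz
    have h1 : cid x ∈ R := by
      rw [hx1]
      exact hy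
    refine ⟨?_, ?_⟩
    · change y.2 ∈ (NR c R).map π
      rw [← hx2]
      exact Subgroup.mem_map_of_mem π (nr_mem c R x h1)
    · change y.2 ^ p = 1
      rw [← hx2, ← map_pow, px_pow, map_one]
  · intro y hy z hz w
    rw [nk_map] at hz
    obtain ⟨z0, hz0, rfl⟩ := hz
    unfold Wq
    set w0 := Function.surjInv hπ w with hw0
    have hw : π w0 = w := Function.surjInv_eq hπ w
    -- conjugation by `z0` on the labels
    have hc : ∀ x : Px c, ∀ t : P, ∃ i, IsConj (t * x.1 * t⁻¹) (c.g i) := fun x t =>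
      ⟨cid x, IsConj.trans (isConj_iff.2 ⟨t⁻¹, by group⟩) (cid_spec x)⟩
    have hcid : ∀ (x : Px c) (t : P), cid (⟨t * x.1 * t⁻¹, hc x t⟩ : Px c) = cid x := by
      intro x t
      rw [cid_iff]
      exact IsConj.trans (isConj_iff.2 ⟨t⁻¹, by group⟩) (cid_spec x)
    have hvp : ∀ x : Px c, ∀ t ∈ Nk (NR c R) k, cid x ∈ R →
        vp c π (⟨t * x.1 * t⁻¹, hc x t⟩ : Px c) = vp c π x := by
      intro x t ht hx
      unfold vp
      rw [hcid]
      congr 1
      have h1 : ⁅t, x.1⁆ ∈ Nk (NR c R) (k + 1) :=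
        Subgroup.commutator_mem_commutator ht (nr_mem c R x hx)
      rw [← hk, MonoidHom.mem_ker, commutatorElement_def, map_mul, map_inv] at h1
      exact mul_inv_eq_one.1 h1
    refine Eq.symm (Finset.sum_bij' (fun x _ => (⟨z0 * x.1 * z0⁻¹, hc x z0⟩ : Px c))
      (fun x _ => (⟨z0⁻¹ * x.1 * z0⁻¹⁻¹, hc x z0⁻¹⟩ : Px c)) ?_ ?_ ?_ ?_ ?_)
    · intro x hx
      rw [Finset.mem_filter] at hx ⊢
      refine ⟨Finset.mem_univ _, ?_⟩
      rw [hvp x z0 hz0 ?_, hx.2]
      have h1 := congrArg Prod.fst hx.2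
      change cid x = y.1 at h1
      rw [h1]
      exact hy
    · intro x hx
      rw [Finset.mem_filter] at hx ⊢
      refine ⟨Finset.mem_univ _, ?_⟩
      rw [hvp x z0⁻¹ ((Nk (NR c R) k).inv_mem hz0) ?_, hx.2]
      have h1 := congrArg Prod.fst hx.2
      change cid x = y.1 at h1
      rw [h1]
      exact hy
    · intro x _
      refine Subtype.ext ?_
      change z0⁻¹ * (z0 * x.1 * z0⁻¹) * z0⁻¹⁻¹ = x.1
      group
    · intro x _
      refine Subtype.ext ?_
      change z0 * (z0⁻¹ * x.1 * z0⁻¹⁻¹) * z0⁻¹ = x.1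
      group
    · intro x _
      change Gd (NR c R) (k + 1) x.1 w0 = Gd (NR c R) (k + 1) (z0 * x.1 * z0⁻¹)
        (Function.surjInv hπ (π z0 * w * (π z0)⁻¹))
      rw [← gd_conj (NR c R) (k + 1) z0 x.1 w0]
      refine hker _ _ _ ?_
      rw [Function.surjInv_eq hπ, map_mul, map_mul, map_inv, hw]
  · intro y z hy hz
    obtain ⟨x, hx1, hx2, hx3⟩ := wq_ne c π hπ _ y z hz
    have h1 : cid x ∈ R := by
      rw [hx1]
      exact hy
    have h2 := gd_fix (NR c R) (k + 1) x.1 _ (nr_mem c R x h1) hx3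
    rw [nk_map]
    refine ⟨_, h2, ?_⟩
    change π _ = z * y.2 * z⁻¹ * y.2⁻¹
    rw [← hx2, map_mul, map_mul, map_mul, map_inv, map_inv, Function.surjInv_eq hπ]
  · intro s hs
    refine le_trans ?_ le_sup_left
    rw [Subgroup.map_le_iff_le_comap]
    refine Subgroup.normalClosure_le_normal ?_
    rintro x ⟨i, hi, hx⟩
    obtain ⟨hs1, z, hz⟩ := hs i hi
    obtain ⟨g, hg1, hg2, -⟩ := wq_ne c π hπ _ (s i) z hz
    have h1 : cid g = i := hg1.trans hs1
    have h2 : IsConj g.1 x := (cid_spec g).trans (by rw [h1]; exact hx.symm)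
    obtain ⟨a, ha⟩ := isConj_iff.1 h2
    change π x ∈ Subgroup.normalClosure _
    rw [← ha, map_mul, map_mul, map_inv]
    refine Subgroup.normalClosure_normal.conj_mem _ ?_ _
    rw [hg2]
    exact Subgroup.subset_normalClosure ⟨i, hi, rfl⟩

private theorem wav_q [Fintype P] [Fintype Q] (c : CL p Nc P) (N : Subgroup P) [N.Normal]
    (π : P →* Q) (hπ : Function.Surjective π) (k : ℕ) (hk : π.ker = Nk N (k + 1))
    (y : Fin Nc × Q) (z : Q) :
    wav (N.map π) k (Wq c π hπ (fun x => Gd N (k + 1) x.1) y) z =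
      Wq c π hπ (fun x => Gd N k x.1) y z := by
  unfold wav Wq
  rw [Finset.sum_comm, Finset.sum_div]
  refine Finset.sum_congr rfl fun x _ => ?_
  beta_reduce
  rw [gd_avg N k x.1 (Function.surjInv hπ z)]
  have h1 : (Nk N k).map π = Nk (N.map π) k := (nk_map π N k).symm
  set r : Nk N k →* Nk (N.map π) k :=
    (MulEquiv.subgroupCongr h1).toMonoidHom.comp (π.subgroupMap (Nk N k)) with hr
  have hr1 : ∀ u : Nk N k, (r u : Q) = π u := fun u => rfl
  have hr2 : Function.Surjective r :=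
    (MulEquiv.subgroupCongr h1).surjective.comp (π.subgroupMap_surjective (Nk N k))
  have h2 := sum_hom r hr2
    (fun u : Nk (N.map π) k => Gd N (k + 1) x.1 (Function.surjInv hπ (z * u)))
  have h3 : ∑ u : Nk N k, Gd N (k + 1) x.1 (Function.surjInv hπ (z * (r u : Q))) =
      ∑ u : Nk N k, Gd N (k + 1) x.1 (Function.surjInv hπ z * u) := by
    refine Finset.sum_congr rfl fun u _ => ?_
    refine gd_ker π N (k + 1) hk.le _ _ _ ?_
    rw [Function.surjInv_eq hπ, map_mul, Function.surjInv_eq hπ, hr1]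
  rw [← h3, h2]
  have h4 : (Nat.card (Nk N k) : ℝ) ≠ 0 := Nat.cast_ne_zero.2 Nat.card_pos.ne'
  have h5 : (Nat.card (Nk (N.map π) k) : ℝ) ≠ 0 := Nat.cast_ne_zero.2 Nat.card_pos.ne'
  field_simp

end wok

private theorem le_q {P Q : Type} [Group P] [Group Q] [Fintype P] [Fintype Q] {p Nc : ℕ}
    [NeZero p] (hp : p.Prime) (π : P →* Q) (hπ : Function.Surjective π) (N : Subgroup Q)
    [N.Normal] (k : ℕ) (hn : Nk N (k + 1) = ⊥) (hV : ∀ u ∈ Nk N k, u ^ p = 1) :
    Fintype.card (Le p (Fin Nc × Q) N k) ≤ Nc * Nat.card P ^ 3 := by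
  have h1 : Nat.card Q ≤ Nat.card P := Nat.card_le_card_of_surjective π hπ
  have h2 : Nat.card (Q ⧸ N) ≤ Nat.card P :=
    (Nat.card_le_card_of_surjective _ (QuotientGroup.mk'_surjective N)).trans h1
  have h3 : Nat.card (Nk N k) ≤ Nat.card P :=
    (Nat.card_le_card_of_injective _ Subtype.val_injective).trans h1
  rw [← Nat.card_eq_fintype_card, Nat.card_prod, Nat.card_prod, Nat.card_prod,
    Nat.card_eq_fintype_card (α := Xc p N k), xc_card hp N k hn hV, Nat.card_eq_fintype_card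
    (α := Fin Nc), Fintype.card_fin]
  calc Nc * Nat.card Q * (Nat.card (Q ⧸ N) * Nat.card (Nk N k))
      ≤ Nc * Nat.card P * (Nat.card P * Nat.card P) :=
        Nat.mul_le_mul (Nat.mul_le_mul le_rfl h1) (Nat.mul_le_mul h2 h3)
    _ = Nc * Nat.card P ^ 3 := by ring

section main

variable {K : Type} [Field K] [NumberField K] {Ω : Type} [Field Ω] [Algebra K Ω]
  {p : ℕ} [NeZero p] {ζ : K} {P Q : Type} [Group P] [Group Q] [Fintype P] [Fintype Q] {Nc : ℕ}

private theorem stp_q (hp : p.Prime) (D : RD0 K p ζ) (A : GS D Ω)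
    (c : CL p Nc P) (R : Finset (Fin Nc)) (k M : ℕ) (π : P →* Q) (hπ : Function.Surjective π)
    [((NR c R).map π).Normal] (hk : π.ker = Nk (NR c R) (k + 1))
    (hM : (k + 2) * (Nc * Nat.card P ^ 3) ≤ M) (A₁ A₂ ε : ℝ) (hε : 0 < ε) (hε1 : ε < 1) :
    ∃ C C₁ A₀ Y₀ : ℝ, 1 ≤ C ∧ 2 ≤ C₁ ∧ 0 ≤ A₀ ∧ 3 ≤ Y₀ ∧ ∀ C₁' A₀' : ℝ, C₁ ≤ C₁' → A₀ ≤ A₀' →
      ∀ Y : ℝ, Y₀ ≤ Y → ∀ (L : LDs D Ω) (Fr : FR L) (Mw : ℕ),
      BLat Fr A Mw ((NR c R).map π) k C₁' A₀' ε Y →
      ∀ (Zw E : Finset (Pl K)) (e : Pl K → P), ZwOk D C₁' Y Zw → EOk A₁ Y Zw E →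
      SA (LSx c) L A Fr (NR c R) R M Mw (T0 ε Y) Zw E e
          (fun x => Gd (NR c R) (k + 1) x.1) Y ≤ (C * Real.log (Real.log Y)) ^ C *
        SA (LSx c) L A Fr (NR c R) R M Mw (T0 ε Y) Zw E e (fun x => Gd (NR c R) k x.1) Y +
          Y * Real.log Y ^ (-A₂) := by
  have hn : Nk ((NR c R).map π) (k + 1) = ⊥ := by
    rw [nk_map, ← hk]
    exact (Subgroup.map_eq_bot_iff _).2 le_rfl
  have hcl : (NR c R).map π = Subgroup.closure {x | x ∈ (NR c R).map π ∧ x ^ p = 1} := by
    refine le_antisymm ?_ ?_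
    · conv_lhs => rw [nr_cl c R]
      rw [MonoidHom.map_closure]
      refine Subgroup.closure_mono ?_
      rintro _ ⟨x, ⟨hx1, hx2⟩, rfl⟩
      refine ⟨Subgroup.mem_map_of_mem π hx1, ?_⟩
      rw [← map_pow, hx2, map_one]
    · rw [Subgroup.closure_le]
      exact fun x hx => hx.1
  have hV := nk_exp ((NR c R).map π) k hn hcl
  have hker : π.ker ≤ NR c R := by
    rw [hk]
    exact nk_anti (NR c R) (Nat.zero_le _)
  obtain ⟨C, C₁, A₀, Y₀, h1, h2, h3, h4, h⟩ := als hp D A (LSq c π) ((NR c R).map π) hn hV R M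
    ((Nat.mul_le_mul le_rfl (le_q hp π hπ _ k hn hV)).trans hM)
    (Wq c π hπ fun x => Gd (NR c R) (k + 1) x.1) (Nat.card P) (wok c R π hπ k hk)
    A₁ (A₂ + 1) ε hε hε1
  set κ : ℝ := (Nat.card (Fin A.g → P) : ℝ) / Nat.card (Fin A.g → Q) with hκ
  have hκ0 : 0 ≤ κ := div_nonneg (Nat.cast_nonneg _) (Nat.cast_nonneg _)
  refine ⟨C, C₁, A₀, max Y₀ (Real.exp κ), h1, h2, h3, h4.trans (le_max_left _ _), ?_⟩
  intro C₁' A₀' hC hA Y hY L Fr Mw hB Zw E e hZ hE
  have hY0 : Y₀ ≤ Y := (le_max_left _ _).trans hY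
  have hY1 : Real.exp κ ≤ Y := (le_max_right _ _).trans hY
  have hYp : 0 < Y := by linarith
  have hl1 : κ ≤ Real.log Y := (Real.le_log_iff_exp_le hYp).2 hY1
  have hl0 : 0 < Real.log Y := Real.log_pos (by linarith)
  have h5 := h C₁' A₀' hC hA Y hY0 L Fr Mw hB Zw E (fun v => π (e v)) hZ hE
  have h6 : (fun y => wav ((NR c R).map π) k
      (Wq c π hπ (fun x => Gd (NR c R) (k + 1) x.1) y)) =
      Wq c π hπ (fun x => Gd (NR c R) k x.1) := by
    funext y z
    exact wav_q c (NR c R) π hπ k hk y z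
  rw [h6] at h5
  rw [sa_red π hπ (NR c R) hker c L A Fr R M Mw (T0 ε Y) Zw E e
      (fun x => Gd (NR c R) (k + 1) x.1) (fun g x y h => gd_ker π _ _ hk.le _ _ _ h) Y,
    sa_red π hπ (NR c R) hker c L A Fr R M Mw (T0 ε Y) Zw E e
      (fun x => Gd (NR c R) k x.1)
      (fun g x y h => gd_ker π _ _ (hk.le.trans (nk_le (NR c R) k)) _ _ _ h) Y, ← hκ]
  have h7 : Y * Real.log Y ^ (-A₂) = Real.log Y * (Y * Real.log Y ^ (-(A₂ + 1))) := by
    have h8 : Real.log Y ^ (-A₂) = Real.log Y ^ (-(A₂ + 1)) * Real.log Y := by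
      rw [← Real.rpow_add_one hl0.ne']
      congr 1
      ring
    rw [h8]
    ring
  have h9 : 0 ≤ Y * Real.log Y ^ (-(A₂ + 1)) :=
    mul_nonneg hYp.le (Real.rpow_nonneg hl0.le _)
  rw [h7]
  calc κ * SA (LSq c π) L A Fr ((NR c R).map π) R M Mw (T0 ε Y) Zw E (fun v => π (e v))
        (Wq c π hπ fun x => Gd (NR c R) (k + 1) x.1) Y
      ≤ κ * ((C * Real.log (Real.log Y)) ^ C * SA (LSq c π) L A Fr ((NR c R).map π) R M Mw
          (T0 ε Y) Zw E (fun v => π (e v)) (Wq c π hπ fun x => Gd (NR c R) k x.1) Y +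
          Y * Real.log Y ^ (-(A₂ + 1))) := mul_le_mul_of_nonneg_left h5 hκ0
    _ = (C * Real.log (Real.log Y)) ^ C * (κ * SA (LSq c π) L A Fr ((NR c R).map π) R M Mw
          (T0 ε Y) Zw E (fun v => π (e v)) (Wq c π hπ fun x => Gd (NR c R) k x.1) Y) +
          κ * (Y * Real.log Y ^ (-(A₂ + 1))) := by ring
    _ ≤ _ := by
      have := mul_le_mul_of_nonneg_right hl1 h9
      linarith

end main

variable {K : Type} [Field K] [NumberField K] {Ω : Type} [Field Ω] [Algebra K Ω]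
  {p : ℕ} [NeZero p] {ζ : K} {P : Type} [Group P] [Fintype P] {Nc : ℕ}

theorem stp (hp : p.Prime) (D : RD0 K p ζ) (A : GS D Ω)
    (c : CL p Nc P) (R : Finset (Fin Nc)) (k M : ℕ)
    (hM : (k + 2) * (Nc * Nat.card P ^ 3) ≤ M) (A₁ A₂ ε : ℝ) (hε : 0 < ε) (hε1 : ε < 1) :
    ∃ C C₁ A₀ Y₀ : ℝ, 1 ≤ C ∧ 2 ≤ C₁ ∧ 0 ≤ A₀ ∧ 3 ≤ Y₀ ∧ ∀ C₁' A₀' : ℝ, C₁ ≤ C₁' → A₀ ≤ A₀' →
      ∀ Y : ℝ, Y₀ ≤ Y → ∀ (L : LDs D Ω) (Fr : FR L) (Mw : ℕ),
      BLat Fr A Mw ((NR c R).map (QuotientGroup.mk' (Nk (NR c R) (k + 1)))) k C₁' A₀' ε Y →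
      ∀ (Zw E : Finset (Pl K)) (e : Pl K → P), ZwOk D C₁' Y Zw → EOk A₁ Y Zw E →
      SA (LSx c) L A Fr (NR c R) R M Mw (T0 ε Y) Zw E e
          (fun x => Gd (NR c R) (k + 1) x.1) Y ≤ (C * Real.log (Real.log Y)) ^ C *
        SA (LSx c) L A Fr (NR c R) R M Mw (T0 ε Y) Zw E e (fun x => Gd (NR c R) k x.1) Y +
          Y * Real.log Y ^ (-A₂) :=
  stp_q hp D A c R k M (QuotientGroup.mk' (Nk (NR c R) (k + 1)))
    (QuotientGroup.mk'_surjective _) (QuotientGroup.ker_mk' _) hM A₁ A₂ ε hε hε1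

end H35.UB
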