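import Pool.Agent.H35.UB.Box
import Pool.Agent.H35.UB.Nkl
import Pool.Agent.H93.UB.Spn

/-!
# [H35 UB SPN] iterated commutators span the last term of the series

`spn`: `P` a finite `p`-group, `N` normal, `Nk N (n+1) = 1`, `N` generated by the conjugates of the `g j` (`j ∈ J`) modulo `Nk N 1`. A homomorphism defined
on `Nk N n` which vanishes on all iterated commutators `[c_{n+1}, [.., [c_2, c_1]]]` of conjugates `c_k = u_k g_(j_k) u_k⁻¹` is trivial.
Proof. `N` is generated by the conjugates (`N ≤ M ⊔ Nk N k` for all `k`, `M` the normal closure). By induction on `k`: `Nk N k` is generated, modulo `Nk N (k+1)`, by the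
iterated commutators of `k + 1` conjugates (`H93.UB.spn`).
`spn2`: the form used for two different characters.
-/

set_option autoImplicit false

open scoped Classical commutatorElement

noncomputable section

namespace H35.UB

variable {P : Type} [Group P]

theorem brk_eq_brl (l : List P) : brk l = H93.UB.brl l := by
  induction l with
  | nil => rfl
  | cons a l ih =>
    cases l with
    | nil => rfl
    | cons b l =>
      show a * brk (b :: l) * a⁻¹ * (brk (b :: l))⁻¹ = ⁅a, H93.UB.brl (b :: l)⁆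
      rw [ih, commutatorElement_def]

private theorem com_sup {M A B N : Subgroup P} (hM : M.Normal) (hB : (⁅B, N⁆ : Subgroup P).Normal)
    (hBn : B.Normal) (h : A ≤ M ⊔ B) : ⁅A, N⁆ ≤ M ⊔ ⁅B, N⁆ := by
  rw [Subgroup.commutator_le]
  intro x hx y hy
  have h1 := h hx
  rw [Subgroup.mem_sup_of_normal_right] at h1
  obtain ⟨m, hm, b, hb, rfl⟩ := h1
  have e : ⁅m * b, y⁆ = (m * ⁅b, y⁆ * m⁻¹) * (m * (y * m⁻¹ * y⁻¹)) := by
    simp only [commutatorElement_def]
    group
  rw [e]
  have h2 : m * ⁅b, y⁆ * m⁻¹ ∈ M ⊔ ⁅B, N⁆ :=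
    Subgroup.mem_sup_right (hB.conj_mem _ (Subgroup.commutator_mem_commutator hb hy) m)
  have h3 : m * (y * m⁻¹ * y⁻¹) ∈ M ⊔ ⁅B, N⁆ :=
    Subgroup.mem_sup_left (mul_mem hm (hM.conj_mem _ (inv_mem hm) y))
  exact mul_mem h2 h3

/-- `N` is generated by the conjugates -/
theorem nk_gen (N : Subgroup P) [N.Normal] (n : ℕ) (hn : Nk N (n + 1) = ⊥) {J : Type} (g : J → P)
    (hg : ∀ j, g j ∈ N) (hspan : N ≤ Subgroup.normalClosure (Set.range g) ⊔ Nk N 1) :
    Subgroup.closure (Group.conjugatesOfSet (Set.range g)) = N := by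
  obtain ⟨M, hM⟩ : ∃ M : Subgroup P, M = Subgroup.normalClosure (Set.range g) := ⟨_, rfl⟩
  have hMn : M.Normal := by
    rw [hM]
    infer_instance
  have h1 : ∀ k, N ≤ M ⊔ Nk N (k + 1) := by
    intro k
    induction k with
    | zero =>
      rw [hM]
      exact hspan
    | succ k ih =>
      have h2 : Nk N 1 ≤ M ⊔ Nk N (k + 1 + 1) := by
        show ⁅N, N⁆ ≤ M ⊔ ⁅Nk N (k + 1), N⁆
        exact com_sup hMn (nk_normal N (k + 1 + 1)) (nk_normal N (k + 1)) ih
      refine (hspan.trans (sup_le_sup_right hM.symm.le _)).trans ?_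
      exact sup_le le_sup_left h2
  have h2 := h1 n
  rw [hn, sup_bot_eq] at h2
  have h3 : M ≤ N := by
    rw [hM]
    refine Subgroup.normalClosure_le_normal ?_
    rintro _ ⟨j, rfl⟩
    exact hg j
  have h4 : Subgroup.closure (Group.conjugatesOfSet (Set.range g)) = M := by
    rw [hM]
    rfl
  rw [h4]
  exact le_antisymm h3 h2

theorem spn [Finite P] (N : Subgroup P) [N.Normal] (n : ℕ) (hn : Nk N (n + 1) = ⊥)
    {J : Type} (g : J → P) (hg : ∀ j, g j ∈ N)
    (hspan : N ≤ Subgroup.normalClosure (Set.range g) ⊔ Nk N 1) {B : Type} [AddCommGroup B]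
    (χ : P → B) (hχ : ∀ u ∈ Nk N n, ∀ v ∈ Nk N n, χ (u * v) = χ u + χ v)
    (h : ∀ (j : Fin (n + 1) → J) (u : Fin (n + 1) → P),
      χ (brk (List.ofFn fun k : Fin (n + 1) => u k.rev * g (j k.rev) * (u k.rev)⁻¹)) = 0) :
    ∀ u ∈ Nk N n, χ u = 0 := by
  have hgen := nk_gen N n hn g hg hspan
  obtain ⟨F, hF⟩ : ∃ F : ℕ → Subgroup P, F = fun i => Nk N (i - 1) := ⟨_, rfl⟩
  have hN : N.Normal := inferInstance
  have hF1 : F 1 = N := by
    rw [hF]
    rfl
  have hFs : ∀ i, 1 ≤ i → F (i + 1) = ⁅N, F i⁆ := by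
    intro i hi
    obtain ⟨k, rfl⟩ : ∃ k, i = k + 1 := ⟨i - 1, by omega⟩
    rw [hF]
    show ⁅Nk N k, N⁆ = ⁅N, Nk N k⁆
    exact Subgroup.commutator_comm _ _
  have h1 := H93.UB.spn hN hgen hF1 hFs (n + 1) (by omega)
  have h2 : F (n + 1) = Nk N n := by
    rw [hF]
    rfl
  have h3 : F (n + 1 + 1) = ⊥ := by
    rw [hF]
    exact hn
  rw [h2, h3, sup_bot_eq] at h1
  have hSN : ∀ s ∈ Group.conjugatesOfSet (Set.range g), s ∈ N := fun s hs => by
    rw [← hgen]
    exact Subgroup.subset_closure hs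
  have h0 : χ 1 = 0 := by
    have := hχ 1 (one_mem _) 1 (one_mem _)
    rw [mul_one] at this
    exact left_eq_add.1 this
  intro u hu
  have h4 := h1 hu
  have key : u ∈ Nk N n ∧ χ u = 0 := by
    clear hu
    induction h4 using Subgroup.closure_induction with
    | mem x hx =>
      obtain ⟨l, hl, hlS, rfl⟩ := hx
      have hne : l ≠ [] := by
        rintro rfl
        rw [List.length_nil] at hl
        omega
      have hmem := H93.UB.brl_mem hSN hF1 hFs l hne hlS
      rw [hl, h2] at hmem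
      refine ⟨hmem, ?_⟩
      have h5 : ∀ k : Fin (n + 1), ∃ q : J × P, l[(k : ℕ)]'(by rw [hl]; exact k.2) =
          q.2 * g q.1 * q.2⁻¹ := by
        intro k
        have h6 := hlS _ (List.getElem_mem (show (k : ℕ) < l.length by rw [hl]; exact k.2))
        rw [Group.mem_conjugatesOfSet_iff] at h6
        obtain ⟨_, ⟨j, rfl⟩, h7⟩ := h6
        rw [isConj_iff] at h7
        obtain ⟨c, hc⟩ := h7
        exact ⟨(j, c), hc.symm⟩
      choose q hq using h5
      have h6 := h (fun k => (q k.rev).1) (fun k => (q k.rev).2)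
      have h7 : (List.ofFn fun k : Fin (n + 1) => (q k.rev.rev).2 * g (q k.rev.rev).1 *
          ((q k.rev.rev).2)⁻¹) = l := by
        refine List.ext_getElem ?_ ?_
        · rw [List.length_ofFn, hl]
        · intro i hi1 hi2
          rw [List.getElem_ofFn]
          simp only [Fin.rev_rev]
          exact (hq ⟨i, by rw [hl] at hi2; exact hi2⟩).symm
      beta_reduce at h6
      rw [h7, brk_eq_brl] at h6
      exact h6
    | one => exact ⟨one_mem _, h0⟩
    | mul x y _ _ hx hy =>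
      refine ⟨mul_mem hx.1 hy.1, ?_⟩
      rw [hχ x hx.1 y hy.1, hx.2, hy.2, add_zero]
    | inv x _ hx =>
      refine ⟨inv_mem hx.1, ?_⟩
      have h5 := hχ x hx.1 x⁻¹ (inv_mem hx.1)
      rw [mul_inv_cancel, h0, hx.2, zero_add] at h5
      exact h5.symm
  exact key.2

/-- two different characters are different at an iterated commutator -/
theorem spn2 [Finite P] (N : Subgroup P) [N.Normal] (n : ℕ) (hn : Nk N (n + 1) = ⊥)
    {J : Type} (g : J → P) (hg : ∀ j, g j ∈ N)
    (hspan : N ≤ Subgroup.normalClosure (Set.range g) ⊔ Nk N 1) {B : Type} [AddCommGroup B]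
    (χ χ' : P → B) (hχ : ∀ u ∈ Nk N n, ∀ v ∈ Nk N n, χ (u * v) = χ u + χ v)
    (hχ' : ∀ u ∈ Nk N n, ∀ v ∈ Nk N n, χ' (u * v) = χ' u + χ' v)
    (h : ∃ u ∈ Nk N n, χ u ≠ χ' u) :
    ∃ (j : Fin (n + 1) → J) (u : Fin (n + 1) → P),
      χ (brk (List.ofFn fun k : Fin (n + 1) => u k.rev * g (j k.rev) * (u k.rev)⁻¹)) ≠
        χ' (brk (List.ofFn fun k : Fin (n + 1) => u k.rev * g (j k.rev) * (u k.rev)⁻¹)) := by
  by_contra hcon
  push Not at hcon
  obtain ⟨u, hu, hne⟩ := h
  have h1 := spn N n hn g hg hspan (fun x => χ x - χ' x) (fun a ha b hb => by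
    rw [hχ a ha b hb, hχ' a ha b hb]
    abel) (fun j w => by
    rw [hcon j w, sub_self]) u hu
  exact hne (sub_eq_zero.1 h1)

end H35.UB
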