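import Pool.Agent.H35.UB.Ext
import Pool.Agent.H35.UB.Spn

/-!
# [H35 UB LNK] a linked tuple of frequent labels

`lnk`: numbers `ν` with pattern `R` and with two frequent characters `χ₀ ≠ χ₀'` for the same `(x₀, q₀)`: either a label of a rich class which occurs has weight zero, or
there is a linked tuple of labels which occur at least `n + 2` times.
Proof. By `M ≥ (n + 2) #Le` every class `i ∈ R` has a label `x_i` with `ν x_i ≥ n + 2` (pigeonhole). If the weights of `(x₀, q₀, χ₀)`, `(x₀, q₀, χ₀')` and of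
the `x_i` are not identically zero, then these labels satisfy `Lt.ok` (`wh_fix`, `xt_add`, `WOk.wN`, `WOk.wfix`), `WOk.span` and `spn2` (`J` = the subtype of `R`) give
conjugates with different values of `χ₀`, `χ₀'` at the iterated commutator, and `hpair` gives the linked tuple.
-/

set_option autoImplicit false

open scoped Classical commutatorElement
open H63.MA

noncomputable section

namespace H35.UB

variable {P : Type} [Group P] [Fintype P] {p Nc n : ℕ} [NeZero p] {Λ : Type} [Fintype Λ]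

omit [Fintype Λ] in
/-- a label whose weight is not identically zero satisfies the conditions of the box lemma -/
theorem tl_ok (hp : p.Prime) (S : LS Nc P Λ) (N : Subgroup P) [N.Normal]
    (hn : Nk N (n + 1) = ⊥) (R : Finset (Fin Nc)) (W : Λ → P → ℝ) (b : ℝ)
    (hW : WOk p S N n R W b) (x : Le p Λ N n) (hx : S.cls x.1 ∈ R) (y : P)
    (hy : (y : P ⧸ N) = x.2.1) (h : Wh N n (W x.1) x.2.2 y ≠ 0) :
    (tl S x).ok n ∧ ∃ y, W x.1 y ≠ 0 := by
  -- a point where the weight does not vanish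
  obtain ⟨z, hz, hzy⟩ : ∃ z, W x.1 z ≠ 0 ∧ (z : P ⧸ N) = x.2.1 := by
    by_contra hcon
    push Not at hcon
    apply h
    unfold Wh
    have h1 : (∑ u : Nk N n, ep p (-(Multiplicative.toAdd (x.2.2 u))) * (W x.1 (y * u) : ℂ)) =
        0 := by
      refine Finset.sum_eq_zero fun u _ => ?_
      have h2 : ((y * (u : P) : P) : P ⧸ N) = x.2.1 := by
        rw [QuotientGroup.mk_mul, hy]
        have h3 : ((u : P) : P ⧸ N) = 1 :=
          (QuotientGroup.eq_one_iff _).2 (nk_anti N (Nat.zero_le n) u.2)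
        rw [h3, mul_one]
      have h4 : W x.1 (y * u) = 0 := by
        by_contra h5
        exact hcon _ h5 h2
      rw [h4, Complex.ofReal_zero, mul_zero]
    rw [h1, zero_div]
  have h1 := hW.wN x.1 hx ⟨z, hz⟩
  refine ⟨⟨h1.1, h1.2, fun u hu v hv => xt_add x.2.2 u v hu hv, fun x' hx' => ⟨?_, ?_⟩⟩, ⟨z, hz⟩⟩
  · have h2 := hW.wfix x.1 z hx hz
    have hx'' : (x' : P ⧸ N) = x.2.1 := hx'
    obtain ⟨m, hm, rfl⟩ : ∃ m ∈ N, x' = z * m := by
      refine ⟨z⁻¹ * x', ?_, by group⟩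
      rw [← QuotientGroup.eq_one_iff, QuotientGroup.mk_mul, QuotientGroup.mk_inv, hzy, hx'',
        inv_mul_cancel]
    obtain ⟨g, hg⟩ : ∃ g, g = S.val x.1 := ⟨_, rfl⟩
    show z * m * S.val x.1 * (z * m)⁻¹ * (S.val x.1)⁻¹ ∈ Nk N 1
    rw [← hg] at h2 h1 ⊢
    have h3 : m * g * m⁻¹ * g⁻¹ ∈ Nk N 1 := by
      show m * g * m⁻¹ * g⁻¹ ∈ ⁅N, N⁆
      rw [← commutatorElement_def]
      exact Subgroup.commutator_mem_commutator hm h1.1
    have h4 : z * m * g * (z * m)⁻¹ * g⁻¹ = z * (m * g * m⁻¹ * g⁻¹) * z⁻¹ * (z * g * z⁻¹ * g⁻¹) := by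
      group
    rw [h4]
    exact mul_mem ((nk_normal N 1).conj_mem _ h3 z) h2
  · intro u hu
    have hx'' : (x' : P ⧸ N) = (y : P ⧸ N) := by
      rw [hy]
      exact hx'
    exact wh_fix hp N n hn (W x.1) (fun z hz y => hW.winv x.1 hx z hz y) x.2.2 y h x' hx'' u hu

theorem lnk (hp : p.Prime) (S : LS Nc P Λ) (N : Subgroup P) [N.Normal]
    (hn : Nk N (n + 1) = ⊥) (R : Finset (Fin Nc)) (W : Λ → P → ℝ) (b : ℝ)
    (hW : WOk p S N n R W b) (M : ℕ) (hM : (n + 2) * Fintype.card (Le p Λ N n) ≤ M)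
    (Lkd : (Fin (n + 2) → Lt p P N) → Prop)
    (hpair : ∀ (l : Fin (n + 2) → Lt p P N) (χ' : P → ZMod p), (∀ k, (l k).ok n) →
      (Lt.mk (l 0).g (l 0).f χ').ok n → (∃ u, (l 0).χ (bru l u) ≠ χ' (bru l u)) →
      Lkd l ∨ Lkd (Function.update l 0 ⟨(l 0).g, (l 0).f, χ'⟩))
    (ν : Le p Λ N n → ℕ) (h1 : PatN S R M ν) (h2 : BadN S R ν) :
    (∃ x : Le p Λ N n, S.cls x.1 ∈ R ∧ 0 < ν x ∧
      ∀ y : P, (y : P ⧸ N) = x.2.1 → Wh N n (W x.1) x.2.2 y = 0) ∨
    ∃ l : Fin (n + 2) → Le p Λ N n, (∀ k, S.cls (l k).1 ∈ R) ∧ (∀ k, (tl S (l k)).ok n) ∧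
      Lkd (fun k => tl S (l k)) ∧ ∀ k, n + 2 ≤ ν (l k) := by
  by_cases hcon : ∃ x : Le p Λ N n, S.cls x.1 ∈ R ∧ 0 < ν x ∧
      ∀ y : P, (y : P ⧸ N) = x.2.1 → Wh N n (W x.1) x.2.2 y = 0
  · exact Or.inl hcon
  right
  push Not at hcon
  obtain ⟨x₀, q₀, χ₀, χ₀', hx₀, hne, hν, hν'⟩ := h2
  -- frequent labels satisfy the conditions
  have hok : ∀ x : Le p Λ N n, S.cls x.1 ∈ R → n + 2 ≤ ν x →
      (tl S x).ok n ∧ ∃ y, W x.1 y ≠ 0 := by
    intro x hx hνx
    obtain ⟨y, hy, hne⟩ := hcon x hx (by omega)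
    exact tl_ok hp S N hn R W b hW x hx y hy hne
  -- a frequent label in every class of `R`
  have hcls : ∀ i ∈ R, ∃ x : Le p Λ N n, S.cls x.1 = i ∧ n + 2 ≤ ν x := by
    intro i hi
    by_contra hno
    push Not at hno
    have h3 := (h1 i).1 hi
    have h4 : ∑ x ∈ Finset.univ.filter (fun x : Le p Λ N n => S.cls x.1 = i), ν x ≤
        ∑ _x ∈ Finset.univ.filter (fun x : Le p Λ N n => S.cls x.1 = i), (n + 1) :=
      Finset.sum_le_sum fun x hx => by
        have := hno x (Finset.mem_filter.1 hx).2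
        omega
    rw [Finset.sum_const, smul_eq_mul] at h4
    have h5 : (Finset.univ.filter (fun x : Le p Λ N n => S.cls x.1 = i)).card ≤
        Fintype.card (Le p Λ N n) := Finset.card_le_univ _
    have h6 : 0 < Fintype.card (Le p Λ N n) := Fintype.card_pos_iff.2 ⟨(x₀, q₀, χ₀)⟩
    have h7 := Nat.mul_le_mul_right (n + 1) h5
    have h8 : Fintype.card (Le p Λ N n) * (n + 1) < (n + 2) * Fintype.card (Le p Λ N n) := by
      nlinarith
    omega
  have hnon : Nonempty (Le p Λ N n) := ⟨(x₀, q₀, χ₀)⟩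
  choose! xx hxx hνx using hcls
  have hspan := hW.span (fun i => if i ∈ R then (xx i).1 else x₀) (fun i hi => by
    simp only [if_pos hi]
    exact ⟨hxx i hi, (hok (xx i) (by rw [hxx i hi]; exact hi) (hνx i hi)).2⟩)
  let J : Type := {i : Fin Nc // i ∈ R}
  let g : J → P := fun j => S.val (xx j.1).1
  have hg : ∀ j, g j ∈ N := fun j =>
    (hok (xx j.1) (by rw [hxx j.1 j.2]; exact j.2) (hνx j.1 j.2)).1.1
  have hrange : {y | ∃ i ∈ R, y = S.val (if i ∈ R then (xx i).1 else x₀)} = Set.range g := by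
    ext y
    constructor
    · rintro ⟨i, hi, rfl⟩
      rw [if_pos hi]
      exact ⟨⟨i, hi⟩, rfl⟩
    · rintro ⟨j, rfl⟩
      refine ⟨j.1, j.2, ?_⟩
      rw [if_pos j.2]
  rw [hrange] at hspan
  have hdiff : ∃ u ∈ Nk N n, xt χ₀ u ≠ xt χ₀' u := by
    by_contra hall
    push Not at hall
    apply hne
    refine MonoidHom.ext fun u => ?_
    have h3 := hall u.1 u.2
    unfold xt at h3
    rw [dif_pos u.2, dif_pos u.2] at h3
    exact Multiplicative.toAdd.injective h3
  obtain ⟨j, u, hu⟩ := spn2 N n hn g hg hspan (xt χ₀) (xt χ₀')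
    (fun a ha c hc => xt_add χ₀ a c ha hc) (fun a ha c hc => xt_add χ₀' a c ha hc) hdiff
  obtain ⟨l, hl⟩ : ∃ l : Fin (n + 2) → Le p Λ N n,
      l = Fin.cons (α := fun _ => Le p Λ N n) (x₀, q₀, χ₀) (fun k => xx (j k).1) := ⟨_, rfl⟩
  have hl0 : l 0 = (x₀, q₀, χ₀) := by
    rw [hl]
    rfl
  have hls : ∀ k : Fin (n + 1), l k.succ = xx (j k).1 := by
    intro k
    rw [hl]
    rfl
  have hlR : ∀ k, S.cls (l k).1 ∈ R := by
    intro k
    refine Fin.cases ?_ (fun k => ?_) k
    · rw [hl0]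
      exact hx₀
    · rw [hls, hxx _ (j k).2]
      exact (j k).2
  have hlν : ∀ k, n + 2 ≤ ν (l k) := by
    intro k
    refine Fin.cases ?_ (fun k => ?_) k
    · rw [hl0]
      exact hν
    · rw [hls]
      exact hνx _ (j k).2
  have hlok : ∀ k, (tl S (l k)).ok n := fun k => (hok (l k) (hlR k) (hlν k)).1
  have hok' : (tl S ((x₀, q₀, χ₀') : Le p Λ N n)).ok n := (hok _ hx₀ hν').1
  have hbru : bru (fun k => tl S (l k)) u =
      brk (List.ofFn fun k : Fin (n + 1) => u k.rev * g (j k.rev) * (u k.rev)⁻¹) := by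
    unfold bru
    congr 1
    refine congrArg List.ofFn (funext fun k => ?_)
    show u k.rev * S.val (l k.rev.succ).1 * (u k.rev)⁻¹ = _
    rw [hls]
  have h0 : tl S (l 0) = ⟨S.val x₀, q₀, xt χ₀⟩ := by
    rw [hl0]
    rfl
  rcases hpair (fun k => tl S (l k)) (xt χ₀') hlok (by
    rw [h0]
    exact hok') ⟨u, by
      rw [hbru]
      rw [h0]
      exact hu⟩ with h3 | h3
  · exact ⟨l, hlR, hlok, h3, hlν⟩
  · refine ⟨Function.update l 0 (x₀, q₀, χ₀'), fun k => ?_, fun k => ?_, ?_, fun k => ?_⟩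
    · by_cases hk : k = 0
      · subst hk
        rw [Function.update_self]
        exact hx₀
      · rw [Function.update_of_ne hk]
        exact hlR k
    · by_cases hk : k = 0
      · subst hk
        rw [Function.update_self]
        exact hok'
      · rw [Function.update_of_ne hk]
        exact hlok k
    · have h4 : (fun k => tl S (Function.update l 0 (x₀, q₀, χ₀') k)) =
          Function.update (fun k => tl S (l k)) 0
            ⟨(tl S (l 0)).g, (tl S (l 0)).f, xt χ₀'⟩ := by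
        funext k
        by_cases hk : k = 0
        · subst hk
          rw [Function.update_self, Function.update_self, h0]
          rfl
        · rw [Function.update_of_ne hk, Function.update_of_ne hk]
      rw [h4]
      exact h3
    · by_cases hk : k = 0
      · subst hk
        rw [Function.update_self]
        exact hν'
      · rw [Function.update_of_ne hk]
        exact hlν k

end H35.UB
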