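import Pool.Agent.H35.UB.Defs

/-!
# H35-UB-BOX: the statement of the box lemma (H62/BL) as it is used for UB

`P` a finite `p`-group, `N` normal, generated by its elements of order `p`, `Nk N (n+1) = 1`.
* `Lt p P N`: a label of a variable prime: value `g`, Frobenius `f` in `P ⧸ N`, character `χ` (additive on `Nk N n`).
* `bru g u`: the iterated commutator `[c_{n+1}, [.., [c_2, c_1]]]`, `c_k = u_k g_k u_k⁻¹`, `k = 1, .., n+1`.
* `Bd`: the data of a box: fixed primes `s` with labels `g`, values `α` at the `a_i`, honest reduction `φ`, weights `G v`, boxes `(lo k, hi k]`.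
* `BLb l`: the sum over a family of boxes, of the absolute values of the sums over the variables in the box, is at most `(log Y)^(-A₀)`.
* `BLat`: there is a set of linked tuples such that: of two tuples which differ only in the character of the label `0`, with different values at some
  iterated commutator, one is linked; and `BLb l` holds for linked tuples `l`.
-/

set_option autoImplicit false

open scoped NumberField
open IsDedekindDomain
open scoped Classical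

noncomputable section

namespace H35.UB

open H63.MA H38.BB H38.BG H57.PC H57.BRA H77.WD H77.WE H77.PC3 H35.CF

/-- the label of a variable prime -/
structure Lt (p : ℕ) (P : Type) [Group P] (N : Subgroup P) [N.Normal] where
  g : P
  f : P ⧸ N
  χ : P → ZMod p

section grp

variable {p : ℕ} {P : Type} [Group P] {N : Subgroup P} [N.Normal]

/-- the conditions on the labels -/
def Lt.ok (l : Lt p P N) (n : ℕ) : Prop :=
  l.g ∈ N ∧ l.g ^ p = 1 ∧ (∀ u ∈ Nk N n, ∀ v ∈ Nk N n, l.χ (u * v) = l.χ u + l.χ v) ∧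
  ∀ x : P, (x : P ⧸ N) = l.f → x * l.g * x⁻¹ * l.g⁻¹ ∈ Nk N 1 ∧
    ∀ u ∈ Nk N n, l.χ (x * u * x⁻¹) = l.χ u

/-- the iterated commutator of conjugates of the values of the labels `1, .., n+1` -/
def bru {n : ℕ} (l : Fin (n + 2) → Lt p P N) (u : Fin (n + 1) → P) : P :=
  brk (List.ofFn fun j : Fin (n + 1) => u j.rev * (l j.rev.succ).g * (u j.rev)⁻¹)

end grp

section loc

variable {K : Type} [Field K] [NumberField K] {Ω : Type} [Field Ω] [Algebra K Ω]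
  {p : ℕ} {ζ : K} {D : RD0 K p ζ} {P : Type} [Group P]

/-- the data of a box -/
structure Bd (A : GS D Ω) (P : Type) [Group P] (N : Subgroup P) [N.Normal] (n : ℕ) where
  s : Finset (Pl K)
  g : Pl K → P
  α : Fin A.g → P
  φ : Gal(Ω/K) →* P ⧸ N
  G : Pl K → P → ℂ
  lo : Fin (n + 2) → ℝ
  hi : Fin (n + 2) → ℝ

/-- the tuples of different primes in the box -/
def Bd.bx {A : GS D Ω} {N : Subgroup P} [N.Normal] {n : ℕ} (X : Bd A P N n)
    (Zw : Finset (Pl K)) : Finset (Fin (n + 2) → Pl K) :=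
  (Fintype.piFinset fun k => Zw.filter fun v =>
    D.Gd v ∧ v ∉ X.s ∧ X.lo k < (nm v : ℝ) ∧ (nm v : ℝ) ≤ X.hi k).filter fun q =>
      Function.Injective q

/-- the evaluation of the words for given variable primes -/
def Bd.th {A : GS D Ω} {N : Subgroup P} [N.Normal] {n : ℕ} (X : Bd A P N n)
    (l : Fin (n + 2) → Lt p P N) (q : Fin (n + 2) → Pl K) : FW A →* P :=
  ev A (fun v => if h : ∃ k, q k = v then (l h.choose).g else X.g v) X.α

/-- the sum over the box -/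
def Bd.sm {A : GS D Ω} {N : Subgroup P} [N.Normal] {n : ℕ} (X : Bd A P N n) {L : LDs D Ω}
    (Fr : FR L) (Mw : ℕ) (E Zw : Finset (Pl K)) (l : Fin (n + 2) → Lt p P N)
    (Gk : Fin (n + 2) → P → ℂ) : ℂ :=
  ∑ q ∈ X.bx Zw, (∏ v ∈ X.s, X.G v (X.th l q (wdE L A Mw E Zw (Fr.F v)))) *
    ∏ k, Gk k (X.th l q (wdE L A Mw E Zw (Fr.F (q k))))

/-- the box inequality for the tuple `l` and for fixed `Y` -/
def BLb {L : LDs D Ω} (Fr : FR L) (A : GS D Ω) (Mw : ℕ) (N : Subgroup P) [N.Normal] (n : ℕ)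
    (C₁ A₀ ε Y : ℝ) (l : Fin (n + 2) → Lt p P N) : Prop :=
  ∀ Gk : Fin (n + 2) → P → ℂ, (∀ k x, ‖Gk k x‖ ≤ 1) →
    (∀ k x, Gk k x ≠ 0 → (x : P ⧸ N) = (l k).f) →
    (∀ k x, ∀ u ∈ Nk N n, Gk k (x * u) = ep p ((l k).χ u) * Gk k x) →
    ∀ Zw E : Finset (Pl K), (∀ v ∈ Zw, v ∉ D.S0) →
    (∀ v, D.Gd v → (nm v : ℝ) ≤ Y ^ C₁ → v ∈ Zw) → E ⊆ Zw →
    ∀ (ι : Type) (I : Finset ι) (X : ι → Bd A P N n),
    (∀ i ∈ I, E ⊆ (X i).s ∧ (X i).s ⊆ Zw ∧ nr (X i).s ≤ Y ^ C₁ ∧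
      ((X i).s.card : ℝ) ≤ C₁ * Real.log (Real.log Y)) →
    (∀ i ∈ I, (∀ v, v ∉ (X i).s → (X i).g v = 1) ∧ HonE L E (X i).s (X i).φ ∧
      Function.Surjective (X i).φ ∧
      hat L A (X i).φ = (QuotientGroup.mk' N).comp (ev A (X i).g (X i).α) ∧
      ∀ v x, ‖(X i).G v x‖ ≤ 1) →
    (∀ i ∈ I, ∀ k, T0 ε Y ≤ (X i).lo k ∧ (X i).lo k ≤ (X i).hi k ∧
      (X i).hi k ≤ 2 * (X i).lo k ∧ (X i).hi k ≤ Y ^ C₁) →
    (∀ m : Finset (Pl K), ((I.filter fun i => (X i).s = m).card : ℝ) ≤ Real.log Y ^ C₁) →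
    ∑ i ∈ I, (nr (X i).s)⁻¹ * (∏ k, (X i).lo k)⁻¹ * ‖(X i).sm Fr Mw E Zw l Gk‖ ≤
      Real.log Y ^ (-A₀)

/-- the box lemma for fixed `Y` -/
def BLat {L : LDs D Ω} (Fr : FR L) (A : GS D Ω) (Mw : ℕ) (N : Subgroup P) [N.Normal] (n : ℕ)
    (C₁ A₀ ε Y : ℝ) : Prop :=
  ∃ Lkd : (Fin (n + 2) → Lt p P N) → Prop,
    (∀ (l : Fin (n + 2) → Lt p P N) (χ' : P → ZMod p), (∀ k, (l k).ok n) →
      (Lt.mk (l 0).g (l 0).f χ').ok n → (∃ u, (l 0).χ (bru l u) ≠ χ' (bru l u)) →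
      Lkd l ∨ Lkd (Function.update l 0 ⟨(l 0).g, (l 0).f, χ'⟩)) ∧
    ∀ l : Fin (n + 2) → Lt p P N, (∀ k, (l k).ok n) → Lkd l →
      BLb Fr A Mw N n C₁ A₀ ε Y l

end loc

end H35.UB
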