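import Pool.Agent.H35.CF.Defs
import Pool.Agent.H77.WE.Defs
import Pool.Agent.H77.FLD.Dd
import Pool.Agent.H57.AN.Ub

/-!
# H35-UB: the upper bound with poor classes (MP_b39724_nt, all classes), definitions

`P` a finite `p`-group, `c : CL p N P` representatives of some conjugacy classes of elements of order `p` (the types). `E` a finite set of primes with
prescribed labels `e` (any inertia), `T` the threshold for large primes. The words are
`wdE L A Mw E Zw σ` (H77/WE); `Zw` a finite set of primes outside `S0` containing `E`; configurations have their support in `Zg D Zw E` (primes of prime norm in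
`Zw`, outside `E`).
* `Nk N k`: `Nk N 0 = N`, `Nk N (k+1) = ⁅Nk N k, N⁆`. `Gd N k g x`: the proportion of the `u ∈ Nk N k` for which `g` commutes with `x u`.
* `Px c`: the labels (elements of the classes of `c`), `cid`: the class of a label, `NR c R`: the normal subgroup generated by the classes in `R`.
* `LS Nc P Λ` (label system): labels `Λ` with class `cls : Λ → Fin Nc`, value `val : Λ → P` and weight `mu` (for primes which are poor or small).
* `lab`: the labelling of all primes defined by a configuration, `ev`: evaluation of the words, `Hs`: the evaluation modulo `N` comes from an honest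
  surjective homomorphism `Γ → P ⧸ N`, unramified outside `n` and `E`.
* `Pat`: the rich classes of the configuration (at least `M` large primes) are those in `R`. `psi`: the cutoff function.
* `SA S W .. Y`: the sum over all configurations with pattern `R` and honest reduction modulo `N`, of the weights `W λ x_v` over the large primes of rich classes
  and `mu λ` over the other primes.
-/

set_option autoImplicit false

open scoped NumberField
open IsDedekindDomain
open scoped Classical

noncomputable section

namespace H35.UB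

open H63.MA H38.BB H38.BG H57.PC H57.BRA H77.WD H77.WE H77.PC3 H35.CF

section grp

variable {P : Type} [Group P]

/-- the lower central series of `N`, beginning with `N` -/
def Nk (N : Subgroup P) : ℕ → Subgroup P
  | 0 => N
  | k + 1 => ⁅Nk N k, N⁆

/-- the proportion of the `u ∈ Nk N k` for which `g` commutes with `x u` -/
def Gd (N : Subgroup P) (k : ℕ) (g x : P) : ℝ :=
  (Nat.card {u : Nk N k // g * (x * u) = x * u * g} : ℝ) / Nat.card (Nk N k)

/-- the labels -/
abbrev Px {p N : ℕ} (c : CL p N P) : Type := {x : P // ∃ i, IsConj x (c.g i)}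

/-- the class of a label -/
def cid {p N : ℕ} {c : CL p N P} (x : Px c) : Fin N := x.2.choose

theorem cid_spec {p N : ℕ} {c : CL p N P} (x : Px c) : IsConj x.1 (c.g (cid x)) :=
  x.2.choose_spec

theorem cid_iff {p N : ℕ} {c : CL p N P} (x : Px c) (i : Fin N) :
    cid x = i ↔ IsConj x.1 (c.g i) := by
  constructor
  · rintro rfl
    exact cid_spec x
  · intro h
    exact c.uni _ _ ((cid_spec x).symm.trans h)

/-- the normal subgroup generated by the classes in `R` -/
def NR {p N : ℕ} (c : CL p N P) (R : Finset (Fin N)) : Subgroup P :=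
  Subgroup.normalClosure {x | ∃ i ∈ R, IsConj x (c.g i)}

instance {p N : ℕ} (c : CL p N P) (R : Finset (Fin N)) : (NR c R).Normal := by
  unfold NR
  infer_instance

/-- iterated commutators `[a_1, [a_2, [.., a_n]]]` -/
def brk : List P → P
  | [] => 1
  | [a] => a
  | a :: b :: l => a * brk (b :: l) * a⁻¹ * (brk (b :: l))⁻¹

/-- a system of labels -/
structure LS (Nc : ℕ) (P Λ : Type) [Group P] where
  val : Λ → P
  cls : Λ → Fin Nc
  mu : Λ → ℝ

/-- the exact labels -/
def LSx {p N : ℕ} (c : CL p N P) : LS N P (Px c) := ⟨fun x => x.1, cid, fun _ => 1⟩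

end grp

/-- the cutoff function -/
def psi (t : ℝ) : ℝ := min 1 (max 0 (2 - t))

/-- the threshold -/
def T0 (ε Y : ℝ) : ℝ := Real.exp (Real.log Y ^ ε)

section loc

variable {K : Type} [Field K] [NumberField K] {Ω : Type} [Field Ω] [Algebra K Ω]
  {p : ℕ} {ζ : K} {D : RD0 K p ζ} {P : Type} [Group P]

/-- the primes which can be labelled -/
def Zg (D : RD0 K p ζ) (Zw E : Finset (Pl K)) : Finset (Pl K) := (Zw \ E).filter D.Gd

/-- the labelling of the primes -/
def lab {Λ : Type} (E : Finset (Pl K)) (e : Pl K → P) (val : Λ → P) (f : Pl K → Option Λ)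
    (v : Pl K) : P := if v ∈ E then e v else (f v).elim 1 val

/-- evaluation of words -/
def ev (A : GS D Ω) (g : Pl K → P) (α : Fin A.g → P) : FW A →* P :=
  FreeGroup.lift (Sum.elim g α)

/-- the evaluation modulo `N` is honest and surjective -/
def Hs (L : LDs D Ω) (A : GS D Ω) (E : Finset (Pl K)) (N : Subgroup P) [N.Normal]
    (n : Finset (Pl K)) (θ : FW A →* P) : Prop :=
  ∃ φ : Gal(Ω/K) →* P ⧸ N, HonE L E n φ ∧ Function.Surjective φ ∧
    hat L A φ = (QuotientGroup.mk' N).comp θ

/-- the norm of a configuration -/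
def nc {Λ : Type} (Z : Finset (Pl K)) (f : Pl K → Option Λ) : ℝ := nr (sp Z f)

/-- `v` is a large prime of a rich class -/
def RL {Nc : ℕ} {Λ : Type} (cls : Λ → Fin Nc) (R : Finset (Fin Nc)) (T : ℝ) (v : Pl K) (x : Λ) :
    Prop := cls x ∈ R ∧ T < (nm v : ℝ)

/-- the number of large primes of class `i` -/
def cn {Nc : ℕ} {Λ : Type} (cls : Λ → Fin Nc) (Z : Finset (Pl K)) (T : ℝ)
    (f : Pl K → Option Λ) (i : Fin Nc) : ℕ :=
  (Z.filter fun v => T < (nm v : ℝ) ∧ (f v).map cls = some i).card

/-- the rich classes are those of `R` -/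
def Pat {Nc : ℕ} {Λ : Type} (cls : Λ → Fin Nc) (R : Finset (Fin Nc)) (Z : Finset (Pl K)) (T : ℝ)
    (M : ℕ) (f : Pl K → Option Λ) : Prop := ∀ i, i ∈ R ↔ M ≤ cn cls Z T f i

/-- the sum over the configurations with pattern `R` -/
def SA {Nc : ℕ} {Λ : Type} [Fintype Λ] [Fintype P] (S : LS Nc P Λ) (L : LDs D Ω) (A : GS D Ω)
    (Fr : FR L) (N : Subgroup P) [N.Normal] (R : Finset (Fin Nc)) (M Mw : ℕ) (T : ℝ)
    (Zw E : Finset (Pl K)) (e : Pl K → P) (W : Λ → P → ℝ) (Y : ℝ) : ℝ :=
  ∑ f ∈ Cf (Zg D Zw E) Λ, ∑ α : Fin A.g → P,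
    if Pat S.cls R (Zg D Zw E) T M f ∧
        Hs L A E N (sp (Zg D Zw E) f) (ev A (lab E e S.val f) α) then
      psi (nc (Zg D Zw E) f / Y) * om (Zg D Zw E) (fun v x =>
        if RL S.cls R T v x then W x (ev A (lab E e S.val f) α (wdE L A Mw E Zw (Fr.F v)))
        else S.mu x) f
    else 0

end loc

end H35.UB
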