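import Pool.Agent.H35.UB.Fou
import Pool.Agent.H35.CF.Fib

/-!
# [H35 UB EXT] expansion in characters

* `WOk`: the conditions on a system of labels `S` with weights `W` (`b` a bound). `Le`: the extended labels `(x, q, χ)`, `q ∈ P ⧸ N` the value of the
  Frobenius modulo `N`, `χ` a character of `Nk N n`. `tl x`: the label for the box lemma.
* `we`: the weight of the extended label. `SE Φ`: the sum over the extended configurations with a weight `Φ` of the numbers of large primes of each label.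
* `PatN`: the pattern in terms of these numbers. `BadN`: two characters which occur at least `n + 2` times with the same `(x, q)`, the class of `x` in `R`.
* `ext`: `SA = SE` with `Φ` the indicator function of `PatN`. Proof: `cf_fib` for the projection `Le → Λ` and fixed `α` (the words, `Hs`, `nc` and `Pat` depend
  on the projection only): the sum of `we` over `(q, χ)` is `W x y` for large primes of rich classes (`wh_sum`) and `mu x` otherwise; `PatN` of the counts
  is `Pat` of the projection (`cn` is the sum of the `ct` over the labels of the class `i`).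
-/

set_option autoImplicit false

open scoped NumberField
open IsDedekindDomain
open scoped Classical

noncomputable section

namespace H35.UB

open H63.MA H38.BB H38.BG H57.PC H57.BRA H77.WD H77.WE H77.PC3 H35.CF

section grp

variable {P Λ : Type} [Group P] {p n Nc : ℕ}

/-- the conditions on labels and weights -/
structure WOk (p : ℕ) (S : LS Nc P Λ) (N : Subgroup P) [N.Normal] (n : ℕ) (R : Finset (Fin Nc))
    (W : Λ → P → ℝ) (b : ℝ) : Prop where
  b1 : 1 ≤ b
  mu0 : ∀ x, 0 ≤ S.mu x ∧ S.mu x ≤ b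
  w0 : ∀ x y, 0 ≤ W x y ∧ W x y ≤ b
  wN : ∀ x, S.cls x ∈ R → (∃ y, W x y ≠ 0) → S.val x ∈ N ∧ S.val x ^ p = 1
  winv : ∀ x, S.cls x ∈ R → ∀ z ∈ Nk N n, ∀ y, W x (z * y * z⁻¹) = W x y
  wfix : ∀ x y, S.cls x ∈ R → W x y ≠ 0 → y * S.val x * y⁻¹ * (S.val x)⁻¹ ∈ Nk N 1
  span : ∀ s : Fin Nc → Λ, (∀ i ∈ R, S.cls (s i) = i ∧ ∃ y, W (s i) y ≠ 0) →
    N ≤ Subgroup.normalClosure {y | ∃ i ∈ R, y = S.val (s i)} ⊔ Nk N 1

/-- the extended labels -/
abbrev Le (p : ℕ) (Λ : Type) (N : Subgroup P) [N.Normal] (n : ℕ) : Type :=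
  Λ × (P ⧸ N) × Xc p N n

/-- the label for the box lemma -/
def tl (S : LS Nc P Λ) {N : Subgroup P} [N.Normal] (x : Le p Λ N n) : Lt p P N :=
  ⟨S.val x.1, x.2.1, xt x.2.2⟩

/-- the pattern -/
def PatN [NeZero p] [Fintype Λ] [Fintype P] (S : LS Nc P Λ) {N : Subgroup P} [N.Normal]
    (R : Finset (Fin Nc)) (M : ℕ) (ν : Le p Λ N n → ℕ) : Prop :=
  ∀ i, i ∈ R ↔ M ≤ ∑ x ∈ Finset.univ.filter (fun x : Le p Λ N n => S.cls x.1 = i), ν x

/-- two different characters which occur often -/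
def BadN (S : LS Nc P Λ) {N : Subgroup P} [N.Normal] (R : Finset (Fin Nc))
    (ν : Le p Λ N n → ℕ) : Prop :=
  ∃ (x : Λ) (q : P ⧸ N) (χ χ' : Xc p N n), S.cls x ∈ R ∧ χ ≠ χ' ∧ n + 2 ≤ ν (x, q, χ) ∧
    n + 2 ≤ ν (x, q, χ')

end grp

section aux

variable {V Λ Λ' : Type}

theorem sp_mp (Z : Finset V) (π : Λ → Λ') (f : V → Option Λ) : sp Z (mp π f) = sp Z f := by
  ext v
  rw [mem_sp, mem_sp]
  unfold mp
  rw [Ne, Option.map_eq_none_iff]

theorem om_cast (Z : Finset V) (a : V → Λ → ℝ) (c : V → Option Λ) :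
    ((om Z a c : ℝ) : ℂ) = om Z (fun v x => (a v x : ℂ)) c := by
  unfold om
  rw [Complex.ofReal_prod]
  refine Finset.prod_congr rfl fun v _ => ?_
  cases c v with
  | none => exact Complex.ofReal_one
  | some x => rfl

end aux

section loc

variable {K : Type} [Field K] [NumberField K] {Ω : Type} [Field Ω] [Algebra K Ω]
  {p : ℕ} [NeZero p] {ζ : K} {D : RD0 K p ζ} {P : Type} [Group P] [Fintype P] {Nc n : ℕ}
  {Λ : Type} [Fintype Λ]

/-- the weight of an extended label -/
def we (S : LS Nc P Λ) (N : Subgroup P) [N.Normal] (n : ℕ) (R : Finset (Fin Nc)) (T : ℝ)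
    (W : Λ → P → ℝ) (v : Pl K) (x : Le p Λ N n) (y : P) : ℂ :=
  if RL S.cls R T v x.1 then (if (y : P ⧸ N) = x.2.1 then Wh N n (W x.1) x.2.2 y else 0)
  else if x.2.1 = 1 ∧ x.2.2 = 1 then (S.mu x.1 : ℂ) else 0

/-- the sum over the extended configurations -/
def SE (S : LS Nc P Λ) (L : LDs D Ω) (A : GS D Ω) (Fr : FR L) (N : Subgroup P) [N.Normal]
    (n : ℕ) (R : Finset (Fin Nc)) (Mw : ℕ) (T : ℝ) (Zw E : Finset (Pl K)) (e : Pl K → P)
    (W : Λ → P → ℝ) (Φ : (Le p Λ N n → ℕ) → ℂ) (Y : ℝ) : ℂ :=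
  ∑ f ∈ Cf (Zg D Zw E) (Le p Λ N n), ∑ α : Fin A.g → P,
    if Hs L A E N (sp (Zg D Zw E) f) (ev A (lab E e (fun x => S.val x.1) f) α) then
      Φ (ct (Zg D Zw E) (fun v => T < (nm v : ℝ)) f) * (psi (nc (Zg D Zw E) f / Y) : ℂ) *
        om (Zg D Zw E) (fun v x => we S N n R T W v x
          (ev A (lab E e (fun x => S.val x.1) f) α (wdE L A Mw E Zw (Fr.F v)))) f
    else 0

section hlp

variable {N : Subgroup P} [N.Normal]

omit [NeZero p] [Fintype P] [Fintype Λ] in
theorem lab_mp (E : Finset (Pl K)) (e : Pl K → P) (val : Λ → P)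
    (f : Pl K → Option (Le p Λ N n)) :
    lab E e (fun x : Le p Λ N n => val x.1) f = lab E e val (mp Prod.fst f) := by
  funext v
  unfold lab mp
  cases f v <;> rfl

theorem cn_ct (cls : Λ → Fin Nc) (Z : Finset (Pl K)) (T : ℝ)
    (f : Pl K → Option (Le p Λ N n)) (i : Fin Nc) :
    cn cls Z T (mp Prod.fst f) i = ∑ x ∈ Finset.univ.filter (fun x : Le p Λ N n => cls x.1 = i),
      ct Z (fun v => T < (nm v : ℝ)) f x := by
  unfold cn ct
  rw [← Finset.card_biUnion]
  · congr 1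
    ext v
    rw [Finset.mem_filter, Finset.mem_biUnion]
    constructor
    · rintro ⟨h1, h2, h3⟩
      unfold mp at h3
      cases hf : f v with
      | none => rw [hf] at h3; simp at h3
      | some x =>
        rw [hf] at h3
        refine ⟨x, ?_, ?_⟩
        · rw [Finset.mem_filter]
          exact ⟨Finset.mem_univ _, by simpa using h3⟩
        · rw [Finset.mem_filter, mem_pl]
          exact ⟨⟨h1, hf⟩, h2⟩
    · rintro ⟨x, hx, hv⟩
      rw [Finset.mem_filter, mem_pl] at hv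
      refine ⟨hv.1.1, hv.2, ?_⟩
      unfold mp
      rw [hv.1.2]
      simpa using (Finset.mem_filter.1 hx).2
  · intro x _ y _ hxy
    rw [Function.onFun, Finset.disjoint_left]
    intro v h1 h2
    rw [Finset.mem_filter, mem_pl] at h1 h2
    exact hxy (Option.some.inj (h1.1.2.symm.trans h2.1.2))

theorem we_sum (hp : p.Prime) (S : LS Nc P Λ) (hn : Nk N (n + 1) = ⊥)
    (hV : ∀ u ∈ Nk N n, u ^ p = 1)
    (R : Finset (Fin Nc)) (T : ℝ) (W : Λ → P → ℝ) (v : Pl K) (y : Λ) (z : P) :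
    ∑ x ∈ Finset.univ.filter (fun x : Le p Λ N n => x.1 = y), we S N n R T W v x z =
      ((if RL S.cls R T v y then W y z else S.mu y : ℝ) : ℂ) := by
  have h1 : ∀ g : Le p Λ N n → ℂ, ∑ x ∈ Finset.univ.filter (fun x : Le p Λ N n => x.1 = y), g x =
      ∑ x : (P ⧸ N) × Xc p N n, g (y, x) := by
    intro g
    rw [Finset.sum_filter, Fintype.sum_prod_type]
    rw [Finset.sum_eq_single y]
    · refine Finset.sum_congr rfl fun x _ => ?_
      rw [if_pos rfl]
    · intro z _ hz
      refine Finset.sum_eq_zero fun x _ => ?_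
      rw [if_neg hz]
    · intro h
      exact absurd (Finset.mem_univ _) h
  rw [h1]
  unfold we
  by_cases hR : RL S.cls R T v y
  · simp only [if_pos hR]
    rw [Fintype.sum_prod_type, Finset.sum_eq_single ((z : P ⧸ N))]
    · simp only [if_true]
      exact wh_sum hp N n hn hV (W y) z
    · intro q _ hq
      refine Finset.sum_eq_zero fun x _ => ?_
      exact if_neg fun h => hq h.symm
    · intro h
      exact absurd (Finset.mem_univ _) h
  · simp only [if_neg hR]
    rw [Finset.sum_eq_single ((1 : P ⧸ N), (1 : Xc p N n))]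
    · rw [if_pos ⟨rfl, rfl⟩]
    · intro x _ hx
      exact if_neg fun h => hx (Prod.ext h.1 h.2)
    · intro h
      exact absurd (Finset.mem_univ _) h

end hlp

theorem ext (hp : p.Prime) (S : LS Nc P Λ) (L : LDs D Ω)
    (A : GS D Ω) (Fr : FR L) (N : Subgroup P) [N.Normal] (hn : Nk N (n + 1) = ⊥)
    (hV : ∀ u ∈ Nk N n, u ^ p = 1)
    (R : Finset (Fin Nc)) (M Mw : ℕ) (T : ℝ) (Zw E : Finset (Pl K)) (e : Pl K → P)
    (W : Λ → P → ℝ) (Y : ℝ) :
    (SA S L A Fr N R M Mw T Zw E e W Y : ℂ) =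
      SE S L A Fr N n R Mw T Zw E e W (fun ν => if PatN S R M ν then 1 else 0) Y := by
  unfold SA SE
  rw [Finset.sum_comm, Finset.sum_comm (s := Cf (Zg D Zw E) (Le p Λ N n)), Complex.ofReal_sum]
  refine Finset.sum_congr rfl fun α _ => ?_
  rw [Complex.ofReal_sum]
  have h1 := cf_fib (Zg D Zw E) (Prod.fst : Le p Λ N n → Λ)
    (fun c => if Pat S.cls R (Zg D Zw E) T M c ∧
        Hs L A E N (sp (Zg D Zw E) c) (ev A (lab E e S.val c) α) then
        (psi (nc (Zg D Zw E) c / Y) : ℂ) else 0)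
    (fun c v x => we S N n R T W v x (ev A (lab E e S.val c) α (wdE L A Mw E Zw (Fr.F v))))
  have h2 : ∀ c ∈ Cf (Zg D Zw E) Λ, ((if Pat S.cls R (Zg D Zw E) T M c ∧
        Hs L A E N (sp (Zg D Zw E) c) (ev A (lab E e S.val c) α) then
      psi (nc (Zg D Zw E) c / Y) * om (Zg D Zw E) (fun v x =>
        if RL S.cls R T v x then W x (ev A (lab E e S.val c) α (wdE L A Mw E Zw (Fr.F v)))
        else S.mu x) c
    else 0 : ℝ) : ℂ) = (if Pat S.cls R (Zg D Zw E) T M c ∧
        Hs L A E N (sp (Zg D Zw E) c) (ev A (lab E e S.val c) α) then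
        (psi (nc (Zg D Zw E) c / Y) : ℂ) else 0) *
      om (Zg D Zw E) (fun v y => ∑ x ∈ Finset.univ.filter (fun x : Le p Λ N n => x.1 = y),
        we S N n R T W v x (ev A (lab E e S.val c) α (wdE L A Mw E Zw (Fr.F v)))) c := by
    intro c _
    simp only [we_sum hp S hn hV R T W]
    rw [← om_cast]
    split_ifs with h
    · rw [Complex.ofReal_mul]
    · rw [Complex.ofReal_zero, zero_mul]
  rw [Finset.sum_congr rfl h2]
  refine Eq.trans h1.symm (Finset.sum_congr rfl fun f _ => ?_)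
  rw [lab_mp, sp_mp]
  beta_reduce
  have h3 : PatN S R M (ct (Zg D Zw E) (fun v => T < (nm v : ℝ)) f) ↔
      Pat S.cls R (Zg D Zw E) T M (mp Prod.fst f) := by
    unfold PatN Pat
    simp only [cn_ct]
  have h4 : nc (Zg D Zw E) (mp Prod.fst f) = nc (Zg D Zw E) f := by
    unfold nc
    rw [sp_mp]
  rw [h4]
  by_cases hH : Hs L A E N (sp (Zg D Zw E) f) (ev A (lab E e S.val (mp Prod.fst f)) α)
  · rw [if_pos hH]
    by_cases hP : Pat S.cls R (Zg D Zw E) T M (mp Prod.fst f)
    · rw [if_pos ⟨hP, hH⟩, if_pos (h3.2 hP), one_mul]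
    · rw [if_neg fun h => hP h.1, if_neg fun h => hP (h3.1 h), zero_mul, zero_mul, zero_mul]
  · rw [if_neg hH, if_neg fun h => hH h.2, zero_mul]

end loc

end H35.UB
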