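import Pool.Agent.H35.UB.Box
import Pool.Agent.H35.UB.Nkl

/-!
# [H35 UB FOU] Fourier expansion along `Nk N n`

`Nk N (n+1) = 1`, so `V = Nk N n` is a central subgroup of `N`; it is elementary abelian (`hV`).
* `Xc`: the characters of `V` with values in `ZMod p` (`card = card V`). `xt χ : P → ZMod p`: extension by `0`.
* `Wh N n W χ x`: the `χ`-component of the function `u ↦ W (x u)`. `wav N n W x`: the mean.
* `wh_sum`: `W` is the sum of its components. `wh_le`: `‖Wh‖ ≤ wav` for `W ≥ 0`. `wh_mul`: equivariance. `wh_fix`: if `W` is invariant under conjugation by `V`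
  and `Wh ≠ 0` at `x`, then `χ` is invariant under conjugation by all `y ≡ x` modulo `N` (`W (z x u z⁻¹) = W (x u [..])`: `z x z⁻¹ = x (x⁻¹ z x) z⁻¹`, so
  `Wh χ x = ep (χ ((x⁻¹ z x) z⁻¹)) Wh χ x`; conjugation by elements of `N` is trivial on `V`).
-/

set_option autoImplicit false

open scoped Classical

noncomputable section

namespace H35.UB

open H63.MA

variable {P : Type} [Group P] {p : ℕ}

/-- the characters of `Nk N n` -/
abbrev Xc (p : ℕ) (N : Subgroup P) (n : ℕ) : Type := (Nk N n) →* Multiplicative (ZMod p)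

/-- extension by zero -/
def xt {N : Subgroup P} {n : ℕ} (χ : Xc p N n) (x : P) : ZMod p :=
  if h : x ∈ Nk N n then Multiplicative.toAdd (χ ⟨x, h⟩) else 0

instance [NeZero p] [Finite P] (N : Subgroup P) (n : ℕ) : Finite (Xc p N n) := by
  haveI : Finite (Multiplicative (ZMod p)) := inferInstanceAs (Finite (ZMod p))
  exact Finite.of_injective (fun f : Xc p N n => (f : Nk N n → Multiplicative (ZMod p)))
    DFunLike.coe_injective

instance [NeZero p] [Finite P] (N : Subgroup P) (n : ℕ) : Fintype (Xc p N n) := Fintype.ofFinite _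

/-- the component -/
def Wh [Fintype P] (N : Subgroup P) (n : ℕ) (W : P → ℝ) (χ : Xc p N n) (x : P) : ℂ :=
  (∑ u : Nk N n, ep p (-(Multiplicative.toAdd (χ u))) * (W (x * u) : ℂ)) / Nat.card (Nk N n)

/-- the mean -/
def wav [Fintype P] (N : Subgroup P) (n : ℕ) (W : P → ℝ) (x : P) : ℝ :=
  (∑ u : Nk N n, W (x * u)) / Nat.card (Nk N n)

private theorem fou_vec {W : Type} {p : ℕ} [Fact p.Prime] [AddCommGroup W] [Module (ZMod p) W] [Finite W] :
    Nat.card (W →+ ZMod p) = Nat.card W ∧ ∀ u : W, u ≠ 0 → ∃ χ : W →+ ZMod p, χ u ≠ 0 := by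
  constructor
  · rw [Nat.card_congr (AddMonoidHom.toZModLinearMapEquiv (M := W) (M₁ := ZMod p) p).toEquiv]
    exact (Nat.card_congr (Module.finBasis (ZMod p) W).toDualEquiv.toEquiv).symm
  · intro u hu
    by_contra hc
    push Not at hc
    apply hu
    rw [← (Module.finBasis (ZMod p) W).forall_coord_eq_zero_iff (R := ZMod p)]
    intro i
    exact hc ((Module.finBasis (ZMod p) W).coord i).toAddMonoidHom

private theorem fou_card {V : Type} [CommGroup V] [Finite V] {p : ℕ} (hp : p.Prime)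
    (hV : ∀ x : V, x ^ p = 1) :
    Nat.card (V →* Multiplicative (ZMod p)) = Nat.card V ∧
      ∀ u : V, u ≠ 1 → ∃ χ : V →* Multiplicative (ZMod p), χ u ≠ 1 := by
  have := Fact.mk hp
  let _ : Module (ZMod p) (Additive V) :=
    AddCommGroup.zmodModule (fun x => congrArg Additive.ofMul (hV x.toMul))
  obtain ⟨h1, h2⟩ := fou_vec (W := Additive V) (p := p)
  have h3 : Nat.card (V →* Multiplicative (ZMod p)) = Nat.card (Additive V →+ ZMod p) :=
    Nat.card_congr AddMonoidHom.toMultiplicativeRight.symm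
  constructor
  · rw [h3, h1]
    exact Nat.card_congr Additive.toMul
  · intro u hu
    obtain ⟨χ, hχ⟩ := h2 (Additive.ofMul u) hu
    exact ⟨AddMonoidHom.toMultiplicativeRight χ, hχ⟩

private theorem fou_orth {V : Type} [CommGroup V] [Finite V] {p : ℕ} (hp : p.Prime)
    (hV : ∀ x : V, x ^ p = 1) [Fintype (V →* Multiplicative (ZMod p))] (u : V) :
    ∑ χ : V →* Multiplicative (ZMod p), ep p (-(Multiplicative.toAdd (χ u))) =
      if u = 1 then (Nat.card V : ℂ) else 0 := by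
  by_cases hu : u = 1
  · rw [if_pos hu, hu]
    have h1 : ∀ χ : V →* Multiplicative (ZMod p), ep p (-(Multiplicative.toAdd (χ 1))) = 1 := by
      intro χ
      rw [map_one, toAdd_one, neg_zero, ep_zero]
    rw [Finset.sum_congr rfl fun χ _ => h1 χ, Finset.sum_const, Finset.card_univ, nsmul_eq_mul, mul_one,
      ← Nat.card_eq_fintype_card, (fou_card hp hV).1]
  · obtain ⟨χ0, hχ0⟩ := (fou_card hp hV).2 u hu
    rw [if_neg hu]
    have h1 : ep p (-(Multiplicative.toAdd (χ0 u))) *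
        ∑ χ : V →* Multiplicative (ZMod p), ep p (-(Multiplicative.toAdd (χ u))) =
        ∑ χ : V →* Multiplicative (ZMod p), ep p (-(Multiplicative.toAdd (χ u))) := by
      rw [Finset.mul_sum]
      refine Fintype.sum_bijective (fun χ => χ0 * χ) (Group.mulLeft_bijective χ0) _ _ (fun χ => ?_)
      rw [MonoidHom.mul_apply, toAdd_mul, neg_add, ep_add hp]
    have h2 : ep p (-(Multiplicative.toAdd (χ0 u))) ≠ 1 := by
      rw [Ne, ep_eq_one hp, neg_eq_zero]
      intro h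
      exact hχ0 h
    have h3 : (ep p (-(Multiplicative.toAdd (χ0 u))) - 1) *
        ∑ χ : V →* Multiplicative (ZMod p), ep p (-(Multiplicative.toAdd (χ u))) = 0 := by
      rw [sub_mul, one_mul, h1, sub_self]
    exact (mul_eq_zero.1 h3).resolve_left (sub_ne_zero.2 h2)

open scoped commutatorElement in
private theorem fou_comm {N : Subgroup P} {n : ℕ} (hn : Nk N (n + 1) = ⊥) {a m : P}
    (ha : a ∈ Nk N n) (hm : m ∈ N) : a * m = m * a := by
  have h : ⁅a, m⁆ ∈ Nk N (n + 1) := Subgroup.commutator_mem_commutator ha hm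
  rw [hn, Subgroup.mem_bot] at h
  exact commutatorElement_eq_one_iff_mul_comm.1 h

/-- the commutative group `Nk N n` -/
@[reducible] private def fou_grp (N : Subgroup P) [N.Normal] (n : ℕ) (hn : Nk N (n + 1) = ⊥) : CommGroup (Nk N n) :=
  { (inferInstance : Group (Nk N n)) with
    mul_comm := fun a b => Subtype.ext (fou_comm hn a.2 (nk_anti N (Nat.zero_le n) b.2)) }

theorem xt_add {N : Subgroup P} {n : ℕ} (χ : Xc p N n) (u v : P) (hu : u ∈ Nk N n)
    (hv : v ∈ Nk N n) : xt χ (u * v) = xt χ u + xt χ v := by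
  unfold xt
  rw [dif_pos hu, dif_pos hv, dif_pos ((Nk N n).mul_mem hu hv), ← toAdd_mul, ← map_mul]
  rfl

theorem wh_sum [NeZero p] (hp : p.Prime) [Fintype P] (N : Subgroup P) [N.Normal] (n : ℕ)
    (hn : Nk N (n + 1) = ⊥) (hV : ∀ x ∈ Nk N n, x ^ p = 1) (W : P → ℝ) (x : P) :
    ∑ χ : Xc p N n, Wh N n W χ x = (W x : ℂ) := by
  let _ := fou_grp N n hn
  have horth : ∀ u : Nk N n, ∑ χ : Xc p N n, ep p (-(Multiplicative.toAdd (χ u))) =
      if u = 1 then (Nat.card (Nk N n) : ℂ) else 0 :=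
    fun u => by
      rw [fou_orth (V := Nk N n) hp (fun x => Subtype.ext (hV x.1 x.2)) u]
      congr
  have hc : (Nat.card (Nk N n) : ℂ) ≠ 0 := by
    rw [Nat.cast_ne_zero]
    exact Nat.card_pos.ne'
  unfold Wh
  rw [← Finset.sum_div, Finset.sum_comm]
  have h1 : ∀ u : Nk N n, ∑ χ : Xc p N n, ep p (-(Multiplicative.toAdd (χ u))) * (W (x * u) : ℂ) =
      if u = 1 then (Nat.card (Nk N n) : ℂ) * (W x : ℂ) else 0 := by
    intro u
    rw [← Finset.sum_mul, horth u]
    split_ifs with hu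
    · rw [hu, Subgroup.coe_one, mul_one]
    · rw [zero_mul]
  rw [Finset.sum_congr rfl fun u _ => h1 u, Finset.sum_ite_eq' Finset.univ (1 : Nk N n),
    if_pos (Finset.mem_univ _)]
  field_simp

theorem xc_card [NeZero p] (hp : p.Prime) [Fintype P] (N : Subgroup P) [N.Normal] (n : ℕ)
    (hn : Nk N (n + 1) = ⊥) (hV : ∀ x ∈ Nk N n, x ^ p = 1) :
    Fintype.card (Xc p N n) = Nat.card (Nk N n) := by
  let _ := fou_grp N n hn
  rw [← Nat.card_eq_fintype_card]
  exact (fou_card (V := Nk N n) hp (fun x => Subtype.ext (hV x.1 x.2))).1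

theorem wh_le [NeZero p] [Fintype P] (N : Subgroup P) (n : ℕ) (W : P → ℝ) (hW : ∀ x, 0 ≤ W x)
    (χ : Xc p N n) (x : P) : ‖Wh N n W χ x‖ ≤ wav N n W x := by
  unfold Wh wav
  rw [norm_div, Complex.norm_natCast]
  refine div_le_div_of_nonneg_right ?_ (Nat.cast_nonneg _)
  refine (norm_sum_le _ _).trans (Finset.sum_le_sum fun u _ => ?_)
  rw [norm_mul, ep_norm, one_mul, Complex.norm_real, Real.norm_eq_abs, abs_of_nonneg (hW _)]

theorem wh_mul [NeZero p] [Fintype P] (N : Subgroup P) [N.Normal] (n : ℕ)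
    (hn : Nk N (n + 1) = ⊥) (W : P → ℝ) (χ : Xc p N n) (x u : P) (hu : u ∈ Nk N n) :
    Wh N n W χ (x * u) = ep p (xt χ u) * Wh N n W χ x := by
  have hadd : ∀ a b : ZMod p, ep p (a + b) = ep p a * ep p b := fun a b => by
    rw [rayc_std, rayc_std, rayc_std, AddChar.map_add_eq_mul]
  have h1 : xt χ u = Multiplicative.toAdd (χ ⟨u, hu⟩) := dif_pos hu
  unfold Wh
  rw [← mul_div_assoc, Finset.mul_sum]
  congr 1
  refine Fintype.sum_bijective (fun v : Nk N n => (⟨u, hu⟩ : Nk N n) * v) (Group.mulLeft_bijective _) _ _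
    (fun v => ?_)
  rw [h1, map_mul, toAdd_mul, neg_add, hadd, ← mul_assoc, ← mul_assoc, ← hadd, add_neg_cancel, ep_zero,
    one_mul, Subgroup.coe_mul, mul_assoc x u]

theorem wh_fix [NeZero p] (hp : p.Prime) [Fintype P] (N : Subgroup P) [N.Normal] (n : ℕ)
    (hn : Nk N (n + 1) = ⊥) (W : P → ℝ) (hW : ∀ z ∈ Nk N n, ∀ x, W (z * x * z⁻¹) = W x)
    (χ : Xc p N n) (x : P) (h : Wh N n W χ x ≠ 0) (y : P) (hy : (y : P ⧸ N) = (x : P ⧸ N)) :
    ∀ u ∈ Nk N n, xt χ (y * u * y⁻¹) = xt χ u := by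
  have hc : ∀ a ∈ Nk N n, ∀ m ∈ N, a * m = m * a := fun a ha m hm => fou_comm hn ha hm
  have hVN : Nk N n ≤ N := nk_anti N (Nat.zero_le n)
  have hnorm : (Nk N n).Normal := nk_normal N n
  have key : ∀ z ∈ Nk N n, xt χ (x⁻¹ * z * x * z⁻¹) = 0 := by
    intro z hz
    have hm : x⁻¹ * z * x * z⁻¹ ∈ Nk N n := by
      have h1 := hnorm.conj_mem z hz x⁻¹
      rw [inv_inv] at h1
      exact (Nk N n).mul_mem h1 ((Nk N n).inv_mem hz)
    have h1 : z * x * z⁻¹ = x * (x⁻¹ * z * x * z⁻¹) := by group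
    have h2 : Wh N n W χ (z * x * z⁻¹) = Wh N n W χ x := by
      unfold Wh
      congr 1
      refine Finset.sum_congr rfl fun u _ => ?_
      have h3 : z * x * z⁻¹ * (u : P) = z * (x * u) * z⁻¹ := by
        have h4 : z⁻¹ * (u : P) = (u : P) * z⁻¹ := hc _ ((Nk N n).inv_mem hz) _ (hVN u.2)
        calc z * x * z⁻¹ * (u : P) = z * x * (z⁻¹ * (u : P)) := by rw [mul_assoc]
          _ = z * (x * u) * z⁻¹ := by rw [h4]; group
      rw [h3, hW z hz]
    rw [h1, wh_mul N n hn W χ x _ hm] at h2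
    have h3 : ep p (xt χ (x⁻¹ * z * x * z⁻¹)) = 1 := mul_right_cancel₀ h (by rw [h2, one_mul])
    exact (ep_eq_one hp _).1 h3
  intro u hu
  have hxy : x⁻¹ * y ∈ N := QuotientGroup.eq.1 hy.symm
  have h4 : y * u * y⁻¹ = x * u * x⁻¹ := by
    have h5 := hc u hu _ hxy
    calc y * u * y⁻¹ = x * (x⁻¹ * y * u) * y⁻¹ := by group
      _ = x * (u * (x⁻¹ * y)) * y⁻¹ := by rw [h5]
      _ = x * u * x⁻¹ := by group
  rw [h4]
  have hz : x * u * x⁻¹ ∈ Nk N n := hnorm.conj_mem u hu x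
  have h6 := key _ hz
  have h7 : x⁻¹ * (x * u * x⁻¹) * x * (x * u * x⁻¹)⁻¹ = u * (x * u * x⁻¹)⁻¹ := by group
  rw [h7, xt_add χ _ _ hu ((Nk N n).inv_mem hz)] at h6
  have h8 := xt_add χ (x * u * x⁻¹) (x * u * x⁻¹)⁻¹ hz ((Nk N n).inv_mem hz)
  have h9 : xt χ (1 : P) = 0 := by
    have h10 := xt_add χ (1 : P) 1 (one_mem _) (one_mem _)
    rw [mul_one] at h10
    exact left_eq_add.1 h10
  rw [mul_inv_cancel, h9] at h8
  linear_combination (-1 : ZMod p) * h8 - h6

end H35.UB
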