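import Pool.Agent.H93.UB.Cnt

/-!
# [H35 UB GCN] the number of good assignments

`s` a finite set, `κ : V → B`, `X` finite. `χ : s → X` is good if for every `b ∈ B` at most one `x ∈ X` occurs at least `t` times among the `v` with `κ v = b`.
`gcn`: the number of good `χ` is at most `C (#s + 1)^C`. Proof: choose for every `b` the frequent value `x_b` (or an arbitrary one); the set
`U = {v : χ v ≠ x_(κ v)}` has at most `t #B #X` elements, and `χ` is determined by `(x_b)_b`, the set `U` and `χ` on `U`: code `χ` by a function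
`Fin (t #B #X) → Option (s × X)` (enumeration of `U`). (`cnt_un` in `H93/UB/Cnt`.)
-/

set_option autoImplicit false

open scoped Classical

noncomputable section

namespace H35.UB

theorem gcn (B X : Type) [Fintype B] [Fintype X] (t : ℕ) : ∃ C : ℕ, ∀ (V : Type) (s : Finset V)
    (κ : V → B), (Finset.univ.filter fun χ : s → X => ∀ b x x', x ≠ x' →
      ¬ (t ≤ (Finset.univ.filter fun v : s => κ v = b ∧ χ v = x).card ∧
        t ≤ (Finset.univ.filter fun v : s => κ v = b ∧ χ v = x').card)).card ≤
      C * (s.card + 1) ^ C := by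
  obtain ⟨M, hM⟩ : ∃ M, M = t * (Fintype.card B * Fintype.card X) := ⟨_, rfl⟩
  refine ⟨(Fintype.card X + 1) ^ (Fintype.card B + M) + M, fun V s κ => ?_⟩
  have h1 : (Finset.univ.filter fun χ : s → X => H93.UB.Un t (fun v : s => κ v) χ).card ≤
      (Fintype.card X + 1) ^ Fintype.card B *
        (Fintype.card s * Fintype.card X + 1) ^ (t * (Fintype.card B * Fintype.card X)) := by
    refine le_trans ?_ (H93.UB.cnt_un (X := X) t (fun v : s => κ v))
    refine Finset.card_le_card fun χ hχ => ?_
    have hχ' := (Finset.mem_filter.mp hχ).2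
    exact Finset.mem_filter.mpr ⟨@Finset.mem_univ (s → X) (_) χ, hχ'⟩
  have h2 : (Finset.univ.filter fun χ : s → X => ∀ b x x', x ≠ x' →
      ¬ (t ≤ (Finset.univ.filter fun v : s => κ v = b ∧ χ v = x).card ∧
        t ≤ (Finset.univ.filter fun v : s => κ v = b ∧ χ v = x').card)).card ≤
      (Finset.univ.filter fun χ : s → X => H93.UB.Un t (fun v : s => κ v) χ).card := by
    refine Finset.card_le_card fun χ hχ => ?_
    rw [Finset.mem_filter] at hχ ⊢
    refine ⟨Finset.mem_univ _, fun b x x' hx hx' => ?_⟩
    by_contra hne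
    exact hχ.2 b x x' hne ⟨hx, hx'⟩
  refine h2.trans (h1.trans ?_)
  rw [← hM, Fintype.card_coe]
  have h3 : s.card * Fintype.card X + 1 ≤ (Fintype.card X + 1) * (s.card + 1) := by
    nlinarith
  calc (Fintype.card X + 1) ^ Fintype.card B * (s.card * Fintype.card X + 1) ^ M
      ≤ (Fintype.card X + 1) ^ Fintype.card B * ((Fintype.card X + 1) * (s.card + 1)) ^ M :=
        Nat.mul_le_mul_left _ (Nat.pow_le_pow_left h3 M)
    _ = (Fintype.card X + 1) ^ (Fintype.card B + M) * (s.card + 1) ^ M := by
        rw [mul_pow, pow_add]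
        ring
    _ ≤ ((Fintype.card X + 1) ^ (Fintype.card B + M) + M) *
        (s.card + 1) ^ ((Fintype.card X + 1) ^ (Fintype.card B + M) + M) :=
        Nat.mul_le_mul (Nat.le_add_right _ _)
          (Nat.pow_le_pow_right (Nat.succ_pos _) (Nat.le_add_left _ _))

end H35.UB
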