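import Pool.Agent.H35.CF.Cnt
import Pool.Agent.H35.UB.Ext
import Pool.Agent.H35.UB.Gcn

/-!
# [H35 UB GOO] the good part of the level step

`goo`: the part of `SE` with pattern `R` and without two frequent characters for the same `(x, q)` is at most `(C log log Y)^C` times the sum `SA` with the
weights replaced by their means `wav`, up to `Y (log Y)^(-A)`.
Proof. Absolute values. For a configuration `f'` with labels in `Λ` and `α` fixed, the sum over the `f` above `f'` (`mp Prod.fst f = f'`): at a large prime of a rich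
class only `q = y_v mod N` contributes, `‖Wh χ‖ ≤ wav`; elsewhere only `(1, 1)`: so the sum is at most the number of good assignments `χ` (`gcn` with
`κ v = (f' v, y_v mod N)`, `t = n + 2`) times the product of the weights (`BadN` of `ct f` is the condition of `gcn`). So the total is at most
`∑_(f', α) C (#sp f' + 1)^C psi om`. The `f'` with `#sp f' ≤ B log log Y` give the main term; for the others use `psi ≤ 1`, `psi = 0` for `nc > 2 Y`, all weights
at most `b`, and Rankin's bound (CF/Cnt, (2)) with `(m + 1)^C ≤ C' 2^m`.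
-/

set_option autoImplicit false

open scoped NumberField
open IsDedekindDomain
open scoped Classical

noncomputable section

namespace H35.UB

open H63.MA H38.BB H38.BG H57.PC H57.BRA H77.WD H77.WE H77.PC3 H35.CF

section fib

variable {K : Type} [Field K] [NumberField K] {p : ℕ} [NeZero p] {P : Type} [Group P] [Fintype P]
  {Nc n : ℕ} {Λ : Type} [Fintype Λ]

/-- the character of an extended label -/
private def chi {N : Subgroup P} [N.Normal] (o : Option (Le p Λ N n)) : Xc p N n :=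
  o.elim 1 fun x => x.2.2

/-- the class, if the prime is a large prime of a rich class -/
private def kap {N : Subgroup P} [N.Normal] (cls : Λ → Fin Nc) (R : Finset (Fin Nc)) (T : ℝ)
    (f' : Pl K → Option Λ) (y : Pl K → P) (v : Pl K) : Option (Λ × (P ⧸ N)) :=
  (f' v).bind fun x => if RL cls R T v x then some (x, (y v : P ⧸ N)) else none

theorem we_ne {S : LS Nc P Λ} {N : Subgroup P} [N.Normal] {R : Finset (Fin Nc)} {T : ℝ}
    {W : Λ → P → ℝ} {v : Pl K} {x : Le p Λ N n} {y : P} (h : we S N n R T W v x y ≠ 0) :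
    (RL S.cls R T v x.1 ∧ x.2.1 = (y : P ⧸ N)) ∨ (¬ RL S.cls R T v x.1 ∧ x.2.1 = 1 ∧ x.2.2 = 1) := by
  unfold we at h
  by_cases h1 : RL S.cls R T v x.1
  · rw [if_pos h1] at h
    left
    refine ⟨h1, ?_⟩
    by_contra h2
    exact h (if_neg fun h3 => h2 h3.symm)
  · rw [if_neg h1] at h
    right
    refine ⟨h1, ?_⟩
    by_contra h2
    exact h (if_neg h2)

theorem we_le {S : LS Nc P Λ} {N : Subgroup P} [N.Normal] {R : Finset (Fin Nc)} {T : ℝ}
    {W : Λ → P → ℝ} {b : ℝ} (hW : WOk p S N n R W b) (v : Pl K) (x : Le p Λ N n) (y : P) :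
    ‖we S N n R T W v x y‖ ≤ if RL S.cls R T v x.1 then wav N n (W x.1) y else S.mu x.1 := by
  have h0 : 0 ≤ wav N n (W x.1) y := by
    unfold wav
    exact div_nonneg (Finset.sum_nonneg fun u _ => (hW.w0 _ _).1) (Nat.cast_nonneg _)
  unfold we
  by_cases h1 : RL S.cls R T v x.1
  · rw [if_pos h1, if_pos h1]
    split_ifs with h2
    · exact wh_le N n _ (fun z => (hW.w0 _ _).1) _ _
    · rw [norm_zero]
      exact h0
  · rw [if_neg h1, if_neg h1]
    split_ifs with h2
    · rw [Complex.norm_real, Real.norm_of_nonneg (hW.mu0 _).1]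
    · rw [norm_zero]
      exact (hW.mu0 _).1

theorem fib_card {S : LS Nc P Λ} {N : Subgroup P} [N.Normal] {R : Finset (Fin Nc)} (T : ℝ)
    (W : Λ → P → ℝ) (Cg : ℕ)
    (hg : ∀ (V : Type) (s : Finset V) (κ : V → Option (Λ × (P ⧸ N))),
      (Finset.univ.filter fun χ : s → Xc p N n => ∀ b x x', x ≠ x' →
      ¬ (n + 2 ≤ (Finset.univ.filter fun v : s => κ v = b ∧ χ v = x).card ∧
        n + 2 ≤ (Finset.univ.filter fun v : s => κ v = b ∧ χ v = x').card)).card ≤
      Cg * (s.card + 1) ^ Cg)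
    (Z : Finset (Pl K)) (f' : Pl K → Option Λ) (y : Pl K → P) :
    ((Cf Z (Le p Λ N n)).filter fun f => mp Prod.fst f = f' ∧
      ¬ BadN S R (ct Z (fun v => T < (nm v : ℝ)) f) ∧
      om Z (fun v x => we S N n R T W v x (y v)) f ≠ 0).card ≤ Cg * ((sp Z f').card + 1) ^ Cg := by
  refine le_trans ?_ (hg (Pl K) (sp Z f') (kap (N := N) S.cls R T f' y))
  have hf : ∀ f : Pl K → Option (Le p Λ N n), mp Prod.fst f = f' →
      om Z (fun v x => we S N n R T W v x (y v)) f ≠ 0 → ∀ v ∈ Z, ∀ x, f' v = some x →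
      ∃ q χ, f v = some (x, q, χ) ∧ ((RL S.cls R T v x ∧ q = (y v : P ⧸ N)) ∨
        (¬ RL S.cls R T v x ∧ q = 1 ∧ χ = 1)) := by
    intro f h1 h2 v hv x hx
    rw [← h1] at hx
    unfold mp at hx
    rw [Option.map_eq_some_iff] at hx
    obtain ⟨⟨x', q, χ⟩, h3, h4⟩ := hx
    obtain rfl : x' = x := h4
    refine ⟨q, χ, h3, ?_⟩
    have h5 : we S N n R T W v (x', q, χ) (y v) ≠ 0 := by
      intro h6
      refine h2 (Finset.prod_eq_zero hv ?_)
      rw [h3]
      exact h6
    exact we_ne h5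
  refine Finset.card_le_card_of_injOn (fun f => fun v : sp Z f' => chi (f v)) ?_ ?_
  · intro f h
    rw [Finset.mem_coe, Finset.mem_filter] at h
    obtain ⟨h1, h2, h3, h4⟩ := h
    rw [Finset.mem_coe, Finset.mem_filter]
    refine ⟨Finset.mem_univ _, fun b χ₁ χ₂ hne hc => ?_⟩
    have hone : ∀ χ, n + 2 ≤ (Finset.univ.filter fun v : sp Z f' =>
        kap (N := N) S.cls R T f' y v = none ∧ chi (f v) = χ).card → χ = 1 := by
      intro χ h
      obtain ⟨v, hv⟩ := Finset.card_pos.1 (lt_of_lt_of_le (Nat.succ_pos _) h)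
      rw [Finset.mem_filter] at hv
      obtain ⟨-, hv1, hv2⟩ := hv
      have hvs := mem_sp.1 v.2
      obtain ⟨x, hx⟩ := Option.ne_none_iff_exists'.1 hvs.2
      obtain ⟨q, χ', h5, h6⟩ := hf f h2 h4 v hvs.1 x hx
      rcases h6 with h6 | h6
      · unfold kap at hv1
        rw [hx, Option.bind_some, if_pos h6.1] at hv1
        exact absurd hv1 (by simp)
      · rw [← hv2]
        unfold chi
        rw [h5]
        exact h6.2.2
    have hmany : ∀ χ x q, n + 2 ≤ (Finset.univ.filter fun v : sp Z f' =>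
        kap (N := N) S.cls R T f' y v = some (x, q) ∧ chi (f v) = χ).card →
        S.cls x ∈ R ∧ n + 2 ≤ ct Z (fun v => T < (nm v : ℝ)) f (x, q, χ) := by
      intro χ x q h
      have key : ∀ v : sp Z f', kap (N := N) S.cls R T f' y v = some (x, q) → chi (f v) = χ →
          (v : Pl K) ∈ Z ∧ f v = some (x, q, χ) ∧ RL S.cls R T (v : Pl K) x := by
        intro v hv1 hv2
        have hvs := mem_sp.1 v.2
        obtain ⟨x', hx⟩ := Option.ne_none_iff_exists'.1 hvs.2
        obtain ⟨q', χ', h5, h6⟩ := hf f h2 h4 v hvs.1 x' hx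
        unfold kap at hv1
        rw [hx, Option.bind_some] at hv1
        rcases h6 with h6 | h6
        · rw [if_pos h6.1] at hv1
          obtain ⟨rfl, rfl⟩ : x' = x ∧ (y v : P ⧸ N) = q := by
            have := Option.some.inj hv1
            exact Prod.mk.inj this
          unfold chi at hv2
          rw [h5] at hv2
          obtain rfl : χ' = χ := hv2
          rw [h6.2] at h5
          exact ⟨hvs.1, h5, h6.1⟩
        · rw [if_neg h6.1] at hv1
          exact absurd hv1 (by simp)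
      constructor
      · obtain ⟨v, hv⟩ := Finset.card_pos.1 (lt_of_lt_of_le (Nat.succ_pos _) h)
        rw [Finset.mem_filter] at hv
        exact (key v hv.2.1 hv.2.2).2.2.1
      · refine h.trans ?_
        unfold ct
        refine Finset.card_le_card_of_injOn (fun v : sp Z f' => (v : Pl K)) ?_ ?_
        · intro v hv
          rw [Finset.mem_coe, Finset.mem_filter] at hv
          obtain ⟨k1, k2, k3⟩ := key v hv.2.1 hv.2.2
          rw [Finset.mem_coe, Finset.mem_filter, mem_pl]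
          exact ⟨⟨k1, k2⟩, k3.2⟩
        · intro v _ w _ hvw
          exact Subtype.ext hvw
    cases b with
    | none => exact hne ((hone _ hc.1).trans (hone _ hc.2).symm)
    | some b =>
      obtain ⟨x, q⟩ := b
      obtain ⟨k1, k2⟩ := hmany _ x q hc.1
      obtain ⟨-, k3⟩ := hmany _ x q hc.2
      exact h3 ⟨x, q, χ₁, χ₂, k1, hne, k2, k3⟩
  · intro f hf1 g hg1 hfg
    rw [Finset.mem_coe, Finset.mem_filter] at hf1 hg1
    obtain ⟨h1, h2, -, h4⟩ := hf1
    obtain ⟨g1, g2, -, g4⟩ := hg1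
    rw [mem_cf] at h1 g1
    funext v
    by_cases hv : v ∈ Z
    · by_cases hn : f' v = none
      · have k1 : f v = none := by
          have : (f v).map Prod.fst = none := (congrFun h2 v).trans hn
          exact Option.map_eq_none_iff.1 this
        have k2 : g v = none := by
          have : (g v).map Prod.fst = none := (congrFun g2 v).trans hn
          exact Option.map_eq_none_iff.1 this
        rw [k1, k2]
      · obtain ⟨x, hx⟩ := Option.ne_none_iff_exists'.1 hn
        obtain ⟨q, χ, h5, h6⟩ := hf f h2 h4 v hv x hx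
        obtain ⟨q', χ', g5, g6⟩ := hf g g2 g4 v hv x hx
        have h7 : chi (f v) = chi (g v) := congrFun hfg ⟨v, mem_sp.2 ⟨hv, hn⟩⟩
        unfold chi at h7
        rw [h5, g5] at h7
        obtain rfl : χ = χ' := h7
        have h8 : q = q' := by
          rcases h6 with h6 | h6 <;> rcases g6 with g6 | g6
          · rw [h6.2, g6.2]
          · exact absurd h6.1 g6.1
          · exact absurd g6.1 h6.1
          · rw [h6.2.1, g6.2.1]
        rw [h5, g5, h8]
    · rw [h1 v hv, g1 v hv]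

theorem om_norm {V L : Type} (Z : Finset V) (a : V → L → ℂ) (c : V → Option L) :
    ‖om Z a c‖ = om Z (fun v x => ‖a v x‖) c := by
  unfold om
  rw [norm_prod]
  refine Finset.prod_congr rfl fun v _ => ?_
  cases c v with
  | none => exact norm_one
  | some x => rfl

theorem fib_bound {S : LS Nc P Λ} {N : Subgroup P} [N.Normal] {R : Finset (Fin Nc)} (T : ℝ)
    (W : Λ → P → ℝ) {b : ℝ} (hW : WOk p S N n R W b) (Cg : ℕ)
    (hg : ∀ (V : Type) (s : Finset V) (κ : V → Option (Λ × (P ⧸ N))),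
      (Finset.univ.filter fun χ : s → Xc p N n => ∀ b x x', x ≠ x' →
      ¬ (n + 2 ≤ (Finset.univ.filter fun v : s => κ v = b ∧ χ v = x).card ∧
        n + 2 ≤ (Finset.univ.filter fun v : s => κ v = b ∧ χ v = x').card)).card ≤
      Cg * (s.card + 1) ^ Cg)
    (Z : Finset (Pl K)) (f' : Pl K → Option Λ) (y : Pl K → P) :
    ∑ f ∈ (Cf Z (Le p Λ N n)).filter (fun f => mp Prod.fst f = f'),
      (if BadN S R (ct Z (fun v => T < (nm v : ℝ)) f) then 0 else
        ‖om Z (fun v x => we S N n R T W v x (y v)) f‖) ≤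
      Cg * (((sp Z f').card : ℝ) + 1) ^ Cg * om Z (fun v x => if RL S.cls R T v x then
        wav N n (W x) (y v) else S.mu x) f' := by
  have h1 : ∀ f ∈ (Cf Z (Le p Λ N n)).filter (fun f => mp Prod.fst f = f'),
      (if BadN S R (ct Z (fun v => T < (nm v : ℝ)) f) then 0 else
        ‖om Z (fun v x => we S N n R T W v x (y v)) f‖) ≤
      if ¬ BadN S R (ct Z (fun v => T < (nm v : ℝ)) f) ∧
        om Z (fun v x => we S N n R T W v x (y v)) f ≠ 0 then
        om Z (fun v x => if RL S.cls R T v x then wav N n (W x) (y v) else S.mu x) f' else 0 := by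
    intro f hf
    have hf' := (Finset.mem_filter.1 hf).2
    by_cases h2 : BadN S R (ct Z (fun v => T < (nm v : ℝ)) f)
    · rw [if_pos h2, if_neg fun h => h.1 h2]
    · rw [if_neg h2]
      by_cases h3 : om Z (fun v x => we S N n R T W v x (y v)) f = 0
      · rw [if_neg fun h => h.2 h3, h3, norm_zero]
      · rw [if_pos ⟨h2, h3⟩, om_norm]
        unfold om
        refine Finset.prod_le_prod (fun v _ => ?_) fun v _ => ?_
        · cases f v with
          | none => exact zero_le_one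
          | some x => exact norm_nonneg _
        · rw [← hf']
          unfold mp
          cases f v with
          | none => exact le_rfl
          | some x => exact we_le hW v x (y v)
  refine (Finset.sum_le_sum h1).trans ?_
  rw [← Finset.sum_filter, Finset.filter_filter, Finset.sum_const, nsmul_eq_mul]
  have h4 : 0 ≤ om Z (fun v x => if RL S.cls R T v x then wav N n (W x) (y v) else S.mu x) f' := by
    refine Finset.prod_nonneg fun v _ => ?_
    cases f' v with
    | none => exact zero_le_one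
    | some x =>
      change 0 ≤ if RL S.cls R T v x then wav N n (W x) (y v) else S.mu x
      split_ifs
      · unfold wav
        exact div_nonneg (Finset.sum_nonneg fun u _ => (hW.w0 _ _).1) (Nat.cast_nonneg _)
      · exact (hW.mu0 _).1
  refine mul_le_mul_of_nonneg_right ?_ h4
  exact_mod_cast fib_card (S := S) T W Cg hg Z f' y

end fib

theorem psi_nonneg (t : ℝ) : 0 ≤ psi t := le_min zero_le_one (le_max_left _ _)

theorem psi_le_one (t : ℝ) : psi t ≤ 1 := min_le_left _ _

theorem psi_zero {t : ℝ} (h : 2 ≤ t) : psi t = 0 := by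
  unfold psi
  rw [max_eq_left (by linarith), min_eq_right zero_le_one]

theorem pow_two_bd (k : ℕ) : ∃ C : ℝ, 1 ≤ C ∧ ∀ m : ℕ, ((m : ℝ) + 1) ^ k ≤ C * 2 ^ m := by
  have h := tendsto_pow_const_div_const_pow_of_one_lt k (one_lt_two : (1 : ℝ) < 2)
  obtain ⟨C, hC⟩ := h.bddAbove_range
  refine ⟨max 1 (2 * C), le_max_left _ _, fun m => ?_⟩
  have h1 : ((m + 1 : ℕ) : ℝ) ^ k / 2 ^ (m + 1) ≤ C := hC ⟨m + 1, rfl⟩
  rw [div_le_iff₀ (by positivity)] at h1
  push_cast at h1
  calc ((m : ℝ) + 1) ^ k ≤ C * 2 ^ (m + 1) := h1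
    _ = (2 * C) * 2 ^ m := by ring
    _ ≤ max 1 (2 * C) * 2 ^ m := mul_le_mul_of_nonneg_right (le_max_right _ _) (by positivity)

theorem wav_bd {p n Nc : ℕ} [NeZero p] {P Λ : Type} [Group P] [Fintype P] {S : LS Nc P Λ}
    {N : Subgroup P} [N.Normal] {R : Finset (Fin Nc)} {W : Λ → P → ℝ} {b : ℝ}
    (hW : WOk p S N n R W b) (x : Λ) (y : P) : 0 ≤ wav N n (W x) y ∧ wav N n (W x) y ≤ b := by
  unfold wav
  have h0 : (0 : ℝ) < Nat.card (Nk N n) := by exact_mod_cast Nat.card_pos
  constructor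
  · exact div_nonneg (Finset.sum_nonneg fun u _ => (hW.w0 _ _).1) h0.le
  · rw [div_le_iff₀ h0]
    calc ∑ u : Nk N n, W x (y * u) ≤ ∑ _u : Nk N n, b := Finset.sum_le_sum fun u _ => (hW.w0 _ _).2
      _ = b * Nat.card (Nk N n) := by
        rw [Finset.sum_const, Finset.card_univ, nsmul_eq_mul, Nat.card_eq_fintype_card, mul_comm]

variable {K : Type} [Field K] [NumberField K] {Ω : Type} [Field Ω] [Algebra K Ω]
  {p : ℕ} [NeZero p] {ζ : K} {P : Type} [Group P] [Fintype P] {Nc n : ℕ}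
  {Λ : Type} [Fintype Λ]

/-- the term of `SA` for the mean weights -/
private def tm (S : LS Nc P Λ) {D : RD0 K p ζ} (L : LDs D Ω) (A : GS D Ω) (Fr : FR L)
    (N : Subgroup P) [N.Normal] (n : ℕ)
    (R : Finset (Fin Nc)) (M Mw : ℕ) (T : ℝ) (Zw E : Finset (Pl K)) (e : Pl K → P)
    (W : Λ → P → ℝ) (Y : ℝ) (f : Pl K → Option Λ) (α : Fin A.g → P) : ℝ :=
  if Pat S.cls R (Zg D Zw E) T M f ∧
      Hs L A E N (sp (Zg D Zw E) f) (ev A (lab E e S.val f) α) then
    psi (nc (Zg D Zw E) f / Y) * om (Zg D Zw E) (fun v x =>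
      if RL S.cls R T v x then wav N n (W x) (ev A (lab E e S.val f) α (wdE L A Mw E Zw (Fr.F v)))
      else S.mu x) f
  else 0

theorem goo_one {D : RD0 K p ζ} (A : GS D Ω) (S : LS Nc P Λ)
    (N : Subgroup P) [N.Normal] (R : Finset (Fin Nc)) (M : ℕ)
    (W : Λ → P → ℝ) (b : ℝ) (hW : WOk p S N n R W b) (Cg : ℕ)
    (hg : ∀ (V : Type) (s : Finset V) (κ : V → Option (Λ × (P ⧸ N))),
      (Finset.univ.filter fun χ : s → Xc p N n => ∀ b x x', x ≠ x' →
      ¬ (n + 2 ≤ (Finset.univ.filter fun v : s => κ v = b ∧ χ v = x).card ∧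
        n + 2 ≤ (Finset.univ.filter fun v : s => κ v = b ∧ χ v = x').card)).card ≤
      Cg * (s.card + 1) ^ Cg)
    (Y : ℝ) (L : LDs D Ω) (Fr : FR L) (Mw : ℕ) (T : ℝ)
    (Zw E : Finset (Pl K)) (e : Pl K → P) :
    ‖SE S L A Fr N n R Mw T Zw E e W (fun ν => if PatN S R M ν ∧ ¬ BadN S R ν then 1 else 0) Y‖ ≤
      ∑ f ∈ Cf (Zg D Zw E) Λ, ∑ α : Fin A.g → P,
        (Cg : ℝ) * (((sp (Zg D Zw E) f).card : ℝ) + 1) ^ Cg *
          tm S L A Fr N n R M Mw T Zw E e W Y f α := by
  unfold SE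
  rw [Finset.sum_comm, Finset.sum_comm (s := Cf (Zg D Zw E) Λ)]
  refine (norm_sum_le _ _).trans (Finset.sum_le_sum fun α _ => ?_)
  refine (norm_sum_le _ _).trans ?_
  have hmap : ∀ c ∈ Cf (Zg D Zw E) (Le p Λ N n), mp Prod.fst c ∈ Cf (Zg D Zw E) Λ := by
    intro c hc
    rw [mem_cf] at hc ⊢
    intro v hv
    show (c v).map _ = none
    rw [hc v hv]
    rfl
  rw [← Finset.sum_fiberwise_of_maps_to hmap]
  refine Finset.sum_le_sum fun f' _ => ?_
  have h3 : ∀ f : Pl K → Option (Le p Λ N n), mp Prod.fst f = f' →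
      (PatN S R M (ct (Zg D Zw E) (fun v => T < (nm v : ℝ)) f) ↔
      Pat S.cls R (Zg D Zw E) T M f') := by
    rintro f rfl
    unfold PatN Pat
    simp only [cn_ct]
  by_cases hc : Pat S.cls R (Zg D Zw E) T M f' ∧
      Hs L A E N (sp (Zg D Zw E) f') (ev A (lab E e S.val f') α)
  · unfold tm
    rw [if_pos hc]
    have h4 := mul_le_mul_of_nonneg_left (fib_bound (S := S) T W hW Cg hg (Zg D Zw E) f'
      (fun v => ev A (lab E e S.val f') α (wdE L A Mw E Zw (Fr.F v))))
      (psi_nonneg (nc (Zg D Zw E) f' / Y))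
    refine le_trans ?_ (h4.trans (le_of_eq (by ring)))
    rw [Finset.mul_sum]
    refine Finset.sum_le_sum fun f hf => ?_
    have hf' := (Finset.mem_filter.1 hf).2
    rw [lab_mp, ← sp_mp (Zg D Zw E) (Prod.fst : Le p Λ N n → Λ) f, hf', if_pos hc.2]
    have h5 : nc (Zg D Zw E) f = nc (Zg D Zw E) f' := by
      unfold nc
      rw [← hf', sp_mp]
    beta_reduce
    by_cases hb : BadN S R (ct (Zg D Zw E) (fun v => T < (nm v : ℝ)) f)
    · rw [if_pos hb, if_neg fun h => h.2 hb, zero_mul, zero_mul, norm_zero, mul_zero]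
    · rw [if_neg hb, if_pos ⟨(h3 f hf').2 hc.1, hb⟩, one_mul, norm_mul, Complex.norm_real,
        Real.norm_of_nonneg (psi_nonneg _), h5]
  · unfold tm
    rw [if_neg hc, mul_zero]
    refine (Finset.sum_eq_zero fun f hf => ?_).le
    have hf' := (Finset.mem_filter.1 hf).2
    rw [lab_mp, ← sp_mp (Zg D Zw E) (Prod.fst : Le p Λ N n → Λ) f, hf']
    beta_reduce
    by_cases hH : Hs L A E N (sp (Zg D Zw E) f') (ev A (lab E e S.val f') α)
    · rw [if_pos hH, if_neg fun h => hc ⟨(h3 f hf').1 h.1, hH⟩, zero_mul, zero_mul, norm_zero]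
    · rw [if_neg hH, norm_zero]

private theorem tm_nonneg {D : RD0 K p ζ} (A : GS D Ω) (S : LS Nc P Λ)
    (N : Subgroup P) [N.Normal] (R : Finset (Fin Nc)) (M : ℕ)
    (W : Λ → P → ℝ) (b : ℝ) (hW : WOk p S N n R W b)
    (Y : ℝ) (L : LDs D Ω) (Fr : FR L) (Mw : ℕ) (T : ℝ)
    (Zw E : Finset (Pl K)) (e : Pl K → P) (f : Pl K → Option Λ) (α : Fin A.g → P) :
    0 ≤ tm S L A Fr N n R M Mw T Zw E e W Y f α := by
  unfold tm
  split_ifs
  · refine mul_nonneg (psi_nonneg _) (Finset.prod_nonneg fun v _ => ?_)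
    cases f v with
    | none => exact zero_le_one
    | some x =>
      change 0 ≤ if RL S.cls R T v x then _ else _
      split_ifs
      · exact (wav_bd hW _ _).1
      · exact (hW.mu0 _).1
  · exact le_rfl

private theorem tm_le {D : RD0 K p ζ} (A : GS D Ω) (S : LS Nc P Λ)
    (N : Subgroup P) [N.Normal] (R : Finset (Fin Nc)) (M : ℕ)
    (W : Λ → P → ℝ) (b : ℝ) (hW : WOk p S N n R W b)
    (Y : ℝ) (hY : 0 < Y) (L : LDs D Ω) (Fr : FR L) (Mw : ℕ) (T : ℝ)
    (Zw E : Finset (Pl K)) (e : Pl K → P) (f : Pl K → Option Λ) (α : Fin A.g → P) :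
    tm S L A Fr N n R M Mw T Zw E e W Y f α ≤
      if nr (sp (Zg D Zw E) f) ≤ 2 * Y then b ^ (sp (Zg D Zw E) f).card else 0 := by
  have hb0 : 0 ≤ b := zero_le_one.trans hW.b1
  have hw : ∀ v x, 0 ≤ (if RL S.cls R T v x then
      wav N n (W x) (ev A (lab E e S.val f) α (wdE L A Mw E Zw (Fr.F v))) else S.mu x) ∧
      (if RL S.cls R T v x then
      wav N n (W x) (ev A (lab E e S.val f) α (wdE L A Mw E Zw (Fr.F v))) else S.mu x) ≤ b := by
    intro v x
    split_ifs
    · exact wav_bd hW _ _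
    · exact hW.mu0 _
  have hom := om_le_pow (Zg D Zw E) _ b hw f
  unfold tm
  split_ifs with h1 h2 h2
  · calc _ ≤ 1 * om (Zg D Zw E) _ f := mul_le_mul_of_nonneg_right (psi_le_one _)
          (om_nonneg _ _ (fun v x => (hw v x).1) f)
      _ ≤ _ := by rw [one_mul]; exact hom
  · rw [psi_zero, zero_mul]
    unfold nc
    rw [le_div_iff₀ hY]
    exact (not_le.1 h2).le
  · exact pow_nonneg hb0 _
  · exact le_rfl

theorem goo (hp : p.Prime) (D : RD0 K p ζ) (A : GS D Ω) (S : LS Nc P Λ)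
    (N : Subgroup P) [N.Normal] (hn : Nk N (n + 1) = ⊥) (R : Finset (Fin Nc)) (M : ℕ)
    (W : Λ → P → ℝ) (b : ℝ) (hW : WOk p S N n R W b) (A₂ : ℝ) :
    ∃ C Y₀ : ℝ, 1 ≤ C ∧ 3 ≤ Y₀ ∧ ∀ Y : ℝ, Y₀ ≤ Y → ∀ (L : LDs D Ω) (Fr : FR L) (Mw : ℕ) (T : ℝ)
      (Zw E : Finset (Pl K)) (e : Pl K → P),
      ‖SE S L A Fr N n R Mw T Zw E e W (fun ν => if PatN S R M ν ∧ ¬ BadN S R ν then 1 else 0)
        Y‖ ≤ (C * Real.log (Real.log Y)) ^ C *
          SA S L A Fr N R M Mw T Zw E e (fun x => wav N n (W x)) Y + Y * Real.log Y ^ (-A₂) := by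
  obtain ⟨Cg, hg⟩ := gcn (Option (Λ × (P ⧸ N))) (Xc p N n) (n + 2)
  have hb0 : 0 ≤ b := zero_le_one.trans hW.b1
  obtain ⟨C', hC'1, hC'⟩ := pow_two_bd Cg
  obtain ⟨B, Cr, hB, hCr, hr⟩ := cnt_ran K Λ (2 * b) (by positivity) (|A₂| + 1)
  obtain ⟨H, hH⟩ : ∃ H : ℝ, H = Fintype.card (Fin A.g → P) * (Cg * C') * (Cr * 2) := ⟨_, rfl⟩
  refine ⟨(Cg : ℝ) + 3 * B + 2, max (Real.exp (Real.exp 1)) (Real.exp H), by
    have : (0 : ℝ) ≤ Cg := Nat.cast_nonneg _
    linarith, ?_, fun Y hY L Fr Mw T Zw E e => ?_⟩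
  · refine le_trans ?_ (le_max_left _ _)
    have h1 : (2 : ℝ) ≤ Real.exp 1 := by
      have := Real.add_one_le_exp (1 : ℝ)
      linarith
    have h2 := Real.add_one_le_exp (Real.exp 1)
    linarith
  have hYe : Real.exp (Real.exp 1) ≤ Y := (le_max_left _ _).trans hY
  have hYH : Real.exp H ≤ Y := (le_max_right _ _).trans hY
  have hY0 : 0 < Y := (Real.exp_pos _).trans_le hYe
  have hl1 : Real.exp 1 ≤ Real.log Y := by
    rw [← Real.log_exp (Real.exp 1)]
    exact Real.log_le_log (Real.exp_pos _) hYe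
  have he1 : (2 : ℝ) ≤ Real.exp 1 := by
    have := Real.add_one_le_exp (1 : ℝ)
    linarith
  have hl0 : 0 < Real.log Y := by linarith
  have hll : 1 ≤ Real.log (Real.log Y) := by
    rw [← Real.log_exp 1]
    exact Real.log_le_log (Real.exp_pos _) hl1
  have hlH : H ≤ Real.log Y := by
    rw [← Real.log_exp H]
    exact Real.log_le_log (Real.exp_pos _) hYH
  have hl2 : Real.log Y ≤ Real.log (2 * Y) := Real.log_le_log hY0 (by linarith)
  have hl3 : Real.log (2 * Y) ≤ 2 * Real.log Y := by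
    rw [Real.log_mul two_ne_zero hY0.ne']
    have := Real.log_two_lt_d9
    linarith
  have hl4 : Real.log (Real.log (2 * Y)) ≤ 1 + Real.log (Real.log Y) := by
    calc Real.log (Real.log (2 * Y)) ≤ Real.log (2 * Real.log Y) :=
          Real.log_le_log (by linarith) hl3
      _ = Real.log 2 + Real.log (Real.log Y) := Real.log_mul two_ne_zero hl0.ne'
      _ ≤ 1 + Real.log (Real.log Y) := by
          have := Real.log_two_lt_d9
          linarith
  refine (goo_one A S N R M W b hW Cg (fun V s κ => by convert hg V s κ) Y L Fr Mw T Zw E e).trans ?_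
  have hsplit : ∀ f ∈ Cf (Zg D Zw E) Λ, ∑ α : Fin A.g → P,
        (Cg : ℝ) * (((sp (Zg D Zw E) f).card : ℝ) + 1) ^ Cg *
          tm S L A Fr N n R M Mw T Zw E e W Y f α ≤
      (((Cg : ℝ) + 3 * B + 2) * Real.log (Real.log Y)) ^ ((Cg : ℝ) + 3 * B + 2) *
        ∑ α : Fin A.g → P, tm S L A Fr N n R M Mw T Zw E e W Y f α +
      (Fintype.card (Fin A.g → P) * (Cg * C')) * (if nr (sp (Zg D Zw E) f) ≤ 2 * Y ∧
          B * (1 + Real.log (Real.log (2 * Y))) < ((sp (Zg D Zw E) f).card : ℝ) then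
            (2 * b) ^ (sp (Zg D Zw E) f).card else 0) := by
    intro f _
    have hCgp : ∀ α : Fin A.g → P, 0 ≤ tm S L A Fr N n R M Mw T Zw E e W Y f α :=
      fun α => tm_nonneg A S N R M W b hW Y L Fr Mw T Zw E e f α
    by_cases hcard : B * (1 + Real.log (Real.log (2 * Y))) < ((sp (Zg D Zw E) f).card : ℝ)
    · have h0 : (0 : ℝ) ≤ (((Cg : ℝ) + 3 * B + 2) * Real.log (Real.log Y)) ^
          ((Cg : ℝ) + 3 * B + 2) * ∑ α : Fin A.g → P, tm S L A Fr N n R M Mw T Zw E e W Y f α := by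
        refine mul_nonneg (Real.rpow_nonneg ?_ _) (Finset.sum_nonneg fun α _ => hCgp α)
        have : (0 : ℝ) ≤ Cg := Nat.cast_nonneg _
        nlinarith
      refine le_trans ?_ (le_add_of_nonneg_left h0)
      by_cases hnr : nr (sp (Zg D Zw E) f) ≤ 2 * Y
      · rw [if_pos ⟨hnr, hcard⟩]
        calc ∑ α : Fin A.g → P, (Cg : ℝ) * (((sp (Zg D Zw E) f).card : ℝ) + 1) ^ Cg *
              tm S L A Fr N n R M Mw T Zw E e W Y f α
            ≤ ∑ _α : Fin A.g → P, (Cg : ℝ) * (C' * 2 ^ (sp (Zg D Zw E) f).card) *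
              b ^ (sp (Zg D Zw E) f).card := by
              refine Finset.sum_le_sum fun α _ => ?_
              have h1 := tm_le A S N R M W b hW Y hY0 L Fr Mw T Zw E e f α
              rw [if_pos hnr] at h1
              exact mul_le_mul (mul_le_mul_of_nonneg_left (hC' _) (Nat.cast_nonneg _)) h1
                (hCgp α) (by positivity)
          _ = _ := by
              rw [Finset.sum_const, Finset.card_univ, nsmul_eq_mul, mul_pow]
              ring
      · rw [if_neg fun h => hnr h.1, mul_zero]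
        refine (Finset.sum_eq_zero fun α _ => ?_).le
        have h1 := tm_le A S N R M W b hW Y hY0 L Fr Mw T Zw E e f α
        rw [if_neg hnr] at h1
        rw [le_antisymm h1 (hCgp α), mul_zero]
    · rw [if_neg fun h => hcard h.2, mul_zero, add_zero, Finset.mul_sum]
      refine Finset.sum_le_sum fun α _ => mul_le_mul_of_nonneg_right ?_ (hCgp α)
      have hc2 : ((sp (Zg D Zw E) f).card : ℝ) + 1 ≤ (3 * B + 1) * Real.log (Real.log Y) := by
        have h1 := not_lt.1 hcard
        have h2 : B * (1 + Real.log (Real.log (2 * Y))) ≤ B * (2 + Real.log (Real.log Y)) :=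
          mul_le_mul_of_nonneg_left (by linarith) hB.le
        nlinarith
      have hX : (1 : ℝ) ≤ ((Cg : ℝ) + 3 * B + 2) * Real.log (Real.log Y) := by
        have : (0 : ℝ) ≤ Cg := Nat.cast_nonneg _
        nlinarith
      calc (Cg : ℝ) * (((sp (Zg D Zw E) f).card : ℝ) + 1) ^ Cg
          ≤ (((Cg : ℝ) + 3 * B + 2) * Real.log (Real.log Y)) *
            (((Cg : ℝ) + 3 * B + 2) * Real.log (Real.log Y)) ^ Cg := by
            refine mul_le_mul ?_ (pow_le_pow_left₀ (by positivity) (hc2.trans ?_) _)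
              (by positivity) (by linarith)
            · have : (0 : ℝ) ≤ Cg := Nat.cast_nonneg _
              nlinarith
            · refine mul_le_mul_of_nonneg_right ?_ (by linarith)
              have : (0 : ℝ) ≤ Cg := Nat.cast_nonneg _
              linarith
        _ = (((Cg : ℝ) + 3 * B + 2) * Real.log (Real.log Y)) ^ ((Cg + 1 : ℕ) : ℝ) := by
            rw [Real.rpow_natCast, pow_succ']
        _ ≤ (((Cg : ℝ) + 3 * B + 2) * Real.log (Real.log Y)) ^ ((Cg : ℝ) + 3 * B + 2) := by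
            refine Real.rpow_le_rpow_of_exponent_le hX ?_
            push_cast
            linarith
  refine (Finset.sum_le_sum hsplit).trans ?_
  rw [Finset.sum_add_distrib, ← Finset.mul_sum, ← Finset.mul_sum, ← Finset.sum_filter]
  refine add_le_add (le_of_eq rfl) ?_
  have hr1 := (hr (Zg D Zw E) (2 * Y) (by
    have h2 := Real.add_one_le_exp (Real.exp 1)
    linarith)).1
  have hCg0 : (0 : ℝ) ≤ Fintype.card (Fin A.g → P) * (Cg * C') := by positivity
  calc (Fintype.card (Fin A.g → P) * (Cg * C')) * ∑ c ∈ (Cf (Zg D Zw E) Λ).filter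
          (fun c => nr (sp (Zg D Zw E) c) ≤ 2 * Y ∧
          B * (1 + Real.log (Real.log (2 * Y))) < ((sp (Zg D Zw E) c).card : ℝ)),
          (2 * b) ^ (sp (Zg D Zw E) c).card
      ≤ (Fintype.card (Fin A.g → P) * (Cg * C')) *
        (Cr * (2 * Y) * Real.log (2 * Y) ^ (-(|A₂| + 1))) := mul_le_mul_of_nonneg_left hr1 hCg0
    _ ≤ (Fintype.card (Fin A.g → P) * (Cg * C')) *
        (Cr * (2 * Y) * Real.log Y ^ (-(|A₂| + 1))) := by
        refine mul_le_mul_of_nonneg_left (mul_le_mul_of_nonneg_left ?_ (by positivity)) hCg0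
        refine Real.rpow_le_rpow_of_nonpos hl0 hl2 ?_
        have := abs_nonneg A₂
        linarith
    _ = H * Y * (Real.log Y ^ (-|A₂|) * Real.log Y ^ (-1 : ℝ)) := by
        rw [← Real.rpow_add hl0, hH]
        ring_nf
    _ ≤ Real.log Y * Y * (Real.log Y ^ (-A₂) * Real.log Y ^ (-1 : ℝ)) := by
        refine mul_le_mul (mul_le_mul_of_nonneg_right hlH hY0.le)
          (mul_le_mul_of_nonneg_right (Real.rpow_le_rpow_of_exponent_le (by linarith) ?_)
            (Real.rpow_nonneg hl0.le _))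
          (mul_nonneg (Real.rpow_nonneg hl0.le _) (Real.rpow_nonneg hl0.le _))
          (mul_nonneg hl0.le hY0.le)
        exact neg_le_neg (le_abs_self _)
    _ = Y * Real.log Y ^ (-A₂) := by
        rw [Real.rpow_neg_one]
        field_simp

end H35.UB
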